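import Mathlib

set_option maxHeartbeats 4000000

namespace Pool.Agent.H32R3.AD

open MeasureTheory Filter Topology Set Metric
open scoped ENNReal

/-- point of the Cantor set with given digits. -/
noncomputable def cx (a : ℕ → Fin 41) : ℝ := ∑' k, (1 / 51 : ℝ) ^ k * ((5 / 204) * ((a k : ℕ) : ℝ))

/-- The Cantor set. -/
def CC : Set ℝ := Set.range cx

theorem dig_le (d : Fin 41) : ((d : ℕ) : ℝ) ≤ 40 := by
  have : (d : ℕ) ≤ 40 := by omega
  exact_mod_cast this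

theorem cx_bound (a : ℕ → Fin 41) (k : ℕ) :
    (1 / 51 : ℝ) ^ k * ((5 / 204) * ((a k : ℕ) : ℝ)) ≤ (1 / 51 : ℝ) ^ k * (200 / 204) := by
  have := dig_le (a k)
  gcongr
  linarith

theorem cx_term_nonneg (a : ℕ → Fin 41) (k : ℕ) :
    0 ≤ (1 / 51 : ℝ) ^ k * ((5 / 204) * ((a k : ℕ) : ℝ)) := by positivity

theorem geo_summable : Summable (fun k : ℕ => (1 / 51 : ℝ) ^ k * (200 / 204)) :=
  (summable_geometric_of_lt_one (by norm_num) (by norm_num)).mul_right _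

theorem cx_summable (a : ℕ → Fin 41) : Summable (fun k => (1 / 51 : ℝ) ^ k * ((5 / 204) * ((a k : ℕ) : ℝ))) :=
  Summable.of_nonneg_of_le (cx_term_nonneg a) (cx_bound a) geo_summable

theorem cx_cons (a : ℕ → Fin 41) :
    cx a = 5 / 204 * ((a 0 : ℕ) : ℝ) + 1 / 51 * cx (fun k => a (k + 1)) := by
  unfold cx
  rw [(cx_summable a).tsum_eq_zero_add, ← tsum_mul_left]
  simp only [pow_zero, one_mul]
  congr 1
  apply tsum_congr
  intro k
  ring

theorem cx_nonneg (a : ℕ → Fin 41) : 0 ≤ cx a := tsum_nonneg (cx_term_nonneg a)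

theorem cx_le_one (a : ℕ → Fin 41) : cx a ≤ 1 := by
  have h := (cx_summable a).tsum_le_tsum (cx_bound a) geo_summable
  rw [tsum_mul_right, tsum_geometric_of_lt_one (by norm_num) (by norm_num)] at h
  calc cx a ≤ _ := h
    _ = 1 := by norm_num

theorem cx_continuous : Continuous cx := by
  apply continuous_tsum (u := fun k : ℕ => (1 / 51 : ℝ) ^ k * (200 / 204))
  · intro k
    have : Continuous (fun a : ℕ → Fin 41 => ((a k : ℕ) : ℝ)) := by
      have h1 : Continuous (fun d : Fin 41 => ((d : ℕ) : ℝ)) := continuous_of_discreteTopology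
      exact h1.comp (continuous_apply k)
    fun_prop
  · exact geo_summable
  · intro k a
    rw [Real.norm_of_nonneg (cx_term_nonneg a k)]
    exact cx_bound a k

theorem CC_compact : IsCompact CC := isCompact_range cx_continuous

theorem CC_sub {x : ℝ} (hx : x ∈ CC) : 0 ≤ x ∧ x ≤ 1 := by
  obtain ⟨a, rfl⟩ := hx
  exact ⟨cx_nonneg a, cx_le_one a⟩

theorem CC_zero : (0 : ℝ) ∈ CC := ⟨fun _ => 0, by simp [cx]⟩

theorem CC_cons {x : ℝ} (hx : x ∈ CC) (i : Fin 41) : 5 / 204 * ((i : ℕ) : ℝ) + 1 / 51 * x ∈ CC := by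
  obtain ⟨a, rfl⟩ := hx
  refine ⟨fun k => Nat.casesOn k i a, ?_⟩
  rw [cx_cons]
  rfl

theorem CC_uncons {x : ℝ} (hx : x ∈ CC) : ∃ i : Fin 41, ∃ y ∈ CC, x = 5 / 204 * ((i : ℕ) : ℝ) + 1 / 51 * y := by
  obtain ⟨a, rfl⟩ := hx
  exact ⟨a 0, _, ⟨_, rfl⟩, cx_cons a⟩

/-- separation: a point of the Cantor set in the enlarged i-th interval has first digit i. -/
theorem CC_sep {y : ℝ} (hy : -(1 / 5) < y) (hy' : y < 1 + 1 / 5) {i j : Fin 41} {x : ℝ} (hx : x ∈ CC)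
    (h : 5 / 204 * ((i : ℕ) : ℝ) + 1 / 51 * y = 5 / 204 * ((j : ℕ) : ℝ) + 1 / 51 * x) : i = j := by
  obtain ⟨h0, h1⟩ := CC_sub hx
  by_contra hne
  rcases lt_or_gt_of_ne (fun h => hne (Fin.ext h) : (i : ℕ) ≠ j) with hlt | hlt
  · have : ((i : ℕ) : ℝ) + 1 ≤ ((j : ℕ) : ℝ) := by exact_mod_cast hlt
    linarith
  · have : ((j : ℕ) : ℝ) + 1 ≤ ((i : ℕ) : ℝ) := by exact_mod_cast hlt
    linarith

theorem CC_symm {x : ℝ} (hx : x ∈ CC) : 1 - x ∈ CC := by
  obtain ⟨a, rfl⟩ := hx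
  refine ⟨fun k => Fin.rev (a k), ?_⟩
  have h1 : ∀ k, (((Fin.rev (a k) : Fin 41) : ℕ) : ℝ) = 40 - ((a k : ℕ) : ℝ) := by
    intro k
    rw [Fin.val_rev]
    have : (a k : ℕ) + 1 ≤ 41 := by omega
    rw [Nat.cast_sub this]
    push_cast
    ring
  unfold cx
  have h2 : (∑' k, (1 / 51 : ℝ) ^ k * ((5 / 204) * ((Fin.rev (a k) : ℕ) : ℝ)))
      = ∑' k : ℕ, ((1 / 51 : ℝ) ^ k * (200 / 204) - (1 / 51 : ℝ) ^ k * ((5 / 204) * ((a k : ℕ) : ℝ))) := by
    apply tsum_congr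
    intro k
    rw [h1]; ring
  rw [h2, (geo_summable.tsum_sub (cx_summable a)), tsum_mul_right,
    tsum_geometric_of_lt_one (by norm_num) (by norm_num)]
  norm_num

theorem CC_null : volume CC = 0 := by
  have hfin : volume CC < ⊤ := CC_compact.measure_lt_top
  have h1 : CC ⊆ ⋃ i : Fin 41, (fun x : ℝ => 51 * x) ⁻¹' ((fun x : ℝ => x + (- (51 * (5 / 204 * ((i : ℕ) : ℝ))))) ⁻¹' CC) := by
    intro x hx
    obtain ⟨i, y, hy, rfl⟩ := CC_uncons hx
    refine mem_iUnion.2 ⟨i, ?_⟩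
    simp only [mem_preimage]
    convert hy using 1
    ring
  have h2 : volume CC ≤ ∑ i : Fin 41, ENNReal.ofReal (1 / 51) * volume CC := by
    refine (measure_mono h1).trans ((measure_iUnion_fintype_le _ _).trans (Finset.sum_le_sum fun i _ => ?_))
    rw [Real.volume_preimage_mul_left (by norm_num), measure_preimage_add_right]
    apply le_of_eq
    congr 2
    rw [abs_of_pos (by norm_num)]
    norm_num
  rw [Finset.sum_const, Finset.card_univ, Fintype.card_fin, nsmul_eq_mul] at h2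
  by_contra hne
  have h3 : (41 : ℝ) * ((1 / 51) * (volume CC).toReal) < (volume CC).toReal := by
    have : 0 < (volume CC).toReal := ENNReal.toReal_pos hne hfin.ne
    linarith
  have h4 : (volume CC).toReal ≤ (41 : ℝ) * ((1 / 51) * (volume CC).toReal) := by
    have := ENNReal.toReal_mono (by
      apply ENNReal.mul_ne_top (by simp)
      exact ENNReal.mul_ne_top (by simp) hfin.ne) h2
    rw [ENNReal.toReal_mul, ENNReal.toReal_mul, ENNReal.toReal_ofReal (by norm_num)] at this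
    simpa using this
  linarith

theorem CC_dense_compl : Dense CCᶜ := by
  rw [← interior_eq_empty_iff_dense_compl]
  exact Measure.interior_eq_empty_of_null CC_null

/-- level m decomposition. -/
theorem cx_level (m : ℕ) (a : ℕ → Fin 41) :
    ∃ X : ℝ, cx a = X + (1 / 51) ^ m * cx (fun k => a (k + m)) ∧ ∀ c ∈ CC, X + (1 / 51) ^ m * c ∈ CC := by
  induction m generalizing a with
  | zero => exact ⟨0, by simp, fun c hc => by simpa using hc⟩
  | succ m ih =>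
    obtain ⟨X, hX, hC⟩ := ih (fun k => a (k + 1))
    refine ⟨5 / 204 * ((a 0 : ℕ) : ℝ) + 1 / 51 * X, ?_, ?_⟩
    · rw [cx_cons, hX]
      have : (fun k => a (k + m + 1)) = fun k => a (k + (m + 1)) := rfl
      rw [this]
      ring
    · intro c hc
      have := CC_cons (hC c hc) (a 0)
      convert this using 1
      ring

/-- chain of squares along the diagonal staircase. -/
theorem stair {A B L r : ℝ} (hL : 0 < L) (i₀ : ℕ) (n : ℕ)
    (h1 : ∀ i : ℕ, i₀ ≤ i → i < i₀ + n → A + 5 / 204 * L * i ≤ 4 * (B + 5 / 204 * L * i))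
    (h2 : ∀ i : ℕ, i₀ ≤ i → i < i₀ + n → B + 5 / 204 * L * i ≤ 4 * (A + 5 / 204 * L * (i + 1)))
    (hlo : (A + 5 / 204 * L * i₀) ^ 2 + (B + 5 / 204 * L * i₀) ^ 2 ≤ r ^ 2)
    (hhi : r ^ 2 ≤ (A + 5 / 204 * L * (i₀ + n : ℕ) + 1 / 51 * L) ^ 2 + (B + 5 / 204 * L * (i₀ + n : ℕ) + 1 / 51 * L) ^ 2) :
    ∃ i j : ℕ, i₀ ≤ i ∧ i ≤ i₀ + n ∧ i₀ ≤ j ∧ j ≤ i₀ + n ∧ (i = j ∨ i = j + 1) ∧
      (A + 5 / 204 * L * i) ^ 2 + (B + 5 / 204 * L * j) ^ 2 ≤ r ^ 2 ∧
      r ^ 2 ≤ (A + 5 / 204 * L * i + 1 / 51 * L) ^ 2 + (B + 5 / 204 * L * j + 1 / 51 * L) ^ 2 := by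
  induction n with
  | zero =>
    exact ⟨i₀, i₀, le_rfl, le_rfl, le_rfl, le_rfl, Or.inl rfl, hlo, by simpa using hhi⟩
  | succ n ih =>
    by_cases hc : r ^ 2 ≤ (A + 5 / 204 * L * (i₀ + n : ℕ) + 1 / 51 * L) ^ 2 + (B + 5 / 204 * L * (i₀ + n : ℕ) + 1 / 51 * L) ^ 2
    · obtain ⟨i, j, a1, a2, a3, a4, a5, a6, a7⟩ := ih (fun i hi hi' => h1 i hi (by omega))
        (fun i hi hi' => h2 i hi (by omega)) hc
      exact ⟨i, j, a1, by omega, a3, by omega, a5, a6, a7⟩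
    · push Not at hc
      have g1 := h1 (i₀ + n) (by omega) (by omega)
      have g2 := h2 (i₀ + n) (by omega) (by omega)
      set X := A + 5 / 204 * L * (i₀ + n : ℕ) with hX
      set Y := B + 5 / 204 * L * (i₀ + n : ℕ) with hY
      have e1 : A + 5 / 204 * L * ((i₀ + (n + 1) : ℕ) : ℝ) = X + 5 / 204 * L := by
        rw [hX]; push_cast; ring
      have e2 : B + 5 / 204 * L * ((i₀ + (n + 1) : ℕ) : ℝ) = Y + 5 / 204 * L := by
        rw [hY]; push_cast; ring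
      have e3 : A + 5 / 204 * L * (((i₀ + n : ℕ) : ℝ) + 1) = X + 5 / 204 * L := by
        rw [hX]; ring
      rw [e3] at g2
      rw [e1, e2] at hhi
      -- square (i+1, i)
      have ov1 : (X + 5 / 204 * L) ^ 2 + Y ^ 2 ≤ (X + 1 / 51 * L) ^ 2 + (Y + 1 / 51 * L) ^ 2 := by
        nlinarith [mul_nonneg hL.le (sub_nonneg.2 g1), mul_pos hL hL]
      by_cases hc2 : r ^ 2 ≤ (X + 5 / 204 * L + 1 / 51 * L) ^ 2 + (Y + 1 / 51 * L) ^ 2
      · refine ⟨i₀ + (n + 1), i₀ + n, by omega, by omega, by omega, by omega, Or.inr (by omega), ?_, ?_⟩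
        · rw [e1]; exact le_trans ov1 hc.le
        · rw [e1]; exact hc2
      · push Not at hc2
        have ov2 : (X + 5 / 204 * L) ^ 2 + (Y + 5 / 204 * L) ^ 2 ≤ (X + 5 / 204 * L + 1 / 51 * L) ^ 2 + (Y + 1 / 51 * L) ^ 2 := by
          nlinarith [mul_nonneg hL.le (sub_nonneg.2 g2), mul_pos hL hL]
        refine ⟨i₀ + (n + 1), i₀ + (n + 1), by omega, by omega, by omega, by omega, Or.inl rfl, ?_, ?_⟩
        · rw [e1, e2]; linarith
        · rw [e1, e2]; exact hhi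

/-- hitting lemma. -/
theorem hit_approx (r : ℝ) (n : ℕ) : ∀ A B L : ℝ, 0 < L → 0 < A → 0 < B → A + L ≤ 3 * B → B + L ≤ 3 * A →
    A ^ 2 + B ^ 2 ≤ r ^ 2 → r ^ 2 ≤ (A + L) ^ 2 + (B + L) ^ 2 →
    ∃ s ∈ CC, ∃ t ∈ CC, |(A + L * s) ^ 2 + (B + L * t) ^ 2 - r ^ 2| ≤ (1 / 51) ^ n * (4 * L * (A + B + 2 * L)) := by
  induction n with
  | zero =>
    intro A B L hL hA hB h1 h2 h3 h4
    refine ⟨0, CC_zero, 0, CC_zero, ?_⟩
    rw [mul_zero, add_zero, add_zero, abs_le]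
    constructor <;> nlinarith
  | succ n ih =>
    intro A B L hL hA hB h1 h2 h3 h4
    obtain ⟨i, j, a1, a2, a3, a4, a5, a6, a7⟩ := stair (A := A) (B := B) (L := L) (r := r) hL 0 40
      (by
        intro i _ hi
        have hi' : (i : ℝ) ≥ 0 := Nat.cast_nonneg i
        nlinarith [mul_nonneg hL.le hi'])
      (by
        intro i _ hi
        have hi' : (i : ℝ) ≥ 0 := Nat.cast_nonneg i
        nlinarith [mul_nonneg hL.le hi'])
      (by simpa using h3)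
      (by
        have e : 5 / 204 * L * ((0 + 40 : ℕ) : ℝ) + 1 / 51 * L = L := by push_cast; ring
        rw [add_assoc, add_assoc, e]; exact h4)
    have hi40 : (i : ℝ) ≤ 40 := by exact_mod_cast a2
    have hj40 : (j : ℝ) ≤ 40 := by exact_mod_cast a4
    have hi0 : (0 : ℝ) ≤ i := Nat.cast_nonneg i
    have hj0 : (0 : ℝ) ≤ j := Nat.cast_nonneg j
    have hLi : L * i ≤ L * 40 := mul_le_mul_of_nonneg_left hi40 hL.le
    have hLj : L * j ≤ L * 40 := mul_le_mul_of_nonneg_left hj40 hL.le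
    have hLi0 : 0 ≤ L * i := mul_nonneg hL.le hi0
    have hLj0 : 0 ≤ L * j := mul_nonneg hL.le hj0
    obtain ⟨s, hs, t, ht, hst⟩ := ih (A + 5 / 204 * L * i) (B + 5 / 204 * L * j) (1 / 51 * L) (by positivity)
      (by positivity) (by positivity) (by nlinarith) (by nlinarith) a6 a7
    refine ⟨5 / 204 * i + 1 / 51 * s, ?_, 5 / 204 * j + 1 / 51 * t, ?_, ?_⟩
    · exact CC_cons hs ⟨i, by omega⟩
    · exact CC_cons ht ⟨j, by omega⟩
    · have e1 : A + L * (5 / 204 * i + 1 / 51 * s) = A + 5 / 204 * L * i + 1 / 51 * L * s := by ring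
      have e2 : B + L * (5 / 204 * j + 1 / 51 * t) = B + 5 / 204 * L * j + 1 / 51 * L * t := by ring
      rw [e1, e2]
      refine hst.trans ?_
      have h5 : (A + 5 / 204 * L * i + (B + 5 / 204 * L * j) + 2 * (1 / 51 * L)) ≤ A + B + 2 * L := by nlinarith
      calc (1 / 51 : ℝ) ^ n * (4 * (1 / 51 * L) * (A + 5 / 204 * L * i + (B + 5 / 204 * L * j) + 2 * (1 / 51 * L)))
          ≤ (1 / 51 : ℝ) ^ n * (4 * (1 / 51 * L) * (A + B + 2 * L)) := by gcongr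
        _ = (1 / 51 : ℝ) ^ (n + 1) * (4 * L * (A + B + 2 * L)) := by ring

theorem hit {A B L r : ℝ} (hL : 0 < L) (hA : 0 < A) (hB : 0 < B) (h1 : A + L ≤ 3 * B) (h2 : B + L ≤ 3 * A)
    (h3 : A ^ 2 + B ^ 2 ≤ r ^ 2) (h4 : r ^ 2 ≤ (A + L) ^ 2 + (B + L) ^ 2) :
    ∃ s ∈ CC, ∃ t ∈ CC, (A + L * s) ^ 2 + (B + L * t) ^ 2 = r ^ 2 := by
  have hcomp : IsCompact ((fun q : ℝ × ℝ => (A + L * q.1) ^ 2 + (B + L * q.2) ^ 2) '' (CC ×ˢ CC)) :=
    (CC_compact.prod CC_compact).image (by fun_prop)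
  have hmem : r ^ 2 ∈ closure ((fun q : ℝ × ℝ => (A + L * q.1) ^ 2 + (B + L * q.2) ^ 2) '' (CC ×ˢ CC)) := by
    rw [Metric.mem_closure_iff]
    intro ε hε
    have hE : 0 < 4 * L * (A + B + 2 * L) := by positivity
    obtain ⟨n, hn⟩ := exists_pow_lt_of_lt_one (show 0 < ε / (4 * L * (A + B + 2 * L)) by positivity)
      (show (1 / 51 : ℝ) < 1 by norm_num)
    obtain ⟨s, hs, t, ht, hst⟩ := hit_approx r n A B L hL hA hB h1 h2 h3 h4
    refine ⟨_, ⟨(s, t), ⟨hs, ht⟩, rfl⟩, ?_⟩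
    rw [dist_comm, Real.dist_eq]
    refine lt_of_le_of_lt hst ?_
    rwa [lt_div_iff₀ hE] at hn
  rw [hcomp.isClosed.closure_eq] at hmem
  obtain ⟨⟨s, t⟩, ⟨hs, ht⟩, h⟩ := hmem
  exact ⟨s, hs, t, ht, h⟩

end Pool.Agent.H32R3.AD
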