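import Mathlib

namespace Pool.Agent.H32R3.AD

open MeasureTheory Filter Topology Set Metric
open scoped ENNReal

/-- `s` is a nonnegative superharmonic function on the open set `Ω ⊆ ℂ`, with values in `[0, ∞]`:
it is lower semicontinuous on `Ω` and, for every closed disc contained in `Ω`, its mean over the bounding
circle is at most its value at the centre. -/
def NonnegSuperharmonicOn (Ω : Set ℂ) (s : ℂ → ℝ≥0∞) : Prop :=
  LowerSemicontinuousOn s Ω ∧
    ∀ (z : ℂ) (r : ℝ), 0 < r → closedBall z r ⊆ Ω →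
      ∫⁻ θ in Ioc 0 (2 * Real.pi), s (circleMap z r θ) ≤ ENNReal.ofReal (2 * Real.pi) * s z

/-- The set `N` (of boundary points of the domain `Ω`) has harmonic measure zero, in Perron's form: for
each base point `z₀` the upper Perron solution of the Dirichlet problem in `Ω` with boundary values the indicator of
`N` vanishes at `z₀`, that is, nonnegative superharmonic functions whose lower limit is at least `1` at
every point of `N` take arbitrarily small values at `z₀`. -/
def HarmonicNull (Ω N : Set ℂ) : Prop :=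
  ∀ z₀ ∈ Ω, ∀ ε : ℝ≥0∞, 0 < ε → ∃ s : ℂ → ℝ≥0∞, NonnegSuperharmonicOn Ω s ∧ s z₀ < ε ∧
    ∀ ζ ∈ N, 1 ≤ liminf s (𝓝[Ω] ζ)

/-- `a r` and `b r` are the end angles of a circular arc `C_r` of radius `r` centred at `z`, closed and of
positive length, chosen inside `Ω` for every sufficiently small `r > 0`, with angular measure `b r - a r` a
measurable function of `r`. -/
def IsArcChoice (Ω : Set ℂ) (z : ℂ) (a b : ℝ → ℝ) : Prop :=
  Measurable (fun r => b r - a r) ∧ ∃ r₀ > 0, ∀ r : ℝ, 0 < r → r < r₀ →
    a r < b r ∧ b r ≤ a r + 2 * Real.pi ∧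
      ∀ φ ∈ Icc (a r) (b r), z + r * Complex.exp (φ * Complex.I) ∈ Ω

/-- The quantity `(1 / (π R²)) ∫₀ᴿ θ(C_r) r dr` for the arcs with end angles `a r` and `b r`. -/
noncomputable def arcMean (a b : ℝ → ℝ) (R : ℝ) : ℝ :=
  1 / (Real.pi * R ^ 2) * ∫ r in (0)..R, (b r - a r) * r

end Pool.Agent.H32R3.AD
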