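import Mathlib

set_option maxHeartbeats 4000000

namespace Pool.Agent.H32R3.AD

open MeasureTheory Filter Topology Set Metric Real

/-- a trigonometric polynomial on a circle has an extension to the plane with the mean value property. -/
theorem trig_ext (c : ℂ) (R : ℝ) (hR : 0 < R) [Fact (0 < 2 * π)]
    (p : C(AddCircle (2 * π), ℂ)) (hp : p ∈ Submodule.span ℂ (Set.range (@fourier (2 * π)))) :
    ∃ P : ℂ → ℂ, Continuous P ∧ (∀ c' r', circleAverage P c' r' = P c') ∧
      ∀ θ : ℝ, P (circleMap c R θ) = p (θ : AddCircle (2 * π)) := by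
  induction hp using Submodule.span_induction with
  | mem x hx =>
    obtain ⟨n, rfl⟩ := hx
    have hR' : (R : ℂ) ≠ 0 := by exact_mod_cast hR.ne'
    have hval : ∀ θ : ℝ, (fourier n : C(AddCircle (2 * π), ℂ)) (θ : AddCircle (2 * π))
        = Complex.exp (n * (θ * Complex.I)) := by
      intro θ
      rw [fourier_coe_apply]
      congr 1
      have : (π : ℂ) ≠ 0 := by exact_mod_cast pi_ne_zero
      push_cast
      field_simp
    rcases Int.eq_nat_or_neg n with ⟨m, hm | hm⟩
    · refine ⟨fun x => ((x - c) / R) ^ m, by fun_prop, ?_, ?_⟩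
      · intro c' r'
        apply DiffContOnCl.circleAverage
        apply Differentiable.diffContOnCl
        fun_prop
      · intro θ
        rw [hval, hm]
        simp only [circleMap, add_sub_cancel_left]
        rw [mul_div_assoc, mul_comm, div_mul_cancel₀ _ hR', ← Complex.exp_nat_mul]
        simp
    · refine ⟨fun x => (starRingEnd ℂ) (((x - c) / R) ^ m), by fun_prop, ?_, ?_⟩
      · intro c' r'
        have h1 : circleAverage (fun x => ((x - c) / (R : ℂ)) ^ m) c' r' = ((c' - c) / (R : ℂ)) ^ m := by
          apply DiffContOnCl.circleAverage (f := fun x => ((x - c) / (R : ℂ)) ^ m)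
          apply Differentiable.diffContOnCl
          fun_prop
        have h2 := ContinuousLinearMap.circleAverage_comp_comm (c := c') (R := r')
          (Complex.conjCLE : ℂ →L[ℝ] ℂ) (f := fun x => ((x - c) / (R : ℂ)) ^ m)
          (by
            apply ContinuousOn.circleIntegrable'
            fun_prop)
        rw [h1] at h2
        exact h2
      · intro θ
        rw [hval, hm]
        simp only [circleMap, add_sub_cancel_left]
        rw [mul_div_assoc, mul_comm, div_mul_cancel₀ _ hR', ← Complex.exp_nat_mul, ← Complex.exp_conj]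
        simp
  | zero =>
    exact ⟨fun _ => 0, by fun_prop, by intro c' r'; exact circleAverage_const 0 c' r', by simp⟩
  | add x y hx hy ihx ihy =>
    obtain ⟨P, hP1, hP2, hP3⟩ := ihx
    obtain ⟨Q, hQ1, hQ2, hQ3⟩ := ihy
    refine ⟨fun x => P x + Q x, by fun_prop, ?_, ?_⟩
    · intro c' r'
      rw [circleAverage_fun_add (hP1.continuousOn.circleIntegrable') (hQ1.continuousOn.circleIntegrable'),
        hP2, hQ2]
    · intro θ
      show P (circleMap c R θ) + Q (circleMap c R θ) = _
      rw [hP3, hQ3]; rfl
  | smul a x hx ihx =>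
    obtain ⟨P, hP1, hP2, hP3⟩ := ihx
    refine ⟨fun x => a * P x, by fun_prop, ?_, ?_⟩
    · intro c' r'
      have := circleAverage_fun_smul (c := c') (R := r') (f := P) (a := a)
      simp only [smul_eq_mul] at this
      rw [this, hP2]
    · intro θ
      show a * P (circleMap c R θ) = _
      rw [hP3]; rfl

theorem avg_normSq (c x : ℂ) (r : ℝ) :
    circleAverage (fun y => ‖y - c‖ ^ 2) x r = ‖x - c‖ ^ 2 + r ^ 2 := by
  have h1 : ∀ y ∈ sphere x |r|, ‖y - c‖ ^ 2
      = (‖x - c‖ ^ 2 + r ^ 2) + (2 * (starRingEnd ℂ) (x - c) * (y - x)).re := by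
    intro y hy
    have hy' : ‖y - x‖ ^ 2 = r ^ 2 := by
      have : ‖y - x‖ = |r| := by simpa [dist_eq_norm] using hy
      rw [this, sq_abs]
    have h2 : y - c = (x - c) + (y - x) := by ring
    rw [h2, ← Complex.normSq_eq_norm_sq, Complex.normSq_add, Complex.normSq_eq_norm_sq,
      Complex.normSq_eq_norm_sq, hy']
    simp only [Complex.mul_re, Complex.mul_im, Complex.conj_re, Complex.conj_im, Complex.re_ofNat,
      Complex.im_ofNat]
    ring
  rw [circleAverage_congr_sphere (f₂ := fun y => (‖x - c‖ ^ 2 + r ^ 2) + (2 * (starRingEnd ℂ) (x - c) * (y - x)).re) h1]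
  have hcont : Continuous (fun y : ℂ => (2 * (starRingEnd ℂ) (x - c) * (y - x))) := by fun_prop
  rw [circleAverage_fun_add (f₁ := fun _ => ‖x - c‖ ^ 2 + r ^ 2) (f₂ := fun y => (2 * (starRingEnd ℂ) (x - c) * (y - x)).re)
    ((continuous_const).continuousOn.circleIntegrable')
    ((Complex.continuous_re.comp hcont).continuousOn.circleIntegrable'), circleAverage_const]
  have h2 := ContinuousLinearMap.circleAverage_comp_comm (c := x) (R := r)
          (Complex.reCLM : ℂ →L[ℝ] ℝ) (f := fun y => (2 * (starRingEnd ℂ) (x - c) * (y - x)))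
          (hcont.continuousOn.circleIntegrable')
  have h3 : circleAverage (fun y => (2 * (starRingEnd ℂ) (x - c) * (y - x))) x r = 0 := by
    rw [DiffContOnCl.circleAverage]
    · simp
    · apply Differentiable.diffContOnCl
      fun_prop
  rw [h3] at h2
  have h4 : circleAverage (fun y => (2 * (starRingEnd ℂ) (x - c) * (y - x)).re) x r = 0 := by
    rw [map_zero] at h2
    exact h2
  rw [h4, add_zero]

/-- local submean property implies the global one, for continuous functions. -/
theorem local_to_global {Ω : Set ℂ} (u : ℂ → ℝ) (hu : ContinuousOn u Ω)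
    (hloc : ∀ x ∈ Ω, ∃ ρ > 0, ∀ r, 0 < r → r < ρ → u x ≤ circleAverage u x r)
    (c : ℂ) (R : ℝ) (hR : 0 < R) (hB : closedBall c R ⊆ Ω) : u c ≤ circleAverage u c R := by
  have : Fact (0 < 2 * π) := ⟨two_pi_pos⟩
  have hsph : sphere c R ⊆ Ω := sphere_subset_closedBall.trans hB
  -- the boundary function
  have hcm : Continuous (fun θ : ℝ => u (circleMap c R θ)) := by
    have : ContinuousOn u (sphere c R) := hu.mono hsph
    exact this.comp_continuous (continuous_circleMap c R) (fun θ => circleMap_mem_sphere c hR.le θ)
  have hper : Function.Periodic (fun θ : ℝ => ((u (circleMap c R θ) : ℝ) : ℂ)) (2 * π) := by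
    intro θ
    simp [periodic_circleMap c R θ]
  let F : C(AddCircle (2 * π), ℂ) := ⟨hper.lift, by
    exact continuous_coinduced_dom.mpr (Complex.continuous_ofReal.comp hcm)⟩
  have hF : ∀ θ : ℝ, F (θ : AddCircle (2 * π)) = ((u (circleMap c R θ) : ℝ) : ℂ) := fun θ => rfl
  apply le_of_forall_pos_le_add
  intro ε hε
  have hmem : F ∈ closure ((Submodule.span ℂ (Set.range (@fourier (2 * π))) : Submodule ℂ _) : Set C(AddCircle (2 * π), ℂ)) := by
    have := span_fourier_closure_eq_top (T := 2 * π)
    have h2 : F ∈ (Submodule.span ℂ (Set.range (@fourier (2 * π)))).topologicalClosure := by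
      rw [this]; trivial
    exact h2
  obtain ⟨p, hp, hFp⟩ := Metric.mem_closure_iff.1 hmem (ε / 2) (by positivity)
  obtain ⟨P, hP1, hP2, hP3⟩ := trig_ext c R hR p hp
  have hclose : ∀ y ∈ sphere c R, |u y - (P y).re| ≤ ε / 2 := by
    intro y hy
    obtain ⟨θ, hθ⟩ : ∃ θ : ℝ, circleMap c R θ = y := by
      have : y ∈ Set.range (circleMap c R) := by
        rw [range_circleMap, abs_of_pos hR]; exact hy
      exact this
    rw [← hθ, hP3]
    have h1 : dist (F (θ : AddCircle (2 * π))) (p (θ : AddCircle (2 * π))) ≤ dist F p :=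
      ContinuousMap.dist_apply_le_dist _
    rw [hF, dist_eq_norm] at h1
    have h2 := Complex.abs_re_le_norm (((u (circleMap c R θ) : ℝ) : ℂ) - p (θ : AddCircle (2 * π)))
    simp only [Complex.sub_re, Complex.ofReal_re] at h2
    linarith
  have hPre : Continuous (fun y => (P y).re) := Complex.continuous_re.comp hP1
  have hPavg : ∀ c' r', circleAverage (fun y => (P y).re) c' r' = (P c').re := by
    intro c' r'
    have h2 := ContinuousLinearMap.circleAverage_comp_comm (c := c') (R := r')
          (Complex.reCLM : ℂ →L[ℝ] ℝ) (f := P) (hP1.continuousOn.circleIntegrable')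
    rw [hP2] at h2
    exact h2
  -- interior comparison
  have hkey : ∀ δ > 0, u c - (P c).re - ε / 2 - δ * R ^ 2 ≤ 0 := by
    intro δ hδ
    let v : ℂ → ℝ := fun y => u y - (P y).re - ε / 2 + δ * ‖y - c‖ ^ 2 - δ * R ^ 2
    have hvc : ContinuousOn v (closedBall c R) := by
      have h1 : ContinuousOn u (closedBall c R) := hu.mono hB
      have h2 : Continuous (fun y : ℂ => δ * ‖y - c‖ ^ 2 - δ * R ^ 2 - (P y).re - ε / 2) := by fun_prop
      have h3 := h1.add h2.continuousOn
      refine h3.congr ?_
      intro y hy
      simp only [v, Pi.add_apply]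
      ring
    obtain ⟨x₁, hx₁, hmax⟩ := (isCompact_closedBall c R).exists_isMaxOn
      ⟨c, mem_closedBall_self hR.le⟩ hvc
    have hv1 : v x₁ ≤ 0 := by
      by_contra hpos
      push Not at hpos
      have hlt : dist x₁ c < R := by
        rcases lt_or_eq_of_le (mem_closedBall.1 hx₁) with h | h
        · exact h
        · exfalso
          have h1 := hclose x₁ (by rwa [mem_sphere])
          rw [dist_eq_norm] at h
          simp only [v] at hpos
          rw [h] at hpos
          have := abs_le.1 h1
          linarith
      obtain ⟨ρ, hρ, hρu⟩ := hloc x₁ (hB hx₁)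
      obtain ⟨r, hr0, hr1, hr2⟩ : ∃ r, 0 < r ∧ r < ρ ∧ r < R - dist x₁ c := by
        refine ⟨min ρ (R - dist x₁ c) / 2, ?_, ?_, ?_⟩
        · have : 0 < min ρ (R - dist x₁ c) := lt_min hρ (by linarith)
          positivity
        · have : 0 < min ρ (R - dist x₁ c) := lt_min hρ (by linarith)
          have := min_le_left ρ (R - dist x₁ c)
          linarith
        · have : 0 < min ρ (R - dist x₁ c) := lt_min hρ (by linarith)
          have := min_le_right ρ (R - dist x₁ c)
          linarith
      have hsub : sphere x₁ |r| ⊆ closedBall c R := by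
        intro y hy
        rw [abs_of_pos hr0, mem_sphere] at hy
        rw [mem_closedBall]
        have := dist_triangle y x₁ c
        linarith
      have hu1 := hρu r hr0 hr1
      have hI1 : CircleIntegrable u x₁ r := (hu.mono (hsub.trans hB)).circleIntegrable'
      have hvI : CircleIntegrable v x₁ r := (hvc.mono hsub).circleIntegrable'
      have havg : circleAverage v x₁ r = circleAverage u x₁ r - (P x₁).re - ε / 2
          + δ * (‖x₁ - c‖ ^ 2 + r ^ 2) - δ * R ^ 2 := by
        have cP : CircleIntegrable (fun y => (-1 : ℝ) * (P y).re) x₁ r := by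
          apply Continuous.continuousOn _ |>.circleIntegrable'
          fun_prop
        have cN : CircleIntegrable (fun y : ℂ => δ * ‖y - c‖ ^ 2) x₁ r := by
          apply Continuous.continuousOn _ |>.circleIntegrable'
          fun_prop
        have cC : CircleIntegrable (fun _ : ℂ => (- ε / 2 - δ * R ^ 2)) x₁ r :=
          continuous_const.continuousOn.circleIntegrable'
        have e1 : v = fun y => u y + ((-1 : ℝ) * (P y).re + (δ * ‖y - c‖ ^ 2
          + (- ε / 2 - δ * R ^ 2))) := by
          funext y
          simp only [v]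
          ring
        have a1 : circleAverage (fun y => (-1 : ℝ) * (P y).re) x₁ r = (-1 : ℝ) * (P x₁).re := by
          have := circleAverage_fun_smul (c := x₁) (R := r) (f := fun y => (P y).re) (a := (-1 : ℝ))
          simp only [smul_eq_mul] at this
          rw [this, hPavg]
        have a2 : circleAverage (fun y => δ * ‖y - c‖ ^ 2) x₁ r = δ * (‖x₁ - c‖ ^ 2 + r ^ 2) := by
          have := circleAverage_fun_smul (c := x₁) (R := r) (f := fun y : ℂ => ‖y - c‖ ^ 2) (a := δ)
          simp only [smul_eq_mul] at this
          rw [this, avg_normSq]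
        have a3 := circleAverage_fun_add (f₁ := fun y => δ * ‖y - c‖ ^ 2)
          (f₂ := fun _ => (- ε / 2 - δ * R ^ 2)) cN cC
        have a4 := circleAverage_fun_add (f₁ := fun y => (-1 : ℝ) * (P y).re)
          (f₂ := fun y => δ * ‖y - c‖ ^ 2 + (- ε / 2 - δ * R ^ 2)) cP (cN.add cC)
        have a5 := circleAverage_fun_add (f₁ := u)
          (f₂ := fun y => (-1 : ℝ) * (P y).re + (δ * ‖y - c‖ ^ 2 + (- ε / 2 - δ * R ^ 2))) hI1 (cP.add (cN.add cC))
        rw [e1, a5, a4, a3, a1, a2, circleAverage_const]
        ring
      have hle : circleAverage v x₁ r ≤ v x₁ :=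
        circleAverage_mono_on_of_le_circle hvI (fun y hy => hmax (hsub hy))
      rw [havg] at hle
      simp only [v] at hle
      have : 0 < δ * r ^ 2 := by positivity
      nlinarith
    have h0 : v c ≤ v x₁ := hmax (mem_closedBall_self hR.le)
    have h1 : v c = u c - (P c).re - ε / 2 - δ * R ^ 2 := by
      simp [v]
    linarith
  have hkey2 : u c - (P c).re - ε / 2 ≤ 0 := by
    by_contra hcon
    push Not at hcon
    have := hkey ((u c - (P c).re - ε / 2) / (2 * R ^ 2)) (by positivity)
    have h2 : (u c - (P c).re - ε / 2) / (2 * R ^ 2) * R ^ 2 = (u c - (P c).re - ε / 2) / 2 := by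
      field_simp
    rw [h2] at this
    linarith
  have huI : CircleIntegrable u c R := by
    apply ContinuousOn.circleIntegrable'
    rw [abs_of_pos hR]; exact hu.mono hsph
  have hPI : CircleIntegrable (fun y => (P y).re) c R := hPre.continuousOn.circleIntegrable'
  have h3 : circleAverage (fun y => (P y).re) c R ≤ circleAverage (fun y => u y + ε / 2) c R := by
    apply circleAverage_mono hPI
    · exact huI.add (continuous_const.continuousOn.circleIntegrable')
    · intro y hy
      rw [abs_of_pos hR] at hy
      have := abs_le.1 (hclose y hy)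
      linarith
  rw [hPavg, circleAverage_fun_add huI (continuous_const.continuousOn.circleIntegrable'), circleAverage_const] at h3
  linarith

end Pool.Agent.H32R3.AD
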