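import Mathlib
import Pool.Agent.H32R3.AD.Defs
import Pool.Agent.H32R3.AD.LG

set_option maxHeartbeats 4000000

namespace Pool.Agent.H32R3.AD

open MeasureTheory Filter Topology Set Metric Real
open scoped ENNReal

/-- continuous superharmonic functions with values in [0,1], tending to 1 at F. -/
structure Good (Ω F : Set ℂ) (s : ℂ → ℝ) : Prop where
  cont : ContinuousOn s Ω
  nonneg : ∀ x ∈ Ω, 0 ≤ s x
  le_one : ∀ x ∈ Ω, s x ≤ 1
  mean : ∀ x ∈ Ω, ∃ ρ > 0, ∀ r, 0 < r → r < ρ → circleAverage s x r ≤ s x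
  bdry : ∀ ζ ∈ F, Tendsto s (𝓝[Ω] ζ) (𝓝 1)

/-- continuous subharmonic functions with values in [0,1]. -/
structure Sub (Ω : Set ℂ) (v : ℂ → ℝ) : Prop where
  cont : ContinuousOn v Ω
  nonneg : ∀ x ∈ Ω, 0 ≤ v x
  le_one : ∀ x ∈ Ω, v x ≤ 1
  mean : ∀ x ∈ Ω, ∃ ρ > 0, ∀ r, 0 < r → r < ρ → v x ≤ circleAverage v x r

theorem exists_ball_sub {Ω : Set ℂ} (hΩ : IsOpen Ω) {x : ℂ} (hx : x ∈ Ω) :
    ∃ ρ > 0, closedBall x ρ ⊆ Ω := Metric.nhds_basis_closedBall.mem_iff.1 (hΩ.mem_nhds hx)

theorem circInt {Ω : Set ℂ} {s : ℂ → ℝ} (hs : ContinuousOn s Ω) {x : ℂ} {r : ℝ} (hr : 0 < r)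
    (h : closedBall x r ⊆ Ω) : CircleIntegrable s x r := by
  apply ContinuousOn.circleIntegrable'
  rw [abs_of_pos hr]
  exact hs.mono (sphere_subset_closedBall.trans h)

open Classical in
/-- pasting step -/
theorem step {Ω F V : Set ℂ} (hΩ : IsOpen Ω) {s v : ℂ → ℝ} {κ c₀ : ℝ} (hκ : 0 < κ) (hκ1 : κ ≤ 1)
    (hs : Good Ω F s) (hv : Sub Ω v) (hV : IsOpen V) (hFV : F ⊆ V)
    (hfr : ∀ x ∈ frontier V, x ∈ Ω → c₀ ≤ v x)
    (hVs : ∀ x ∈ closure V, x ∈ Ω → 1 - c₀ < κ * s x)
    (hv0 : ∀ ζ ∈ F, Tendsto v (𝓝[Ω] ζ) (𝓝 0)) :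
    Good Ω F (fun x => if x ∈ V then 1 - v x else min (1 - v x) (κ * s x)) := by
  set A : ℂ → ℝ := fun x => 1 - v x with hA
  set t : ℂ → ℝ := fun x => if x ∈ V then A x else min (A x) (κ * s x) with ht
  have hAc : ContinuousOn A Ω := continuousOn_const.sub hv.cont
  have hsc : ContinuousOn (fun x => κ * s x) Ω := continuousOn_const.mul hs.cont
  have htA : ∀ x, t x ≤ A x := by
    intro x
    simp only [ht]
    split_ifs
    · exact le_rfl
    · exact min_le_left _ _
  have hev : ∀ x ∈ closure V, x ∈ Ω → ∀ᶠ y in 𝓝 x, t y = A y := by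
    intro x hxV hx
    by_cases hxV' : x ∈ V
    · filter_upwards [hV.mem_nhds hxV'] with y hy
      simp only [ht, if_pos hy]
    · have hxf : x ∈ frontier V := by
        rw [hV.frontier_eq]; exact ⟨hxV, hxV'⟩
      have h1 : A x < κ * s x := by
        have := hfr x hxf hx
        have := hVs x hxV hx
        simp only [hA]; linarith
      have h2 : ∀ᶠ y in 𝓝 x, A y < κ * s y := by
        have c1 := (hAc.continuousAt (hΩ.mem_nhds hx))
        have c2 := (hsc.continuousAt (hΩ.mem_nhds hx))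
        exact c1.eventually_lt c2 h1
      filter_upwards [h2] with y hy
      simp only [ht]
      split_ifs
      · rfl
      · exact min_eq_left hy.le
  have htc : ContinuousOn t Ω := by
    intro x hx
    apply ContinuousAt.continuousWithinAt
    by_cases hxV : x ∈ closure V
    · exact (hAc.continuousAt (hΩ.mem_nhds hx)).congr (by
        filter_upwards [hev x hxV hx] with y hy using hy.symm)
    · have h1 : ∀ᶠ y in 𝓝 x, t y = min (A y) (κ * s y) := by
        filter_upwards [isClosed_closure.isOpen_compl.mem_nhds hxV] with y hy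
        have : y ∉ V := fun h => hy (subset_closure h)
        simp only [ht, if_neg this]
      have c1 := (hAc.continuousAt (hΩ.mem_nhds hx))
      have c2 := (hsc.continuousAt (hΩ.mem_nhds hx))
      exact ContinuousAt.congr (c1.min c2) (by filter_upwards [h1] with y hy using hy.symm)
  refine ⟨htc, ?_, ?_, ?_, ?_⟩
  · intro x hx
    have h1 : 0 ≤ A x := by have := hv.le_one x hx; simp only [hA]; linarith
    have h2 : 0 ≤ κ * s x := mul_nonneg hκ.le (hs.nonneg x hx)
    show 0 ≤ t x
    simp only [ht]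
    split_ifs
    · exact h1
    · exact le_min h1 h2
  · intro x hx
    have h1 : A x ≤ 1 := by have := hv.nonneg x hx; simp only [hA]; linarith
    exact (htA x).trans h1
  · intro x hx
    obtain ⟨ρ₁, hρ₁, hb⟩ := exists_ball_sub hΩ hx
    obtain ⟨ρ₂, hρ₂, hm⟩ := hv.mean x hx
    obtain ⟨ρ₃, hρ₃, hm'⟩ := hs.mean x hx
    show ∃ ρ > 0, ∀ r, 0 < r → r < ρ → circleAverage t x r ≤ t x
    have hcase : t x = A x ∨ (x ∉ closure V ∧ t x = κ * s x) := by
      by_cases hxV : x ∈ closure V
      · left; exact (hev x hxV hx).self_of_nhds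
      · have : x ∉ V := fun h => hxV (subset_closure h)
        have h1 : t x = min (A x) (κ * s x) := by simp only [ht, if_neg this]
        rcases min_choice (A x) (κ * s x) with h | h
        · left; rw [h1, h]
        · right; exact ⟨hxV, by rw [h1, h]⟩
    rcases hcase with h | ⟨hxV, h⟩
    · refine ⟨min ρ₁ ρ₂, lt_min hρ₁ hρ₂, fun r hr hr' => ?_⟩
      have hsub : closedBall x r ⊆ Ω := (closedBall_subset_closedBall (hr'.le.trans (min_le_left _ _))).trans hb
      have h1 : circleAverage t x r ≤ circleAverage A x r :=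
        circleAverage_mono (circInt htc hr hsub) (circInt hAc hr hsub) (fun y _ => htA y)
      have h2 : circleAverage A x r = 1 - circleAverage v x r := by
        have := circleAverage_fun_sub (c := x) (R := r) (f₁ := fun _ => (1 : ℝ)) (f₂ := v)
          (continuous_const.continuousOn.circleIntegrable') (circInt hv.cont hr hsub)
        rw [circleAverage_const] at this
        exact this
      have h3 := hm r hr (hr'.trans_le (min_le_right _ _))
      rw [h]
      simp only [hA] at *
      linarith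
    · obtain ⟨ρ₄, hρ₄, hb4⟩ : ∃ ρ > 0, closedBall x ρ ⊆ (closure V)ᶜ :=
        exists_ball_sub isClosed_closure.isOpen_compl hxV
      refine ⟨min (min ρ₁ ρ₃) ρ₄, lt_min (lt_min hρ₁ hρ₃) hρ₄, fun r hr hr' => ?_⟩
      have hr1 : r ≤ ρ₁ := hr'.le.trans ((min_le_left _ _).trans (min_le_left _ _))
      have hr3 : r < ρ₃ := hr'.trans_le ((min_le_left _ _).trans (min_le_right _ _))
      have hr4 : r ≤ ρ₄ := hr'.le.trans (min_le_right _ _)
      have hsub : closedBall x r ⊆ Ω := (closedBall_subset_closedBall hr1).trans hb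
      have h1 : circleAverage t x r ≤ circleAverage (fun y => κ * s y) x r := by
        refine circleAverage_mono (circInt htc hr hsub) (circInt hsc hr hsub) (fun y hy => ?_)
        rw [abs_of_pos hr] at hy
        have hy2 : y ∉ V := fun h => (hb4 ((closedBall_subset_closedBall hr4) (sphere_subset_closedBall hy)))
          (subset_closure h)
        simp only [ht, if_neg hy2]
        exact min_le_right _ _
      have h2 : circleAverage (fun y => κ * s y) x r = κ * circleAverage s x r := by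
        have := circleAverage_fun_smul (c := x) (R := r) (f := s) (a := κ)
        simpa only [smul_eq_mul] using this
      have h3 := hm' r hr hr3
      rw [h]
      rw [h2] at h1
      exact h1.trans (mul_le_mul_of_nonneg_left h3 hκ.le)
  · intro ζ hζ
    have h1 : ∀ᶠ y in 𝓝[Ω] ζ, A y = t y := by
      filter_upwards [mem_nhdsWithin_of_mem_nhds (hV.mem_nhds (hFV hζ))] with y hy
      simp only [ht, if_pos hy]
    have h2 : Tendsto A (𝓝[Ω] ζ) (𝓝 1) := by
      have := (tendsto_const_nhds (x := (1 : ℝ))).sub (hv0 ζ hζ)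
      simpa using this
    exact h2.congr' h1

/-- the iteration: uniform escape makes the compact set null. -/
theorem iterate {Ω F : Set ℂ} (hΩ : IsOpen Ω) (hF : IsCompact F) (hFΩ : Disjoint F Ω)
    {c₀ : ℝ} (hc : 0 < c₀) (hc1 : c₀ < 1)
    (H : ∀ η > 0, ∃ V : Set ℂ, ∃ v : ℂ → ℝ, IsOpen V ∧ F ⊆ V ∧ closure V ⊆ thickening η F ∧
      Sub Ω v ∧ (∀ x ∈ frontier V, x ∈ Ω → c₀ ≤ v x) ∧ ∀ ζ ∈ F, Tendsto v (𝓝[Ω] ζ) (𝓝 0))
    {z₀ : ℂ} (hz : z₀ ∈ Ω) (n : ℕ) :
    ∃ s, Good Ω F s ∧ s z₀ ≤ ((1 - c₀) / (1 - c₀ / 2)) ^ n := by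
  have hd : 0 < 1 - c₀ / 2 := by linarith
  have hκ : 0 < (1 - c₀) / (1 - c₀ / 2) := by
    apply div_pos (by linarith) hd
  have hκ1 : (1 - c₀) / (1 - c₀ / 2) ≤ 1 := by
    rw [div_le_one hd]; linarith
  induction n with
  | zero =>
    refine ⟨fun _ => 1, ⟨continuousOn_const, fun _ _ => zero_le_one, fun _ _ => le_rfl, ?_, ?_⟩, by simp⟩
    · intro x hx
      exact ⟨1, one_pos, fun r _ _ => (circleAverage_const 1 x r).le⟩
    · intro ζ _; exact tendsto_const_nhds
  | succ n ih =>
    obtain ⟨s, hs, hsz⟩ := ih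
    -- s > 1 - c₀/2 near F
    have h1 : ∃ U : Set ℂ, IsOpen U ∧ F ⊆ U ∧ ∀ x ∈ U, x ∈ Ω → 1 - c₀ / 2 < s x := by
      refine ⟨interior {x | x ∈ Ω → 1 - c₀ / 2 < s x}, isOpen_interior, ?_, ?_⟩
      · intro ζ hζ
        rw [mem_interior_iff_mem_nhds]
        have := (hs.bdry ζ hζ).eventually (lt_mem_nhds (show 1 - c₀ / 2 < 1 by linarith))
        rw [eventually_nhdsWithin_iff] at this
        exact this
      · intro x hx
        exact interior_subset hx
    obtain ⟨U, hU, hFU, hUs⟩ := h1
    obtain ⟨η₁, hη₁, hth⟩ := hF.exists_thickening_subset_open hU hFU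
    obtain ⟨η₂, hη₂, hth2⟩ := hF.exists_thickening_subset_open (t := {z₀}ᶜ) isOpen_compl_singleton (by
      intro ζ hζ h
      rw [mem_singleton_iff] at h
      exact Set.disjoint_left.1 hFΩ hζ (h ▸ hz))
    obtain ⟨V, v, hV, hFV, hcl, hv, hfr, hv0⟩ := H (min η₁ η₂) (lt_min hη₁ hη₂)
    refine ⟨_, step hΩ hκ hκ1 hs hv hV hFV hfr ?_ hv0, ?_⟩
    · intro x hx hxΩ
      have h2 : x ∈ U := hth (thickening_mono (min_le_left _ _) _ (hcl hx))
      have h3 := hUs x h2 hxΩ
      rw [div_mul_eq_mul_div, lt_div_iff₀ hd]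
      have : 0 < 1 - c₀ := by linarith
      nlinarith
    · have h2 : z₀ ∉ V := by
        intro h
        exact hth2 (thickening_mono (min_le_right _ _) _ (hcl (subset_closure h))) rfl
      simp only [if_neg h2]
      refine (min_le_right _ _).trans ?_
      rw [pow_succ, mul_comm (_ ^ n)]
      exact mul_le_mul_of_nonneg_left hsz hκ.le

/-- A Good function is a nonnegative superharmonic function in the sense of the definition. -/
theorem Good.super {Ω F : Set ℂ} {s : ℂ → ℝ} (hs : Good Ω F s) :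
    NonnegSuperharmonicOn Ω (fun x => ENNReal.ofReal (s x)) := by
  constructor
  · apply ContinuousOn.lowerSemicontinuousOn
    exact ENNReal.continuous_ofReal.comp_continuousOn hs.cont
  · intro z r hr hB
    have hsph : ∀ θ, circleMap z r θ ∈ Ω := fun θ =>
      hB (sphere_subset_closedBall (circleMap_mem_sphere z hr.le θ))
    have hcont : Continuous (fun θ => s (circleMap z r θ)) :=
      hs.cont.comp_continuous (continuous_circleMap z r) hsph
    have hmean : circleAverage s z r ≤ s z := by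
      have h1 := local_to_global (Ω := Ω) (fun x => - s x) hs.cont.neg (by
        intro x hx
        obtain ⟨ρ, hρ, h⟩ := hs.mean x hx
        refine ⟨ρ, hρ, fun r' hr' hr'' => ?_⟩
        have h2 := h r' hr' hr''
        have h3 : circleAverage (fun x => - s x) x r' = - circleAverage s x r' := by
          have := circleAverage_fun_smul (c := x) (R := r') (f := s) (a := (-1 : ℝ))
          simpa using this
        rw [h3]; linarith) z r hr hB
      have h3 : circleAverage (fun x => - s x) z r = - circleAverage s z r := by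
        have := circleAverage_fun_smul (c := z) (R := r) (f := s) (a := (-1 : ℝ))
        simpa using this
      rw [h3] at h1; linarith
    rw [← ofReal_integral_eq_lintegral_ofReal]
    · rw [← ENNReal.ofReal_mul (by positivity)]
      apply ENNReal.ofReal_le_ofReal
      rw [circleAverage_def, intervalIntegral.integral_of_le (by positivity), smul_eq_mul,
        inv_mul_le_iff₀ (by positivity)] at hmean
      exact hmean
    · exact (hcont.intervalIntegrable 0 (2 * π)).1
    · exact ae_of_all _ (fun θ => hs.nonneg _ (hsph θ))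

/-- countable unions of null sets are null. -/
theorem harmonicNull_iUnion {Ω : Set ℂ} {N : ℕ → Set ℂ}
    (h : ∀ n, ∀ z₀ ∈ Ω, ∀ ε : ℝ, 0 < ε → ∃ s, Good Ω (N n) s ∧ s z₀ ≤ ε) :
    HarmonicNull Ω (⋃ n, N n) := by
  intro z₀ hz ε hε
  obtain ⟨δ, hδ, hδsum⟩ := ENNReal.exists_pos_sum_of_countable hε.ne' ℕ
  have hch : ∀ n, ∃ s, Good Ω (N n) s ∧ s z₀ ≤ (δ n : ℝ) := fun n => h n z₀ hz (δ n) (by exact_mod_cast hδ n)
  choose s hs hsz using hch
  refine ⟨fun x => ∑' n, ENNReal.ofReal (s n x), ⟨?_, ?_⟩, ?_, ?_⟩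
  · exact lowerSemicontinuousOn_tsum (fun n => (hs n).super.1)
  · intro z r hr hB
    have hsph : ∀ θ, circleMap z r θ ∈ Ω := fun θ =>
      hB (sphere_subset_closedBall (circleMap_mem_sphere z hr.le θ))
    rw [lintegral_tsum, ← ENNReal.tsum_mul_left]
    · exact ENNReal.tsum_le_tsum (fun n => (hs n).super.2 z r hr hB)
    · intro n
      have hcont : Continuous (fun θ => s n (circleMap z r θ)) :=
        (hs n).cont.comp_continuous (continuous_circleMap z r) hsph
      exact (ENNReal.continuous_ofReal.comp hcont).measurable.aemeasurable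
  · refine lt_of_le_of_lt (ENNReal.tsum_le_tsum (fun n => ?_)) hδsum
    exact (ENNReal.ofReal_le_ofReal (hsz n)).trans (by simp)
  · intro ζ hζ
    obtain ⟨n, hn⟩ := mem_iUnion.1 hζ
    have h1 := (hs n).bdry ζ hn
    have h2 : Tendsto (fun x => ENNReal.ofReal (s n x)) (𝓝[Ω] ζ) (𝓝 1) := by
      have := (ENNReal.continuous_ofReal.tendsto 1).comp h1
      simpa [Function.comp_def] using this
    by_cases hbot : (𝓝[Ω] ζ) = ⊥
    · rw [hbot]; simp [liminf_bot]
    · have : (𝓝[Ω] ζ).NeBot := ⟨hbot⟩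
      rw [← h2.liminf_eq]
      refine liminf_le_liminf (Eventually.of_forall fun x => ?_)
      exact ENNReal.le_tsum n

end Pool.Agent.H32R3.AD
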