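import Mathlib
import Pool.Agent.H32R3.AD.Iter

set_option maxHeartbeats 4000000

namespace Pool.Agent.H32R3.AD

open MeasureTheory Filter Topology Set Metric Real
open scoped ENNReal

/-- continuous subharmonic functions off T, vanishing off U. -/
structure Cls (U T : Set ℂ) (v : ℂ → ℝ) : Prop where
  nonneg : ∀ x, 0 ≤ v x
  le_one : ∀ x, x ∉ T → v x ≤ 1
  zero : ∀ x, x ∉ U → v x = 0
  cont : ContinuousOn v Tᶜ
  mean : ∀ x, x ∉ T → ∃ ρ > 0, ∀ r, 0 < r → r < ρ → v x ≤ circleAverage v x r

/-- local lemma: submean property only depends on the germ. -/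
theorem mean_congr {v u : ℂ → ℝ} {x : ℂ} (h : ∀ᶠ y in 𝓝 x, v y = u y)
    (hu : ∃ ρ > 0, ∀ r, 0 < r → r < ρ → u x ≤ circleAverage u x r) :
    ∃ ρ > 0, ∀ r, 0 < r → r < ρ → v x ≤ circleAverage v x r := by
  obtain ⟨ρ, hρ, hm⟩ := hu
  obtain ⟨δ, hδ, hb⟩ := Metric.eventually_nhds_iff.1 h
  refine ⟨min ρ δ, lt_min hρ hδ, fun r hr hr' => ?_⟩
  rw [h.self_of_nhds]
  refine (hm r hr (hr'.trans_le (min_le_left _ _))).trans (le_of_eq ?_)
  apply circleAverage_congr_sphere
  intro y hy
  rw [abs_of_pos hr, mem_sphere] at hy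
  exact (hb (by rw [hy]; exact hr'.trans_le (min_le_right _ _))).symm

/-- max of two continuous local submean functions. -/
theorem mean_max {v u : ℂ → ℝ} {x : ℂ} {W : Set ℂ} (hW : IsOpen W) (hx : x ∈ W)
    (hvc : ContinuousOn v W) (huc : ContinuousOn u W)
    (hv : ∃ ρ > 0, ∀ r, 0 < r → r < ρ → v x ≤ circleAverage v x r)
    (hu : ∃ ρ > 0, ∀ r, 0 < r → r < ρ → u x ≤ circleAverage u x r) :
    ∃ ρ > 0, ∀ r, 0 < r → r < ρ → max (v x) (u x) ≤ circleAverage (fun y => max (v y) (u y)) x r := by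
  obtain ⟨ρ₁, hρ₁, h1⟩ := hv
  obtain ⟨ρ₂, hρ₂, h2⟩ := hu
  obtain ⟨ρ₃, hρ₃, hb⟩ := exists_ball_sub hW hx
  refine ⟨min (min ρ₁ ρ₂) ρ₃, lt_min (lt_min hρ₁ hρ₂) hρ₃, fun r hr hr' => ?_⟩
  have hr1 : r < ρ₁ := hr'.trans_le ((min_le_left _ _).trans (min_le_left _ _))
  have hr2 : r < ρ₂ := hr'.trans_le ((min_le_left _ _).trans (min_le_right _ _))
  have hsub : closedBall x r ⊆ W := (closedBall_subset_closedBall (hr'.le.trans (min_le_right _ _))).trans hb
  have hmc : ContinuousOn (fun y => max (v y) (u y)) W := hvc.sup huc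
  apply max_le
  · exact (h1 r hr hr1).trans (circleAverage_mono (circInt hvc hr hsub) (circInt hmc hr hsub)
      (fun y _ => le_max_left _ _))
  · exact (h2 r hr hr2).trans (circleAverage_mono (circInt huc hr hsub) (circInt hmc hr hsub)
      (fun y _ => le_max_right _ _))

theorem Cls.maxx {U T : Set ℂ} (hT : IsClosed T) {v u : ℂ → ℝ} (hv : Cls U T v) (hu : Cls U T u) :
    Cls U T (fun x => max (v x) (u x)) where
  nonneg x := le_max_of_le_left (hv.nonneg x)
  le_one x hx := max_le (hv.le_one x hx) (hu.le_one x hx)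
  zero x hx := by simp only [hv.zero x hx, hu.zero x hx, max_self]
  cont := hv.cont.sup hu.cont
  mean x hx := mean_max hT.isOpen_compl hx hv.cont hu.cont (hv.mean x hx) (hu.mean x hx)

/-- the logarithmic bump -/
noncomputable def lb (κ R : ℝ) (a x : ℂ) : ℝ := κ * max 0 (Real.log R - Real.log (dist x a))

theorem lb_cont {κ R : ℝ} {a : ℂ} : ContinuousOn (lb κ R a) {a}ᶜ := by
  unfold lb
  intro x hx
  apply ContinuousAt.continuousWithinAt
  have h0 : dist x a ≠ 0 := by
    rw [dist_ne_zero]; exact hx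
  have h1 : ContinuousAt (fun x => Real.log (dist x a)) x :=
    ContinuousAt.log (by fun_prop) h0
  exact continuousAt_const.mul (continuousAt_const.max (continuousAt_const.sub h1))

theorem lb_mean {κ R : ℝ} (hκ : 0 ≤ κ) {a x : ℂ} (hx : x ≠ a) :
    ∃ ρ > 0, ∀ r, 0 < r → r < ρ → lb κ R a x ≤ circleAverage (lb κ R a) x r := by
  have hd : 0 < dist x a := dist_pos.2 hx
  refine ⟨dist x a, hd, fun r hr hr' => ?_⟩
  have hsub : closedBall x r ⊆ ({a}ᶜ : Set ℂ) := by
    intro y hy h
    rw [mem_singleton_iff] at h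
    rw [mem_closedBall, h, dist_comm] at hy
    linarith
  have hlog : circleAverage (fun y => Real.log ‖y - a‖) x r = Real.log ‖x - a‖ := by
    apply AnalyticOnNhd.circleAverage_log_norm_of_ne_zero
    · intro u _; fun_prop
    · intro u hu
      rw [abs_of_pos hr] at hu
      exact sub_ne_zero.2 (fun h => hsub hu h)
  have hlogI : CircleIntegrable (fun y => Real.log ‖y - a‖) x r := by
    apply circInt (Ω := {a}ᶜ) _ hr hsub
    intro y hy
    apply ContinuousAt.continuousWithinAt
    apply ContinuousAt.log (by fun_prop)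
    rw [norm_ne_zero_iff, sub_ne_zero]; exact hy
  have hlbI : CircleIntegrable (lb κ R a) x r := circInt lb_cont hr hsub
  have h1 : κ * (Real.log R - Real.log (dist x a)) ≤ circleAverage (lb κ R a) x r := by
    have h2 : circleAverage (fun y => κ * (Real.log R - Real.log ‖y - a‖)) x r = κ * (Real.log R - Real.log (dist x a)) := by
      have h3 := circleAverage_fun_smul (c := x) (R := r) (f := fun y => Real.log R - Real.log ‖y - a‖) (a := κ)
      simp only [smul_eq_mul] at h3
      rw [h3]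
      have h4 := circleAverage_fun_sub (c := x) (R := r) (f₁ := fun _ => Real.log R) (f₂ := fun y => Real.log ‖y - a‖)
        (continuous_const.continuousOn.circleIntegrable') hlogI
      rw [h4, circleAverage_const, hlog, dist_eq_norm]
    rw [← h2]
    apply circleAverage_mono _ hlbI
    · intro y _
      show κ * (Real.log R - Real.log ‖y - a‖) ≤ κ * max 0 (Real.log R - Real.log (dist y a))
      rw [dist_eq_norm]
      exact mul_le_mul_of_nonneg_left (le_max_right _ _) hκ
    · exact (((continuous_const.continuousOn.circleIntegrable' : CircleIntegrable (fun _ : ℂ => Real.log R) x r).sub hlogI).const_mul κ)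
  have h0 : 0 ≤ circleAverage (lb κ R a) x r := by
    apply circleAverage_nonneg_of_nonneg
    intro y _
    exact mul_nonneg hκ (le_max_left _ _)
  show κ * max 0 (Real.log R - Real.log (dist x a)) ≤ _
  rcases max_choice 0 (Real.log R - Real.log (dist x a)) with h | h
  · rw [h, mul_zero]; exact h0
  · rw [h]; exact h1

open Classical in
/-- growing the positivity set. -/
theorem Cls.grow {U T : Set ℂ} (hT : IsClosed T) {v : ℂ → ℝ} (hv : Cls U T v) {a : ℂ}
    (haT : a ∉ T) (hpos : 0 < v a) {R : ℝ} (hR : 0 < R) (hb : ball a R ⊆ U) :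
    ∃ u, Cls U T u ∧ ∀ x ∈ ball a R, x ∉ T → 0 < u x := by
  -- lower bound near a
  have hc : ContinuousAt v a := hv.cont.continuousAt (hT.isOpen_compl.mem_nhds haT)
  have h1 : ∀ᶠ y in 𝓝 a, v a / 2 < v y ∧ y ∉ T :=
    (hc.eventually (lt_mem_nhds (show v a / 2 < v a by linarith))).and (hT.isOpen_compl.mem_nhds haT)
  obtain ⟨δ, hδ, hball⟩ := Metric.eventually_nhds_iff.1 h1
  set η : ℝ := min (δ / 4) (R / 2) with hη
  have hη0 : 0 < η := lt_min (by positivity) (by positivity)
  have hηδ : 2 * η < δ := by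
    have := min_le_left (δ / 4) (R / 2); rw [hη]; linarith
  have hηR : η < R := by
    have := min_le_right (δ / 4) (R / 2); rw [hη]; linarith
  have hlogpos : 0 < Real.log R - Real.log η := by
    have := Real.log_lt_log hη0 hηR; linarith
  set κ : ℝ := min (v a / 2) 1 / (Real.log R - Real.log η) with hκ
  have hm0 : 0 < min (v a / 2) 1 := lt_min (by positivity) one_pos
  have hκ0 : 0 < κ := div_pos hm0 hlogpos
  have hlbη : ∀ x, η ≤ dist x a → lb κ R a x ≤ min (v a / 2) 1 := by
    intro x hx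
    unfold lb
    have h2 : max 0 (Real.log R - Real.log (dist x a)) ≤ Real.log R - Real.log η := by
      apply max_le hlogpos.le
      have := Real.log_le_log hη0 hx
      linarith
    calc κ * max 0 (Real.log R - Real.log (dist x a)) ≤ κ * (Real.log R - Real.log η) := by gcongr
      _ = min (v a / 2) 1 := by rw [hκ]; field_simp
  have hlb0 : ∀ x, R ≤ dist x a → lb κ R a x = 0 := by
    intro x hx
    unfold lb
    rw [max_eq_left, mul_zero]
    have := Real.log_le_log hR hx
    linarith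
  set u : ℂ → ℝ := fun x => if dist x a < η then v x else max (v x) (lb κ R a x) with hu
  have hu1 : ∀ x, dist x a < 2 * η → u x = v x := by
    intro x hx
    simp only [hu]
    split_ifs with h
    · rfl
    · push Not at h
      apply max_eq_left
      have h3 := (hball (show dist x a < δ by linarith)).1
      exact (hlbη x h).trans ((min_le_left _ _).trans h3.le)
  have hu2 : ∀ x, η < dist x a → u x = max (v x) (lb κ R a x) := by
    intro x hx
    simp only [hu, if_neg (not_lt.2 hx.le)]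
  have hcase : ∀ x, (∀ᶠ y in 𝓝 x, u y = v y) ∨ (x ≠ a ∧ ∀ᶠ y in 𝓝 x, u y = max (v y) (lb κ R a y)) := by
    intro x
    have hdc : Continuous (fun y => dist y a) := by fun_prop
    by_cases h : dist x a < 2 * η
    · left
      filter_upwards [hdc.continuousAt.eventually (gt_mem_nhds h)] with y hy using hu1 y hy
    · right
      push Not at h
      have h3 : η < dist x a := by linarith
      refine ⟨fun h' => ?_, ?_⟩
      · rw [h', dist_self] at h3; linarith
      · filter_upwards [hdc.continuousAt.eventually (lt_mem_nhds h3)] with y hy using hu2 y hy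
  refine ⟨u, ⟨?_, ?_, ?_, ?_, ?_⟩, ?_⟩
  · intro x
    simp only [hu]
    split_ifs
    · exact hv.nonneg x
    · exact le_max_of_le_left (hv.nonneg x)
  · intro x hx
    by_cases h : dist x a < η
    · simp only [hu, if_pos h]; exact hv.le_one x hx
    · simp only [hu, if_neg h]
      exact max_le (hv.le_one x hx) ((hlbη x (not_lt.1 h)).trans (min_le_right _ _))
  · intro x hx
    have h : R ≤ dist x a := by
      by_contra hcon
      push Not at hcon
      exact hx (hb (mem_ball.2 hcon))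
    rw [hu2 x (hηR.trans_le h), hv.zero x hx, hlb0 x h, max_self]
  · intro x hx
    apply ContinuousAt.continuousWithinAt
    have hvx : ContinuousAt v x := hv.cont.continuousAt (hT.isOpen_compl.mem_nhds hx)
    rcases hcase x with h | ⟨hne, h⟩
    · exact ContinuousAt.congr hvx (by filter_upwards [h] with y hy using hy.symm)
    · have hlx : ContinuousAt (lb κ R a) x :=
        lb_cont.continuousAt (isOpen_compl_singleton.mem_nhds hne)
      exact ContinuousAt.congr (hvx.max hlx) (by filter_upwards [h] with y hy using hy.symm)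
  · intro x hx
    rcases hcase x with h | ⟨hne, h⟩
    · exact mean_congr h (hv.mean x hx)
    · refine mean_congr h ?_
      apply mean_max (W := Tᶜ ∩ {a}ᶜ) (hT.isOpen_compl.inter isOpen_compl_singleton) ⟨hx, hne⟩
        (hv.cont.mono inter_subset_left) (lb_cont.mono inter_subset_right) (hv.mean x hx) (lb_mean hκ0.le hne)
  · intro x hx hxT
    rw [mem_ball] at hx
    by_cases h : dist x a < η
    · simp only [hu, if_pos h]
      have := (hball (show dist x a < δ by linarith)).1
      linarith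
    · simp only [hu, if_neg h]
      apply lt_max_of_lt_right
      unfold lb
      apply mul_pos hκ0
      apply lt_max_of_lt_right
      have h0 : 0 < dist x a := hη0.trans_le (not_lt.1 h)
      have := Real.log_lt_log h0 hx
      linarith

/-- chain lemma. -/
theorem chain {U T : Set ℂ} (hU : IsOpen U) (hUc : IsPreconnected U) (hT : IsClosed T) (hTd : Dense Tᶜ)
    {v₀ : ℂ → ℝ} (hv₀ : Cls U T v₀) {a₀ : ℂ} (ha₀ : a₀ ∈ U) (ha₀T : a₀ ∉ T) (hpos : 0 < v₀ a₀) :
    ∀ z ∈ U, ∃ v, Cls U T v ∧ ∃ ρ > 0, ∀ x ∈ ball z ρ, x ∉ T → 0 < v x := by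
  set P : Set ℂ := {z | ∃ v, Cls U T v ∧ ∃ ρ > 0, ∀ x ∈ ball z ρ, x ∉ T → 0 < v x} with hP
  have hPo : IsOpen P := by
    rw [Metric.isOpen_iff]
    rintro z ⟨v, hv, ρ, hρ, h⟩
    refine ⟨ρ / 2, by positivity, fun y hy => ⟨v, hv, ρ / 2, by positivity, fun x hx hxT => h x ?_ hxT⟩⟩
    rw [mem_ball] at *
    have := dist_triangle x y z
    linarith
  apply hUc.subset_of_closure_inter_subset hPo
  · obtain ⟨R, hR, hb⟩ := Metric.isOpen_iff.1 hU a₀ ha₀
    obtain ⟨u, hu, hu'⟩ := hv₀.grow hT ha₀T hpos hR hb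
    exact ⟨a₀, ha₀, u, hu, R, hR, hu'⟩
  · rintro z ⟨hzc, hzU⟩
    obtain ⟨R, hR, hb⟩ := Metric.isOpen_iff.1 hU z hzU
    obtain ⟨z', hz', hd⟩ := Metric.mem_closure_iff.1 hzc (R / 4) (by positivity)
    obtain ⟨v, hv, ρ, hρ, h⟩ := hz'
    -- choose a ∉ T close to z'
    obtain ⟨a, haT, hda⟩ := hTd.exists_dist_lt z' (show 0 < min ρ (R / 4) from lt_min hρ (by positivity))
    have h1 : dist z' a < ρ := hda.trans_le (min_le_left _ _)
    have h2 : dist z' a < R / 4 := hda.trans_le (min_le_right _ _)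
    have h3 : 0 < v a := h a (by rw [mem_ball, dist_comm]; exact h1) haT
    have h4 : dist z a < R / 2 := by
      have := dist_triangle z z' a; linarith
    have hb2 : ball a (R / 2) ⊆ U := by
      intro x hx
      apply hb
      rw [mem_ball] at *
      have := dist_triangle x a z
      rw [dist_comm a z] at this
      linarith
    obtain ⟨u, hu, hu'⟩ := hv.grow hT haT h3 (by positivity) hb2
    refine ⟨u, hu, R / 2 - dist z a, by linarith, fun x hx hxT => hu' x ?_ hxT⟩
    rw [mem_ball] at *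
    have := dist_triangle x z a
    linarith

/-- a uniform lower bound on compact subsets. -/
theorem chain_compact {U T : Set ℂ} (hT : IsClosed T) {v₀ : ℂ → ℝ} (hv₀ : Cls U T v₀)
    (h : ∀ z ∈ U, ∃ v, Cls U T v ∧ ∃ ρ > 0, ∀ x ∈ ball z ρ, x ∉ T → 0 < v x)
    {Γ : Set ℂ} (hΓ : IsCompact Γ) (hΓU : Γ ⊆ U) (hΓT : Disjoint Γ T) :
    ∃ v, Cls U T v ∧ ∃ c > 0, ∀ x ∈ Γ, c ≤ v x := by
  have h1 : ∃ v, Cls U T v ∧ ∀ x ∈ Γ, 0 < v x := by
    refine hΓ.induction_on (p := fun s => ∃ v, Cls U T v ∧ ∀ x ∈ s, x ∉ T → 0 < v x) ?_ ?_ ?_ ?_ |> fun ⟨v, hv, h'⟩ =>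
      ⟨v, hv, fun x hx => h' x hx (fun hxT => Set.disjoint_left.1 hΓT hx hxT)⟩
    · exact ⟨v₀, hv₀, fun x hx => absurd hx (notMem_empty x)⟩
    · rintro s t hst ⟨v, hv, h'⟩
      exact ⟨v, hv, fun x hx => h' x (hst hx)⟩
    · rintro s t ⟨v, hv, h'⟩ ⟨u, hu, h''⟩
      refine ⟨_, hv.maxx hT hu, fun x hx hxT => ?_⟩
      rcases hx with hx | hx
      · exact lt_max_of_lt_left (h' x hx hxT)
      · exact lt_max_of_lt_right (h'' x hx hxT)
    · intro x hx
      obtain ⟨v, hv, ρ, hρ, h'⟩ := h x (hΓU hx)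
      exact ⟨ball x ρ, mem_nhdsWithin_of_mem_nhds (ball_mem_nhds x hρ), v, hv, h'⟩
  obtain ⟨v, hv, hpos⟩ := h1
  refine ⟨v, hv, ?_⟩
  rcases Γ.eq_empty_or_nonempty with he | hne
  · exact ⟨1, one_pos, fun x hx => by rw [he] at hx; exact absurd hx (notMem_empty x)⟩
  · have hc : ContinuousOn v Γ := hv.cont.mono (fun x hx hxT => Set.disjoint_left.1 hΓT hx hxT)
    obtain ⟨x₀, hx₀, hmin⟩ := hΓ.exists_isMinOn hne hc
    exact ⟨v x₀, hpos x₀ hx₀, fun x hx => hmin hx⟩

end Pool.Agent.H32R3.AD
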