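import Mathlib

set_option maxHeartbeats 4000000

namespace Pool.Agent.H32R3.AD

open MeasureTheory Filter Topology Set Metric Real
open scoped ENNReal

/-- Green function of the disc of radius R about 0, extended by zero. -/
noncomputable def gg (R : ℝ) (x y : ℂ) : ℝ :=
  (1 / 2) * Real.log (1 + (max 0 (R ^ 2 - ‖x‖ ^ 2)) * (R ^ 2 - ‖y‖ ^ 2) / (R ^ 2 * ‖x - y‖ ^ 2))

theorem gg_id (R : ℝ) (x y : ℂ) :
    ‖(R : ℂ) ^ 2 - x * (starRingEnd ℂ) y‖ ^ 2 - R ^ 2 * ‖x - y‖ ^ 2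
      = (R ^ 2 - ‖x‖ ^ 2) * (R ^ 2 - ‖y‖ ^ 2) := by
  rw [← Complex.normSq_eq_norm_sq, ← Complex.normSq_eq_norm_sq, ← Complex.normSq_eq_norm_sq,
    ← Complex.normSq_eq_norm_sq]
  simp only [Complex.normSq_apply, Complex.sub_re, Complex.sub_im, Complex.mul_re, Complex.mul_im,
    Complex.conj_re, Complex.conj_im, pow_two, Complex.ofReal_re, Complex.ofReal_im]
  ring

theorem gg_q_nonneg {R : ℝ} (x : ℂ) {y : ℂ} (hy : ‖y‖ ≤ R) :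
    0 ≤ (max 0 (R ^ 2 - ‖x‖ ^ 2)) * (R ^ 2 - ‖y‖ ^ 2) / (R ^ 2 * ‖x - y‖ ^ 2) := by
  have h1 : 0 ≤ R ^ 2 - ‖y‖ ^ 2 := by nlinarith [norm_nonneg y]
  have h2 : 0 ≤ max 0 (R ^ 2 - ‖x‖ ^ 2) := le_max_left _ _
  positivity

theorem gg_nonneg {R : ℝ} (x : ℂ) {y : ℂ} (hy : ‖y‖ ≤ R) : 0 ≤ gg R x y := by
  unfold gg
  have := Real.log_nonneg (show 1 ≤ 1 + (max 0 (R ^ 2 - ‖x‖ ^ 2)) * (R ^ 2 - ‖y‖ ^ 2) / (R ^ 2 * ‖x - y‖ ^ 2) by
    linarith [gg_q_nonneg x hy])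
  linarith

theorem gg_zero {R : ℝ} (hR : 0 ≤ R) {x : ℂ} (hx : R ≤ ‖x‖) (y : ℂ) : gg R x y = 0 := by
  unfold gg
  rw [max_eq_left (by nlinarith)]
  simp

theorem gg_eq {R : ℝ} (hR : 0 < R) {x y : ℂ} (hx : ‖x‖ ≤ R) (hxy : x ≠ y) :
    gg R x y = Real.log ‖((R : ℂ) ^ 2 - x * (starRingEnd ℂ) y) / (R * (x - y))‖ := by
  have h0 : 0 < ‖x - y‖ := norm_pos_iff.2 (sub_ne_zero.2 hxy)
  have h1 : 1 + (max 0 (R ^ 2 - ‖x‖ ^ 2)) * (R ^ 2 - ‖y‖ ^ 2) / (R ^ 2 * ‖x - y‖ ^ 2)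
      = ‖((R : ℂ) ^ 2 - x * (starRingEnd ℂ) y) / (R * (x - y))‖ ^ 2 := by
    rw [max_eq_right (by nlinarith [norm_nonneg x]), ← gg_id, norm_div, norm_mul, Complex.norm_real,
      Real.norm_of_nonneg hR.le]
    field_simp
    ring
  rw [gg, h1, Real.log_pow]
  push_cast
  ring

theorem gg_le_log {R : ℝ} (hR : 0 < R) {x y : ℂ} (hx : ‖x‖ < R) (hy : ‖y‖ ≤ R) (hxy : x ≠ y) :
    gg R x y ≤ Real.log (2 * R / ‖x - y‖) := by
  have h0 : 0 < ‖x - y‖ := norm_pos_iff.2 (sub_ne_zero.2 hxy)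
  rw [gg_eq hR hx.le hxy]
  have hnum : 0 < ‖(R : ℂ) ^ 2 - x * (starRingEnd ℂ) y‖ := by
    rw [norm_pos_iff, sub_ne_zero]
    intro h
    have := congrArg norm h
    rw [norm_pow, Complex.norm_real, norm_mul, Complex.norm_conj, Real.norm_of_nonneg hR.le] at this
    nlinarith [norm_nonneg x, norm_nonneg y]
  apply Real.log_le_log
  · rw [norm_div, norm_mul, Complex.norm_real, Real.norm_of_nonneg hR.le]
    positivity
  · rw [norm_div, norm_mul, Complex.norm_real, Real.norm_of_nonneg hR.le,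
      div_le_div_iff₀ (by positivity) h0]
    have h2 : ‖(R : ℂ) ^ 2 - x * (starRingEnd ℂ) y‖ ≤ 2 * R ^ 2 := by
      refine (norm_sub_le _ _).trans ?_
      rw [norm_pow, Complex.norm_real, norm_mul, Complex.norm_conj, Real.norm_of_nonneg hR.le]
      nlinarith [norm_nonneg x, norm_nonneg y]
    nlinarith

theorem gg_le_bound {R δ : ℝ} (hR : 0 < R) (hδ : 0 < δ) {x y : ℂ} (hy : ‖y‖ ≤ R) (hxy : δ ≤ ‖x - y‖) :
    gg R x y ≤ R ^ 2 / (2 * δ ^ 2) := by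
  unfold gg
  have hq := gg_q_nonneg x hy
  have h1 : (max 0 (R ^ 2 - ‖x‖ ^ 2)) * (R ^ 2 - ‖y‖ ^ 2) / (R ^ 2 * ‖x - y‖ ^ 2) ≤ R ^ 2 / δ ^ 2 := by
    rw [div_le_div_iff₀ (by have : 0 < ‖x - y‖ := hδ.trans_le hxy; positivity) (by positivity)]
    have h2 : max 0 (R ^ 2 - ‖x‖ ^ 2) ≤ R ^ 2 := max_le (by positivity) (by nlinarith [norm_nonneg x])
    have h3 : R ^ 2 - ‖y‖ ^ 2 ≤ R ^ 2 := by nlinarith [norm_nonneg y]
    have h3' : 0 ≤ R ^ 2 - ‖y‖ ^ 2 := by nlinarith [norm_nonneg y]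
    have h4 : δ ^ 2 ≤ ‖x - y‖ ^ 2 := by nlinarith
    have h5 : max 0 (R ^ 2 - ‖x‖ ^ 2) * (R ^ 2 - ‖y‖ ^ 2) ≤ R ^ 2 * R ^ 2 :=
      mul_le_mul h2 h3 h3' (by positivity)
    calc max 0 (R ^ 2 - ‖x‖ ^ 2) * (R ^ 2 - ‖y‖ ^ 2) * δ ^ 2
        ≤ (R ^ 2 * R ^ 2) * ‖x - y‖ ^ 2 := mul_le_mul h5 h4 (by positivity) (by positivity)
      _ = R ^ 2 * (R ^ 2 * ‖x - y‖ ^ 2) := by ring
  have h2 : Real.log (1 + (max 0 (R ^ 2 - ‖x‖ ^ 2)) * (R ^ 2 - ‖y‖ ^ 2) / (R ^ 2 * ‖x - y‖ ^ 2))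
      ≤ (max 0 (R ^ 2 - ‖x‖ ^ 2)) * (R ^ 2 - ‖y‖ ^ 2) / (R ^ 2 * ‖x - y‖ ^ 2) := by
    have := Real.log_le_sub_one_of_pos (show 0 < 1 + (max 0 (R ^ 2 - ‖x‖ ^ 2)) * (R ^ 2 - ‖y‖ ^ 2) / (R ^ 2 * ‖x - y‖ ^ 2) by linarith)
    linarith
  have h3 : R ^ 2 / (2 * δ ^ 2) = (1 / 2) * (R ^ 2 / δ ^ 2) := by field_simp
  rw [h3]
  linarith

theorem log_lip {p q : ℝ} (hp : 0 ≤ p) (hq : 0 ≤ q) :
    |Real.log (1 + p) - Real.log (1 + q)| ≤ |p - q| := by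
  wlog h : q ≤ p generalizing p q
  · rw [abs_sub_comm, abs_sub_comm p q]
    exact this hq hp (by linarith)
  have h1 : Real.log (1 + q) ≤ Real.log (1 + p) := Real.log_le_log (by linarith) (by linarith)
  rw [abs_of_nonneg (by linarith), abs_of_nonneg (by linarith), ← Real.log_div (by linarith) (by linarith)]
  have h2 := Real.log_le_sub_one_of_pos (show 0 < (1 + p) / (1 + q) by positivity)
  have h3 : (1 + p) / (1 + q) - 1 ≤ p - q := by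
    rw [div_sub_one (by linarith), div_le_iff₀ (by linarith)]
    nlinarith
  linarith

theorem maxsq_lip {R : ℝ} (hR : 0 ≤ R) (x x' : ℂ) :
    |max 0 (R ^ 2 - ‖x‖ ^ 2) - max 0 (R ^ 2 - ‖x'‖ ^ 2)| ≤ 2 * R * ‖x - x'‖ := by
  wlog h : ‖x‖ ≤ ‖x'‖ generalizing x x'
  · rw [abs_sub_comm, norm_sub_rev]
    exact this x' x (le_of_not_ge h)
  have h0 : ‖x'‖ - ‖x‖ ≤ ‖x - x'‖ := by
    rw [norm_sub_rev]; exact norm_sub_norm_le _ _
  have hx := norm_nonneg x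
  by_cases h1 : ‖x'‖ ≤ R
  · rw [max_eq_right (by nlinarith), max_eq_right (by nlinarith), abs_of_nonneg (by nlinarith)]
    nlinarith
  · push Not at h1
    by_cases h2 : ‖x‖ ≤ R
    · rw [max_eq_right (by nlinarith), max_eq_left (by nlinarith), abs_of_nonneg (by nlinarith)]
      nlinarith
    · push Not at h2
      rw [max_eq_left (by nlinarith), max_eq_left (by nlinarith)]
      simp
      positivity

theorem inv_sq_lip {a b d : ℝ} (hd : 0 < d) (ha : d ≤ a) (hb : d ≤ b) :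
    |1 / a ^ 2 - 1 / b ^ 2| ≤ 2 * |a - b| / d ^ 3 := by
  have ha0 : 0 < a := hd.trans_le ha
  have hb0 : 0 < b := hd.trans_le hb
  have h1 : 1 / a ^ 2 - 1 / b ^ 2 = (b - a) * (1 / (a ^ 2 * b) + 1 / (a * b ^ 2)) := by
    field_simp
    ring
  rw [h1, abs_mul, abs_sub_comm b a, abs_of_nonneg (show 0 ≤ 1 / (a ^ 2 * b) + 1 / (a * b ^ 2) by positivity)]
  have h2 : 1 / (a ^ 2 * b) ≤ 1 / d ^ 3 := by
    apply one_div_le_one_div_of_le (by positivity)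
    calc d ^ 3 = d ^ 2 * d := by ring
      _ ≤ a ^ 2 * b := by gcongr
  have h3 : 1 / (a * b ^ 2) ≤ 1 / d ^ 3 := by
    apply one_div_le_one_div_of_le (by positivity)
    calc d ^ 3 = d * d ^ 2 := by ring
      _ ≤ a * b ^ 2 := by gcongr
  calc |a - b| * (1 / (a ^ 2 * b) + 1 / (a * b ^ 2)) ≤ |a - b| * (1 / d ^ 3 + 1 / d ^ 3) := by gcongr
    _ = 2 * |a - b| / d ^ 3 := by ring

theorem gg_lip {R d : ℝ} (hR : 0 < R) (hd : 0 < d) {x x' y : ℂ} (hy : ‖y‖ ≤ R)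
    (hx : d ≤ ‖x - y‖) (hx' : d ≤ ‖x' - y‖) :
    |gg R x y - gg R x' y| ≤ (R / d ^ 2 + R ^ 2 / d ^ 3) * ‖x - x'‖ := by
  have hq := gg_q_nonneg (R := R) x hy
  have hq' := gg_q_nonneg (R := R) x' hy
  have h1 := log_lip hq hq'
  have h2 : gg R x y - gg R x' y = (1 / 2) * (Real.log (1 + (max 0 (R ^ 2 - ‖x‖ ^ 2)) * (R ^ 2 - ‖y‖ ^ 2) / (R ^ 2 * ‖x - y‖ ^ 2))
    - Real.log (1 + (max 0 (R ^ 2 - ‖x'‖ ^ 2)) * (R ^ 2 - ‖y‖ ^ 2) / (R ^ 2 * ‖x' - y‖ ^ 2))) := by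
    unfold gg; ring
  rw [h2, abs_mul, abs_of_pos (by norm_num : (0 : ℝ) < 1 / 2)]
  set M := max 0 (R ^ 2 - ‖x‖ ^ 2) with hM
  set M' := max 0 (R ^ 2 - ‖x'‖ ^ 2) with hM'
  have hMM := maxsq_lip hR.le x x'
  rw [← hM, ← hM'] at hMM
  have hM'0 : 0 ≤ M' := le_max_left _ _
  have hM'R : M' ≤ R ^ 2 := max_le (by positivity) (by nlinarith [norm_nonneg x'])
  have hc0 : 0 ≤ (R ^ 2 - ‖y‖ ^ 2) / R ^ 2 := by
    apply div_nonneg _ (by positivity); nlinarith [norm_nonneg y]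
  have hc1 : (R ^ 2 - ‖y‖ ^ 2) / R ^ 2 ≤ 1 := by
    rw [div_le_one (by positivity)]; nlinarith [norm_nonneg y]
  have ha : 0 < ‖x - y‖ := hd.trans_le hx
  have hb : 0 < ‖x' - y‖ := hd.trans_le hx'
  have h3 : M * (R ^ 2 - ‖y‖ ^ 2) / (R ^ 2 * ‖x - y‖ ^ 2) - M' * (R ^ 2 - ‖y‖ ^ 2) / (R ^ 2 * ‖x' - y‖ ^ 2)
      = ((R ^ 2 - ‖y‖ ^ 2) / R ^ 2) * ((M - M') * (1 / ‖x - y‖ ^ 2) + M' * (1 / ‖x - y‖ ^ 2 - 1 / ‖x' - y‖ ^ 2)) := by
    field_simp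
    ring
  have h4 : |(M - M') * (1 / ‖x - y‖ ^ 2) + M' * (1 / ‖x - y‖ ^ 2 - 1 / ‖x' - y‖ ^ 2)|
      ≤ (2 * R * ‖x - x'‖) * (1 / d ^ 2) + R ^ 2 * (2 * ‖x - x'‖ / d ^ 3) := by
    refine (abs_add_le _ _).trans (add_le_add ?_ ?_)
    · rw [abs_mul, abs_of_pos (show 0 < 1 / ‖x - y‖ ^ 2 by positivity)]
      have : 1 / ‖x - y‖ ^ 2 ≤ 1 / d ^ 2 := by
        apply one_div_le_one_div_of_le (by positivity); gcongr
      gcongr
    · rw [abs_mul, abs_of_nonneg hM'0]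
      have h5 := inv_sq_lip hd hx hx'
      have h6 : |‖x - y‖ - ‖x' - y‖| ≤ ‖x - x'‖ := by
        have := abs_norm_sub_norm_le (x - y) (x' - y)
        rwa [show x - y - (x' - y) = x - x' by ring] at this
      have h7 : 2 * |‖x - y‖ - ‖x' - y‖| / d ^ 3 ≤ 2 * ‖x - x'‖ / d ^ 3 := by gcongr
      exact mul_le_mul hM'R (h5.trans h7) (abs_nonneg _) (by positivity)
  have h5 : |M * (R ^ 2 - ‖y‖ ^ 2) / (R ^ 2 * ‖x - y‖ ^ 2) - M' * (R ^ 2 - ‖y‖ ^ 2) / (R ^ 2 * ‖x' - y‖ ^ 2)|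
      ≤ 1 * ((2 * R * ‖x - x'‖) * (1 / d ^ 2) + R ^ 2 * (2 * ‖x - x'‖ / d ^ 3)) := by
    rw [h3, abs_mul, abs_of_nonneg hc0]
    exact mul_le_mul hc1 h4 (abs_nonneg _) zero_le_one
  calc 1 / 2 * _ ≤ 1 / 2 * (1 * ((2 * R * ‖x - x'‖) * (1 / d ^ 2) + R ^ 2 * (2 * ‖x - x'‖ / d ^ 3))) := by
        gcongr
        exact h1.trans h5
    _ = (R / d ^ 2 + R ^ 2 / d ^ 3) * ‖x - x'‖ := by ring

theorem gg_mean {R : ℝ} (hR : 0 < R) {x y : ℂ} {r : ℝ} (hr : 0 < r) (h1 : ‖x‖ + r < R)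
    (h2 : r < ‖x - y‖) (hy : ‖y‖ ≤ R) : circleAverage (fun x' => gg R x' y) x r = gg R x y := by
  have hxne : x ≠ y := by
    intro h; rw [h, sub_self, norm_zero] at h2; linarith
  have key : ∀ u ∈ closedBall x |r|, u ≠ y ∧ ‖u‖ < R := by
    intro u hu
    rw [abs_of_pos hr, mem_closedBall, dist_eq_norm] at hu
    constructor
    · intro h
      rw [h, norm_sub_rev] at hu; linarith
    · have : ‖u‖ ≤ ‖x‖ + ‖u - x‖ := by
        have := norm_add_le x (u - x)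
        rwa [show x + (u - x) = u by ring] at this
      linarith
  have hnum : ∀ u : ℂ, ‖u‖ < R → (R : ℂ) ^ 2 - u * (starRingEnd ℂ) y ≠ 0 := by
    intro u hu
    rw [sub_ne_zero]
    intro h
    have := congrArg norm h
    rw [norm_pow, Complex.norm_real, norm_mul, Complex.norm_conj, Real.norm_of_nonneg hR.le] at this
    nlinarith [norm_nonneg u, norm_nonneg y]
  have hR' : (R : ℂ) ≠ 0 := by exact_mod_cast hR.ne'
  rw [gg_eq hR (by linarith) hxne]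
  rw [← AnalyticOnNhd.circleAverage_log_norm_of_ne_zero (R := r) (c := x)
    (g := fun u => ((R : ℂ) ^ 2 - u * (starRingEnd ℂ) y) / (R * (u - y)))]
  · apply circleAverage_congr_sphere
    intro u hu
    have hu' := key u (sphere_subset_closedBall hu)
    exact gg_eq hR hu'.2.le hu'.1
  · intro u hu
    have hu' := key u hu
    apply AnalyticAt.div (by fun_prop) (by fun_prop)
    exact mul_ne_zero hR' (sub_ne_zero.2 hu'.1)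
  · intro u hu
    have hu' := key u hu
    exact div_ne_zero (hnum u hu'.2) (mul_ne_zero hR' (sub_ne_zero.2 hu'.1))

theorem gg_center {R ρ : ℝ} (hρ : 0 < ρ) (hR : ρ ≤ R) {y : ℂ} (hy : ‖y‖ ≤ ρ) (hy0 : y ≠ 0) :
    Real.log (R / ρ) ≤ gg R 0 y := by
  have hRp : 0 < R := hρ.trans_le hR
  rw [gg_eq hRp (by simpa using hRp.le) hy0.symm]
  have hyp : 0 < ‖y‖ := norm_pos_iff.2 hy0
  apply Real.log_le_log (by positivity)
  rw [norm_div, norm_mul, Complex.norm_real, Real.norm_of_nonneg hRp.le]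
  simp only [zero_mul, sub_zero, norm_pow, Complex.norm_real, Real.norm_of_nonneg hRp.le, zero_sub, norm_neg]
  rw [div_le_div_iff₀ hρ (by positivity)]
  nlinarith [mul_pos hRp hRp]

theorem measurable_gg (R : ℝ) : Measurable (fun p : ℂ × ℂ => gg R p.1 p.2) := by
  unfold gg
  fun_prop

end Pool.Agent.H32R3.AD
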