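import Mathlib

set_option maxHeartbeats 4000000

namespace Pool.Agent.H32R3.AD

open MeasureTheory Filter Topology Set Metric Real
open scoped ENNReal

/-- measurable section of the distance map on a compact set. -/
theorem exists_selection {P : Set ℂ} (hP : IsCompact P) (hne : P.Nonempty) (z : ℂ) :
    ∃ y : ℝ → ℂ, Measurable y ∧ (∀ t, y t ∈ P) ∧
      ∀ t ∈ (fun k => dist k z) '' P, dist (y t) z = t := by
  classical
  obtain ⟨y₀, hy₀⟩ := hne
  set T := (fun k => dist k z) '' P with hT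
  have hTc : IsCompact T := hP.image (by fun_prop)
  let A : ℝ → Set ℝ := fun t => {φ | φ ∈ Icc (-π) π ∧ circleMap z t φ ∈ P}
  have hA : ∀ t ∈ T, (A t).Nonempty := by
    rintro t ⟨k, hk, rfl⟩
    refine ⟨(k - z).arg, ⟨(Complex.neg_pi_lt_arg _).le, Complex.arg_le_pi _⟩, ?_⟩
    have h2 : circleMap z (dist k z) (k - z).arg = k := by
      rw [circleMap, dist_eq_norm, Complex.norm_mul_exp_arg_mul_I]; ring
    show circleMap z (dist k z) (k - z).arg ∈ P
    rw [h2]; exact hk
  have hAc : ∀ t, IsCompact (A t) := by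
    intro t
    have : A t = Icc (-π) π ∩ (circleMap z t) ⁻¹' P := rfl
    rw [this]
    exact isCompact_Icc.inter_right (hP.isClosed.preimage (continuous_circleMap z t))
  let φ : ℝ → ℝ := fun t => sInf (A t)
  have hφ : ∀ t ∈ T, φ t ∈ A t := fun t ht => (hAc t).sInf_mem (hA t ht)
  have hcm : Continuous (fun p : ℝ × ℝ => circleMap z p.1 p.2) := by
    unfold circleMap; fun_prop
  -- measurability on T
  have hclosed : ∀ c : ℝ, IsClosed {t | t ∈ T ∧ φ t ≤ c} := by
    intro c
    have h1 : {t | t ∈ T ∧ φ t ≤ c} = T ∩ Prod.fst '' ((T ×ˢ (Icc (-π) (min c π))) ∩ (fun p : ℝ × ℝ => circleMap z p.1 p.2) ⁻¹' P) := by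
      ext t
      constructor
      · rintro ⟨ht, hc⟩
        refine ⟨ht, ⟨(t, φ t), ⟨⟨ht, ?_⟩, (hφ t ht).2⟩, rfl⟩⟩
        exact ⟨(hφ t ht).1.1, le_min hc (hφ t ht).1.2⟩
      · rintro ⟨ht, ⟨⟨t', ψ⟩, ⟨⟨ht', hψ⟩, hP'⟩, rfl⟩⟩
        refine ⟨ht, ?_⟩
        have hmem : ψ ∈ A t' := ⟨⟨hψ.1, hψ.2.trans (min_le_right _ _)⟩, hP'⟩
        have : φ t' ≤ ψ := csInf_le (hAc t').bddBelow hmem
        exact this.trans (hψ.2.trans (min_le_left _ _))
    rw [h1]
    refine hTc.isClosed.inter ?_
    refine IsCompact.isClosed ?_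
    refine IsCompact.image ?_ continuous_fst
    exact (hTc.prod isCompact_Icc).inter_right (hP.isClosed.preimage hcm)
  let ψ : ℝ → ℝ := fun t => if t ∈ T then φ t else 0
  have hψ : Measurable ψ := by
    apply measurable_of_Iic
    intro c
    by_cases hc : 0 ≤ c
    · have : ψ ⁻¹' Iic c = {t | t ∈ T ∧ φ t ≤ c} ∪ Tᶜ := by
        ext t
        simp only [mem_preimage, mem_Iic, mem_union, mem_setOf_eq, mem_compl_iff, ψ]
        by_cases ht : t ∈ T
        · simp [ht]
        · simp [ht, hc]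
      rw [this]
      exact (hclosed c).measurableSet.union hTc.isClosed.measurableSet.compl
    · have : ψ ⁻¹' Iic c = {t | t ∈ T ∧ φ t ≤ c} := by
        ext t
        simp only [mem_preimage, mem_Iic, mem_setOf_eq, ψ]
        by_cases ht : t ∈ T
        · simp [ht]
        · simp [ht, hc]
      rw [this]
      exact (hclosed c).measurableSet
  refine ⟨fun t => if t ∈ T then circleMap z t (ψ t) else y₀, ?_, ?_, ?_⟩
  · refine Measurable.ite hTc.isClosed.measurableSet ?_ measurable_const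
    exact hcm.measurable.comp (measurable_id.prodMk hψ)
  · intro t
    by_cases ht : t ∈ T
    · simp only [if_pos ht, ψ]
      exact (hφ t ht).2
    · simp only [if_neg ht]; exact hy₀
  · intro t ht
    simp only [if_pos ht]
    rw [dist_eq_norm]
    simp only [circleMap, add_sub_cancel_left, norm_mul, Complex.norm_real, Complex.norm_exp_ofReal_mul_I, mul_one]
    rw [Real.norm_of_nonneg]
    obtain ⟨k, _, rfl⟩ := ht
    exact dist_nonneg

end Pool.Agent.H32R3.AD
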