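import Mathlib
import Pool.Agent.H32R3.AD.Sel
import Pool.Agent.H32R3.AD.Green

set_option maxHeartbeats 4000000

namespace Pool.Agent.H32R3.AD

open MeasureTheory Filter Topology Set Metric Real
open scoped ENNReal

attribute [local irreducible] gg

/-- potential of a compact piece with large radial projection. -/
theorem exists_G {K : Set ℂ} (hK : IsClosed K) {w z : ℂ} {ρ σ κ : ℝ} (hρ : 0 < ρ) (hσ : 0 < σ)
    (hσ1 : σ ≤ 1) (hκ : 0 < κ)
    (hT : ENNReal.ofReal (κ * ρ) ≤ volume ((fun k => dist k z) '' (K ∩ closedBall w ρ))) :
    ∃ G : ℂ → ℝ, (∀ x, 0 ≤ G x) ∧ (∀ x ∉ K, G x ≤ 1) ∧ (∀ x, (1 + σ) * ρ ≤ dist x w → G x = 0) ∧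
      (w ∉ K → κ / 8 * Real.log (1 + σ) ≤ G w) ∧
      (∀ x ∉ K, ∃ δ > 0, ∀ r, 0 < r → r < δ → G x ≤ circleAverage G x r) ∧
      (∀ d > 0, ∀ x x', (∀ k ∈ K, d ≤ dist x k) → (∀ k ∈ K, d ≤ dist x' k) →
        |G x - G x'| ≤ ((2 * ρ) / d ^ 2 + (2 * ρ) ^ 2 / d ^ 3) * dist x x') := by
  set P : Set ℂ := K ∩ closedBall w ρ with hP
  have hPc : IsCompact P := (isCompact_closedBall w ρ).inter_left hK
  have hκρ : 0 < κ * ρ := by positivity
  have hPne : P.Nonempty := by
    by_contra h
    rw [Set.not_nonempty_iff_eq_empty] at h
    rw [h] at hT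
    simp only [image_empty, measure_empty, nonpos_iff_eq_zero, ENNReal.ofReal_eq_zero] at hT
    linarith
  obtain ⟨y, hym, hyP, hyT⟩ := exists_selection hPc hPne z
  set T : Set ℝ := (fun k => dist k z) '' P with hTdef
  have hTc : IsCompact T := hPc.image (by fun_prop)
  have hTm : MeasurableSet T := hTc.isClosed.measurableSet
  have hTfin : volume T ≠ ⊤ := hTc.measure_lt_top.ne
  set R : ℝ := (1 + σ) * ρ with hR
  have hRρ : ρ ≤ R := by rw [hR]; nlinarith
  have hR2 : R ≤ 2 * ρ := by rw [hR]; nlinarith
  have hRp : 0 < R := by positivity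
  have hyw : ∀ t, ‖y t - w‖ ≤ ρ := fun t => by
    have := (hyP t).2
    rwa [mem_closedBall, dist_eq_norm] at this
  have hyR : ∀ t, ‖y t - w‖ ≤ R := fun t => (hyw t).trans hRρ
  have hyK : ∀ t, y t ∈ K := fun t => (hyP t).1
  have : IsFiniteMeasure (volume.restrict T) := ⟨by simpa using hTc.measure_lt_top⟩
  set g : ℂ → ℝ → ℝ := fun x t => gg R (x - w) (y t - w) with hg
  have hg0 : ∀ x t, 0 ≤ g x t := fun x t => gg_nonneg _ (hyR t)
  have hgm : ∀ x, Measurable (g x) := by
    intro x
    have h1 : Measurable (fun t => ((x - w, y t - w) : ℂ × ℂ)) :=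
      measurable_const.prodMk (hym.sub measurable_const)
    have h2 := (measurable_gg R).comp h1
    exact h2
  have hgb : ∀ x δ, 0 < δ → (∀ k ∈ K, δ ≤ dist x k) → ∀ t, g x t ≤ R ^ 2 / (2 * δ ^ 2) := by
    intro x δ hδ hx t
    apply gg_le_bound hRp hδ (hyR t)
    have := hx (y t) (hyK t)
    rwa [dist_eq_norm, show x - y t = x - w - (y t - w) by ring] at this
  have hgi : ∀ x δ, 0 < δ → (∀ k ∈ K, δ ≤ dist x k) → IntegrableOn (g x) T := by
    intro x δ hδ hx
    refine Integrable.of_bound (hgm x).aestronglyMeasurable (R ^ 2 / (2 * δ ^ 2)) (ae_of_all _ fun t => ?_)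
    rw [Real.norm_of_nonneg (hg0 x t)]
    exact hgb x δ hδ hx t
  have hpos : ∀ x ∉ K, ∃ δ > 0, ∀ k ∈ K, δ ≤ dist x k := by
    intro x hx
    obtain ⟨δ, hδ, hb⟩ := Metric.isOpen_iff.1 hK.isOpen_compl x hx
    refine ⟨δ, hδ, fun k hk => ?_⟩
    by_contra h
    push Not at h
    exact hb (by rw [mem_ball, dist_comm]; exact h) hk
  set G : ℂ → ℝ := fun x => (1 / (4 * R)) * ∫ t in T, g x t with hG
  have hTvol : volume.real T ≤ 2 * R := by
    have h1 : T ⊆ Icc (dist w z - ρ) (dist w z + ρ) := by
      rintro t ⟨k, hk, rfl⟩
      have h2 := mem_closedBall.1 hk.2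
      have h3 := dist_triangle k w z
      have h4 := dist_triangle w k z
      rw [dist_comm w k] at h4
      constructor <;> simp only <;> linarith
    have h2 : volume.real T ≤ volume.real (Icc (dist w z - ρ) (dist w z + ρ)) :=
      measureReal_mono h1 (by simp)
    rw [Real.volume_real_Icc_of_le (by linarith)] at h2
    linarith
  refine ⟨G, ?_, ?_, ?_, ?_, ?_, ?_⟩
  · intro x
    exact mul_nonneg (by positivity) (integral_nonneg (fun t => hg0 x t))
  · -- G ≤ 1
    intro x hx
    by_cases hxR : ‖x - w‖ < R
    · obtain ⟨δ, hδ, hδx⟩ := hpos x hx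
      set a : ℝ := dist x z with ha
      have hTsub : T ⊆ Icc (a - 2 * R) (a + 2 * R) := by
        rintro t ⟨k, hk, rfl⟩
        have h2 := mem_closedBall.1 hk.2
        have h3 := dist_triangle k x z
        have h4 := dist_triangle x k z
        have h5 := dist_triangle k w x
        rw [← dist_eq_norm] at hxR
        rw [dist_comm w x] at h5
        rw [dist_comm x k] at h4
        constructor <;> simp only <;> linarith
      have hbd : ∀ t ∈ T, t ≠ a → g x t ≤ Real.log (2 * R) - Real.log (t - a) := by
        intro t ht hta
        have h1 : dist (y t) z = t := hyT t ht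
        have hne : x ≠ y t := fun h => hx (h ▸ hyK t)
        have h2 : |t - a| ≤ ‖x - y t‖ := by
          have h2' : |dist (y t) z - dist x z| ≤ ‖x - y t‖ := by
            rw [← dist_eq_norm, dist_comm x (y t)]
            exact abs_dist_sub_le _ _ _
          rw [h1] at h2'
          exact h2'
        have h3 : 0 < |t - a| := abs_pos.2 (sub_ne_zero.2 hta)
        have h4 := gg_le_log hRp hxR (hyR t) (show x - w ≠ y t - w from fun h => hne (by simpa using h))
        rw [show x - w - (y t - w) = x - y t by ring] at h4
        refine h4.trans ?_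
        rw [← Real.log_abs (t - a), ← Real.log_div (by positivity) h3.ne']
        apply Real.log_le_log (by have := h3.trans_le h2; positivity)
        gcongr
      have hlogint : IntervalIntegrable (fun t => Real.log (2 * R) - Real.log (t - a)) volume (a - 2 * R) (a + 2 * R) := by
        apply IntervalIntegrable.sub (by simp)
        have := (intervalIntegral.intervalIntegrable_log' (a := -(2 * R)) (b := 2 * R)).comp_sub_right a
        convert this using 1 <;> ring
      have hval : ∫ t in (a - 2 * R)..(a + 2 * R), (Real.log (2 * R) - Real.log (t - a)) = 4 * R := by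
        rw [intervalIntegral.integral_comp_sub_right (fun t => Real.log (2 * R) - Real.log t) a,
          intervalIntegral.integral_sub (by simp) (intervalIntegral.intervalIntegrable_log'),
          intervalIntegral.integral_const, integral_log]
        rw [show a - 2 * R - a = -(2 * R) by ring, show a + 2 * R - a = 2 * R by ring, Real.log_neg_eq_log]
        simp only [smul_eq_mul]
        ring
      have hle : ∫ t in T, g x t ≤ 4 * R := by
        rw [← hval, intervalIntegral.integral_of_le (by linarith), ← integral_Icc_eq_integral_Ioc]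
        have hint : IntegrableOn (fun t => Real.log (2 * R) - Real.log (t - a)) (Icc (a - 2 * R) (a + 2 * R)) := by
          rw [integrableOn_Icc_iff_integrableOn_Ioc, ← intervalIntegrable_iff_integrableOn_Ioc_of_le (by linarith)]
          exact hlogint
        calc ∫ t in T, g x t ≤ ∫ t in T, (Real.log (2 * R) - Real.log (t - a)) := by
              apply setIntegral_mono_on_ae (hgi x δ hδ hδx) (hint.mono_set hTsub) hTm
              have : ∀ᵐ t : ℝ, t ≠ a := by
                rw [ae_iff]; simp
              filter_upwards [this] with t ht htT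
              exact hbd t htT ht
          _ ≤ _ := by
              apply setIntegral_mono_set hint
              · rw [EventuallyLE, ae_restrict_iff' measurableSet_Icc]
                have : ∀ᵐ t : ℝ, t ≠ a := by
                  rw [ae_iff]; simp
                filter_upwards [this] with t hta ht
                simp only [Pi.zero_apply]
                rw [← Real.log_abs (t - a)]
                have h1 : |t - a| ≤ 2 * R := by
                  rw [abs_le]; constructor <;> linarith [ht.1, ht.2]
                have := Real.log_le_log (abs_pos.2 (sub_ne_zero.2 hta)) h1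
                linarith
              · exact ae_of_all _ hTsub
      simp only [hG]
      rw [one_div, inv_mul_le_iff₀ (by positivity)]
      linarith
    · push Not at hxR
      have : ∀ t, g x t = 0 := fun t => gg_zero hRp.le hxR _
      simp only [hG, this, integral_zero, mul_zero]
      exact zero_le_one
  · intro x hx
    rw [dist_eq_norm] at hx
    have : ∀ t, g x t = 0 := fun t => gg_zero hRp.le hx _
    simp only [hG, this, integral_zero, mul_zero]
  · intro hw
    obtain ⟨δ, hδ, hδx⟩ := hpos w hw
    have h1 : ∀ t ∈ T, Real.log (1 + σ) ≤ g w t := by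
      intro t _
      have h2 : y t - w ≠ 0 := by
        intro h
        exact hw ((sub_eq_zero.1 h) ▸ hyK t)
      have h3 := gg_center hρ hRρ (hyw t) h2
      simp only [hg, sub_self]
      rw [hR, mul_div_assoc, div_self hρ.ne', mul_one] at h3
      rw [hR]; exact h3
    have h2 : volume.real T * Real.log (1 + σ) ≤ ∫ t in T, g w t := by
      have := setIntegral_mono_on (f := fun _ => Real.log (1 + σ)) (g := g w) (by
        exact integrableOn_const hTfin) (hgi w δ hδ hδx) hTm h1
      simpa using this
    have h3 : κ * ρ ≤ volume.real T := by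
      rw [measureReal_def]
      exact (ENNReal.ofReal_le_iff_le_toReal hTfin).1 hT
    have h4 : 0 < Real.log (1 + σ) := Real.log_pos (by linarith)
    simp only [hG]
    calc κ / 8 * Real.log (1 + σ) = (1 / (8 * ρ)) * ((κ * ρ) * Real.log (1 + σ)) := by
          field_simp
      _ ≤ (1 / (4 * R)) * ((κ * ρ) * Real.log (1 + σ)) := by
          apply mul_le_mul_of_nonneg_right _ (by positivity)
          apply one_div_le_one_div_of_le (by positivity)
          linarith
      _ ≤ (1 / (4 * R)) * ∫ t in T, g w t := by
          gcongr
          exact (mul_le_mul_of_nonneg_right h3 h4.le).trans h2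
  · intro x hx
    by_cases hxR : ‖x - w‖ < R
    · obtain ⟨δ, hδ, hδx⟩ := hpos x hx
      refine ⟨min (δ / 2) (R - ‖x - w‖), lt_min (by positivity) (by linarith), fun r hr hr' => ?_⟩
      have hr1 : r < δ / 2 := hr'.trans_le (min_le_left _ _)
      have hr2 : r < R - ‖x - w‖ := hr'.trans_le (min_le_right _ _)
      have hmean : ∀ t, circleAverage (fun x' => g x' t) x r = g x t := by
        intro t
        have h1 : circleAverage (fun x' => gg R x' (y t - w)) (x - w) r = gg R (x - w) (y t - w) := by
          apply gg_mean hRp hr (by linarith) _ (hyR t)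
          rw [show x - w - (y t - w) = x - y t by ring, ← dist_eq_norm]
          have := hδx (y t) (hyK t)
          linarith
        simp only [hg]
        rw [← h1, circleAverage_def, circleAverage_def]
        congr 1
        apply intervalIntegral.integral_congr
        intro θ _
        simp only [circleMap]
        congr 1
        ring
      have hdist : ∀ θ, ∀ k ∈ K, δ / 2 ≤ dist (circleMap x r θ) k := by
        intro θ k hk
        have h1 := hδx k hk
        have h2 : dist (circleMap x r θ) x = r := by
          have := circleMap_mem_sphere x hr.le θ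
          exact this
        have h3 := dist_triangle_left x k (circleMap x r θ)
        linarith
      have hswap : circleAverage G x r = (1 / (4 * R)) * ∫ t in T, circleAverage (fun x' => g x' t) x r := by
        rw [circleAverage_def]
        simp only [hG, circleAverage_def, smul_eq_mul]
        rw [intervalIntegral.integral_const_mul, intervalIntegral.integral_of_le (by positivity)]
        have h1 : ∫ t in T, (2 * π)⁻¹ * ∫ θ in (0)..(2 * π), g (circleMap x r θ) t
            = (2 * π)⁻¹ * ∫ t in T, ∫ θ in Ioc 0 (2 * π), g (circleMap x r θ) t := by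
          rw [← integral_const_mul]
          congr 1
          ext t
          rw [intervalIntegral.integral_of_le (by positivity)]
        rw [h1, integral_integral_swap]
        · ring
        · refine Integrable.of_bound ?_ (R ^ 2 / (2 * (δ / 2) ^ 2)) (ae_of_all _ fun p => ?_)
          · apply Measurable.aestronglyMeasurable
            have h2 : Measurable (fun p : ℝ × ℝ => (circleMap x r p.1 - w, y p.2 - w)) := by
              apply Measurable.prodMk
              · exact ((continuous_circleMap x r).measurable.comp measurable_fst).sub measurable_const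
              · exact (hym.comp measurable_snd).sub measurable_const
            exact (measurable_gg R).comp h2
          · show ‖g (circleMap x r p.1) p.2‖ ≤ _
            rw [Real.norm_of_nonneg (hg0 _ _)]
            exact hgb _ _ (by positivity) (hdist p.1) p.2
      rw [hswap]
      simp only [hmean]
      exact le_rfl
    · push Not at hxR
      refine ⟨1, one_pos, fun r _ _ => ?_⟩
      have h1 : ∀ t, g x t = 0 := fun t => gg_zero hRp.le hxR _
      have h2 : G x = 0 := by simp only [hG, h1, integral_zero, mul_zero]
      rw [h2]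
      apply circleAverage_nonneg_of_nonneg
      intro x' _
      exact mul_nonneg (by positivity) (integral_nonneg (fun t => hg0 x' t))
  · intro d hd x x' hx hx'
    have h1 : G x - G x' = (1 / (4 * R)) * ∫ t in T, (g x t - g x' t) := by
      simp only [hG]
      rw [integral_sub (hgi x d hd hx) (hgi x' d hd hx')]
      ring
    have h2 : ∀ t, |g x t - g x' t| ≤ (R / d ^ 2 + R ^ 2 / d ^ 3) * dist x x' := by
      intro t
      have h3 := gg_lip (R := R) (d := d) hRp hd (x := x - w) (x' := x' - w) (y := y t - w) (hyR t)
        (by rw [show x - w - (y t - w) = x - y t by ring, ← dist_eq_norm]; exact hx _ (hyK t))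
        (by rw [show x' - w - (y t - w) = x' - y t by ring, ← dist_eq_norm]; exact hx' _ (hyK t))
      rwa [show x - w - (x' - w) = x - x' by ring, ← dist_eq_norm] at h3
    have h3 : |∫ t in T, (g x t - g x' t)| ≤ ((R / d ^ 2 + R ^ 2 / d ^ 3) * dist x x') * volume.real T := by
      have := norm_setIntegral_le_of_norm_le_const (f := fun t => g x t - g x' t) (s := T) (μ := volume)
        (C := (R / d ^ 2 + R ^ 2 / d ^ 3) * dist x x') hTc.measure_lt_top (fun t _ => h2 t)
      exact this
    rw [h1, abs_mul, abs_of_pos (by positivity)]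
    have h4 : 0 ≤ (R / d ^ 2 + R ^ 2 / d ^ 3) * dist x x' := by positivity
    have h5 : (R / d ^ 2 + R ^ 2 / d ^ 3) ≤ ((2 * ρ) / d ^ 2 + (2 * ρ) ^ 2 / d ^ 3) := by gcongr
    calc 1 / (4 * R) * |∫ t in T, (g x t - g x' t)| ≤ 1 / (4 * R) * (((R / d ^ 2 + R ^ 2 / d ^ 3) * dist x x') * (2 * R)) := by
          gcongr
          exact h3.trans (mul_le_mul_of_nonneg_left hTvol h4)
      _ = (1 / 2) * ((R / d ^ 2 + R ^ 2 / d ^ 3) * dist x x') := by field_simp; ring
      _ ≤ (R / d ^ 2 + R ^ 2 / d ^ 3) * dist x x' := by linarith
      _ ≤ _ := by gcongr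

end Pool.Agent.H32R3.AD
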