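import Mathlib
import Pool.Agent.H32R3.AD.Chain
import Pool.Agent.H32R3.AD.Cantor
import Pool.Agent.H32R3.AD.ExG

set_option maxHeartbeats 4000000

namespace Pool.Agent.H32R3.AD

open MeasureTheory Filter Topology Set Metric
open scoped ENNReal

/-- The Cantor dust. -/
def KK : Set ℂ := {z | z.re ∈ CC ∧ z.im ∈ CC}

abbrev DD := Fin 41 × Fin 41

/-- corner of the square with digits d. -/
noncomputable def cn (d : DD) : ℂ := ⟨5 / 204 * ((d.1 : ℕ) : ℝ), 5 / 204 * ((d.2 : ℕ) : ℝ)⟩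

noncomputable def fm (d : DD) (z : ℂ) : ℂ := cn d + ((1 / 51 : ℝ) : ℂ) * z

noncomputable def gm (d : DD) (z : ℂ) : ℂ := ((51 : ℝ) : ℂ) * (z - cn d)

theorem fm_re (d : DD) (z : ℂ) : (fm d z).re = 5 / 204 * ((d.1 : ℕ) : ℝ) + 1 / 51 * z.re := by
  simp only [fm, cn, Complex.add_re, Complex.re_ofReal_mul]

theorem fm_im (d : DD) (z : ℂ) : (fm d z).im = 5 / 204 * ((d.2 : ℕ) : ℝ) + 1 / 51 * z.im := by
  simp only [fm, cn, Complex.add_im, Complex.im_ofReal_mul]

theorem gm_fm (d : DD) (z : ℂ) : gm d (fm d z) = z := by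
  simp only [gm, fm, add_sub_cancel_left]
  rw [← mul_assoc, ← Complex.ofReal_mul]
  norm_num

theorem fm_gm (d : DD) (z : ℂ) : fm d (gm d z) = z := by
  simp only [gm, fm]
  rw [← mul_assoc, ← Complex.ofReal_mul]
  norm_num

theorem fm_continuous (d : DD) : Continuous (fm d) := by unfold fm; fun_prop
theorem gm_continuous (d : DD) : Continuous (gm d) := by unfold gm; fun_prop

theorem dist_fm (d : DD) (z w : ℂ) : dist (fm d z) (fm d w) = 1 / 51 * dist z w := by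
  rw [dist_eq_norm, dist_eq_norm]
  simp only [fm]
  rw [show cn d + ((1 / 51 : ℝ) : ℂ) * z - (cn d + ((1 / 51 : ℝ) : ℂ) * w) = ((1 / 51 : ℝ) : ℂ) * (z - w) by ring,
    norm_mul, Complex.norm_real, Real.norm_of_nonneg (by norm_num)]

theorem KK_fm {z : ℂ} (hz : z ∈ KK) (d : DD) : fm d z ∈ KK := by
  constructor
  · rw [fm_re]; exact CC_cons hz.1 d.1
  · rw [fm_im]; exact CC_cons hz.2 d.2

theorem KK_uncons {z : ℂ} (hz : z ∈ KK) : ∃ d, ∃ w ∈ KK, z = fm d w := by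
  obtain ⟨i, x, hx, h1⟩ := CC_uncons hz.1
  obtain ⟨j, y, hy, h2⟩ := CC_uncons hz.2
  refine ⟨(i, j), ⟨x, y⟩, ⟨hx, hy⟩, ?_⟩
  apply Complex.ext
  · rw [fm_re, h1]
  · rw [fm_im, h2]

theorem gm_notin {x : ℂ} (hx : x ∉ KK) (d : DD) : gm d x ∉ KK := by
  intro h
  apply hx
  have := KK_fm h d
  rwa [fm_gm] at this

theorem KK_closed : IsClosed KK := by
  have h1 : IsClosed (Complex.re ⁻¹' CC) := CC_compact.isClosed.preimage Complex.continuous_re
  have h2 : IsClosed (Complex.im ⁻¹' CC) := CC_compact.isClosed.preimage Complex.continuous_im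
  exact h1.inter h2

/-- the enlarged open square. -/
def Sb : Set ℂ := {z | (-(1 / 5) < z.re ∧ z.re < 1 + 1 / 5) ∧ (-(1 / 5) < z.im ∧ z.im < 1 + 1 / 5)}

theorem KK_sub_Sb {z : ℂ} (hz : z ∈ KK) : z ∈ Sb := by
  have h1 := CC_sub hz.1
  have h2 := CC_sub hz.2
  refine ⟨⟨?_, ?_⟩, ?_, ?_⟩ <;> linarith

theorem sep {d e : DD} {y w : ℂ} (hy : y ∈ Sb) (hw : w ∈ KK) (h : fm d y = fm e w) : d = e := by
  have h1 := congrArg Complex.re h
  have h2 := congrArg Complex.im h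
  rw [fm_re, fm_re] at h1
  rw [fm_im, fm_im] at h2
  exact Prod.ext (CC_sep hy.1.1 hy.1.2 hw.1 h1) (CC_sep hy.2.1 hy.2.2 hw.2 h2)

theorem fm_Sb {y : ℂ} (hy : y ∈ Sb) (d : DD) : fm d y ∈ Sb := by
  obtain ⟨⟨h1, h2⟩, h3, h4⟩ := hy
  have e1 := dig_le d.1
  have e2 := dig_le d.2
  have e3 : (0 : ℝ) ≤ ((d.1 : ℕ) : ℝ) := Nat.cast_nonneg _
  have e4 : (0 : ℝ) ≤ ((d.2 : ℕ) : ℝ) := Nat.cast_nonneg _
  refine ⟨⟨?_, ?_⟩, ?_, ?_⟩
  · rw [fm_re]; linarith
  · rw [fm_re]; linarith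
  · rw [fm_im]; linarith
  · rw [fm_im]; linarith

/-- data for the iteration. -/
def Dat (F : Set ℂ) (η c₀ : ℝ) : Prop :=
  ∃ V : Set ℂ, ∃ v : ℂ → ℝ, IsOpen V ∧ F ⊆ V ∧ closure V ⊆ thickening η F ∧
      Sub KKᶜ v ∧ (∀ x ∉ Sb, v x = 0) ∧ (∀ x, 0 ≤ v x) ∧ (∀ x ∈ frontier V, x ∈ KKᶜ → c₀ ≤ v x) ∧
      ∀ ζ ∈ F, Tendsto v (𝓝[KKᶜ] ζ) (𝓝 0)

theorem gm_circle (d : DD) (v : ℂ → ℝ) (x : ℂ) (r : ℝ) :
    Real.circleAverage (fun y => v (gm d y)) x r = Real.circleAverage v (gm d x) (51 * r) := by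
  rw [Real.circleAverage_def, Real.circleAverage_def]
  congr 1
  apply intervalIntegral.integral_congr
  intro θ _
  simp only [circleMap, gm]
  congr 1
  push_cast
  ring

theorem Dat.step {F : Set ℂ} {η c₀ : ℝ} (hF : F ⊆ KK) (h : Dat F η c₀) (Δ : Finset DD) (hΔ : Δ.Nonempty) :
    Dat (⋃ d ∈ Δ, fm d '' F) (1 / 51 * η) c₀ := by
  obtain ⟨V, v, hVo, hFV, hcl, hv, hvz, hv0, hfr, hlim⟩ := h
  set V' : Set ℂ := ⋃ d ∈ Δ, gm d ⁻¹' V with hV'
  set v' : ℂ → ℝ := fun x => Δ.sup' hΔ (fun d => v (gm d x)) with hv'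
  have hVo' : IsOpen V' := isOpen_biUnion fun d _ => hVo.preimage (gm_continuous d)
  have hterm : ∀ d, ContinuousOn (fun x => v (gm d x)) KKᶜ := fun d =>
    hv.cont.comp (gm_continuous d).continuousOn (fun x hx => gm_notin hx d)
  have hle : ∀ d ∈ Δ, ∀ x, v (gm d x) ≤ v' x := fun d hd x => Finset.le_sup' (fun d => v (gm d x)) hd
  have hv'0 : ∀ x, 0 ≤ v' x := by
    intro x
    obtain ⟨d, hd⟩ := hΔ
    exact (hv0 _).trans (hle d hd x)
  have hv'c : ContinuousOn v' KKᶜ := by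
    exact ContinuousOn.finset_sup'_apply hΔ (fun d _ => hterm d)
  have hclV : closure V' = ⋃ d ∈ Δ, closure (gm d ⁻¹' V) := by
    rw [hV', Finset.closure_biUnion]
  refine ⟨V', v', hVo', ?_, ?_, ⟨hv'c, fun x _ => hv'0 x, ?_, ?_⟩, ?_, hv'0, ?_, ?_⟩
  · -- F' ⊆ V'
    intro x hx
    simp only [mem_iUnion] at hx
    obtain ⟨d, hd, ζ, hζ, rfl⟩ := hx
    exact mem_biUnion (x := d) hd (by rw [mem_preimage, gm_fm]; exact hFV hζ)
  · -- closure
    intro x hx
    rw [hclV] at hx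
    simp only [mem_iUnion] at hx
    obtain ⟨d, hd, hx⟩ := hx
    have h1 : gm d x ∈ closure V := (gm_continuous d).closure_preimage_subset V hx
    obtain ⟨ζ, hζ, hdist⟩ := mem_thickening_iff.1 (hcl h1)
    rw [mem_thickening_iff]
    refine ⟨fm d ζ, ?_, ?_⟩
    · simp only [mem_iUnion]; exact ⟨d, hd, ζ, hζ, rfl⟩
    · calc dist x (fm d ζ) = dist (fm d (gm d x)) (fm d ζ) := by rw [fm_gm]
        _ = 1 / 51 * dist (gm d x) ζ := dist_fm _ _ _
        _ < 1 / 51 * η := by linarith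
  · intro x hx
    apply Finset.sup'_le
    intro d _
    exact hv.le_one _ (gm_notin hx d)
  · intro x hx
    obtain ⟨ρ, hρ, hb⟩ := exists_ball_sub KK_closed.isOpen_compl hx
    refine ⟨ρ, hρ, fun r hr hr' => ?_⟩
    have hsub : closedBall x r ⊆ KKᶜ := (closedBall_subset_closedBall hr'.le).trans hb
    apply Finset.sup'_le
    intro d hd
    have h1 : v (gm d x) ≤ Real.circleAverage (fun y => v (gm d y)) x r := by
      refine local_to_global (Ω := KKᶜ) (fun y => v (gm d y)) (hterm d) ?_ x r hr hsub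
      intro x' hx'
      obtain ⟨ρ', hρ', hm⟩ := hv.mean (gm d x') (gm_notin hx' d)
      refine ⟨ρ' / 51, by positivity, fun r' hr1 hr2 => ?_⟩
      rw [gm_circle]
      exact hm _ (by positivity) (by linarith)
    exact h1.trans (Real.circleAverage_mono (circInt (hterm d) hr hsub) (circInt hv'c hr hsub)
      (fun y _ => hle d hd y))
  · intro x hx
    apply le_antisymm _ (hv'0 x)
    apply Finset.sup'_le
    intro d _
    apply le_of_eq
    apply hvz
    intro h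
    apply hx
    have := fm_Sb h d
    rwa [fm_gm] at this
  · intro x hx hxK
    rw [hVo'.frontier_eq, hclV] at hx
    obtain ⟨hx1, hx2⟩ := hx
    simp only [mem_iUnion] at hx1
    obtain ⟨d, hd, hx1⟩ := hx1
    have h1 : gm d x ∈ closure V := (gm_continuous d).closure_preimage_subset V hx1
    have h2 : gm d x ∉ V := by
      intro h
      apply hx2
      rw [hV']
      simp only [mem_iUnion]
      exact ⟨d, hd, h⟩
    have h3 : gm d x ∈ frontier V := by rw [hVo.frontier_eq]; exact ⟨h1, h2⟩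
    exact (hfr _ h3 (gm_notin hxK d)).trans (hle d hd x)
  · intro ζ hζ
    simp only [mem_iUnion] at hζ
    obtain ⟨e, he, ζ', hζ', rfl⟩ := hζ
    have hterm0 : ∀ d, Tendsto (fun x => v (gm d x)) (𝓝[KKᶜ] (fm e ζ')) (𝓝 0) := by
      intro d
      by_cases hde : gm d (fm e ζ') ∈ Sb
      · have h1 : d = e := sep hde (hF hζ') (fm_gm d _)
        subst h1
        have h2 : Tendsto (gm d) (𝓝[KKᶜ] (fm d ζ')) (𝓝[KKᶜ] ζ') := by
          apply tendsto_nhdsWithin_of_tendsto_nhds_of_eventually_within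
          · have := (gm_continuous d).tendsto (fm d ζ')
            rw [gm_fm] at this
            exact this.mono_left nhdsWithin_le_nhds
          · filter_upwards [self_mem_nhdsWithin] with x hx using gm_notin hx d
        exact (hlim ζ' hζ').comp h2
      · have h1 : gm d (fm e ζ') ∈ KKᶜ := fun h => hde (KK_sub_Sb h)
        have h2 : ContinuousAt v (gm d (fm e ζ')) := hv.cont.continuousAt (KK_closed.isOpen_compl.mem_nhds h1)
        have h3 : Tendsto (fun x => v (gm d x)) (𝓝 (fm e ζ')) (𝓝 (v (gm d (fm e ζ')))) :=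
          h2.tendsto.comp ((gm_continuous d).tendsto _)
        rw [hvz _ hde] at h3
        exact h3.mono_left nhdsWithin_le_nhds
    have hsum : Tendsto (fun x => ∑ d ∈ Δ, v (gm d x)) (𝓝[KKᶜ] (fm e ζ')) (𝓝 0) := by
      have := tendsto_finsetSum Δ (fun d _ => hterm0 d)
      simpa using this
    apply squeeze_zero hv'0 _ hsum
    intro x
    apply Finset.sup'_le
    intro d hd
    exact Finset.single_le_sum (f := fun d => v (gm d x)) (fun d _ => hv0 _) hd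

/-- complements of subsets of product sets are connected. -/
theorem conn {C : Set ℝ} (hC : Dense Cᶜ) {A : Set ℂ} (hA : IsClosed A) (hAC : ∀ z ∈ A, z.re ∈ C ∧ z.im ∈ C)
    {l u : ℝ} (hlu : l < u) :
    IsPreconnected ({z : ℂ | (l < z.re ∧ z.re < u) ∧ (l < z.im ∧ z.im < u)} \ A) := by
  obtain ⟨x₀, hx₀C, hx₀⟩ := hC.exists_between hlu
  set S : Set ℂ := {z : ℂ | (l < z.re ∧ z.re < u) ∧ (l < z.im ∧ z.im < u)} with hS
  have hSo : IsOpen S := by
    have h1 : Continuous Complex.re := Complex.continuous_re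
    have h2 : Continuous Complex.im := Complex.continuous_im
    exact ((isOpen_lt continuous_const h1).inter (isOpen_lt h1 continuous_const)).inter
      ((isOpen_lt continuous_const h2).inter (isOpen_lt h2 continuous_const))
  have hSA : IsOpen (S \ A) := hSo.sdiff hA
  apply isPreconnected_of_forall (⟨x₀, x₀⟩ : ℂ)
  intro z hz
  obtain ⟨ε, hε, hb⟩ := Metric.isOpen_iff.1 hSA z hz
  obtain ⟨x', hx'C, hx'⟩ := hC.exists_dist_lt z.re hε
  rw [Real.dist_eq] at hx'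
  -- three pieces
  set H1 : Set ℂ := segment ℝ z ⟨x', z.im⟩ with hH1
  set V1 : Set ℂ := {y : ℂ | y.re = x' ∧ (l < y.im ∧ y.im < u)} with hV1
  set H2 : Set ℂ := {y : ℂ | (l < y.re ∧ y.re < u) ∧ y.im = x₀} with hH2
  have hq : (⟨x', z.im⟩ : ℂ) ∈ ball z ε := by
    rw [mem_ball, dist_eq_norm]
    have : (⟨x', z.im⟩ : ℂ) - z = ((x' - z.re : ℝ) : ℂ) := by
      apply Complex.ext <;> simp
    rw [this, Complex.norm_real, Real.norm_eq_abs, abs_sub_comm]
    exact hx'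
  have hH1s : H1 ⊆ S \ A := ((convex_ball z ε).segment_subset (mem_ball_self hε) hq).trans hb
  have hqS : (⟨x', z.im⟩ : ℂ) ∈ S \ A := hb hq
  have hV1s : V1 ⊆ S \ A := by
    rintro y ⟨hy1, hy2⟩
    refine ⟨⟨?_, hy2⟩, fun hyA => hx'C (hy1 ▸ (hAC y hyA).1)⟩
    rw [hy1]; exact hqS.1.1
  have hH2s : H2 ⊆ S \ A := by
    rintro y ⟨hy1, hy2⟩
    refine ⟨⟨hy1, ?_⟩, fun hyA => hx₀C (hy2 ▸ (hAC y hyA).2)⟩
    rw [hy2]; exact hx₀
  have hH1c : IsPreconnected H1 := (convex_segment _ _).isPreconnected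
  have hV1c : IsPreconnected V1 := by
    apply Convex.isPreconnected
    intro p hp q hq a b ha hb hab
    have h1 := convex_Ioo l u hp.2 hq.2 ha hb hab
    refine ⟨?_, ?_⟩
    · simp only [Complex.add_re, Complex.real_smul, Complex.re_ofReal_mul, hp.1, hq.1]
      rw [← add_mul, hab, one_mul]
    · simpa only [Complex.add_im, Complex.real_smul, Complex.im_ofReal_mul, smul_eq_mul, mem_Ioo] using h1
  have hH2c : IsPreconnected H2 := by
    apply Convex.isPreconnected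
    intro p hp q hq a b ha hb hab
    have h1 := convex_Ioo l u hp.1 hq.1 ha hb hab
    refine ⟨?_, ?_⟩
    · simpa only [Complex.add_re, Complex.real_smul, Complex.re_ofReal_mul, smul_eq_mul, mem_Ioo] using h1
    · simp only [Complex.add_im, Complex.real_smul, Complex.im_ofReal_mul, hp.2, hq.2]
      rw [← add_mul, hab, one_mul]
  refine ⟨H1 ∪ V1 ∪ H2, union_subset (union_subset hH1s hV1s) hH2s, Or.inr ⟨hx₀, rfl⟩,
    Or.inl (Or.inl (left_mem_segment ℝ _ _)), ?_⟩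
  have hc1 : IsPreconnected (H1 ∪ V1) :=
    hH1c.union (⟨x', z.im⟩ : ℂ) (right_mem_segment ℝ _ _) ⟨rfl, hz.1.2⟩ hV1c
  exact hc1.union (⟨x', x₀⟩ : ℂ) (Or.inr ⟨rfl, hx₀⟩) ⟨hqS.1.1, rfl⟩ hH2c

end Pool.Agent.H32R3.AD
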