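import Mathlib
import Pool.Agent.H32R3.AD.Data

set_option maxHeartbeats 4000000

namespace Pool.Agent.H32R3.AD

open MeasureTheory Filter Topology Set Metric
open scoped ENNReal

abbrev ce : DD := (20, 20)

/-- points whose digits from the n-th on avoid the central one. -/
def FF (n : ℕ) : Set ℂ := {z | ∃ a b : ℕ → Fin 41, z.re = cx a ∧ z.im = cx b ∧ ∀ m ≥ n, ¬ (a m = 20 ∧ b m = 20)}

theorem FF_sub (n : ℕ) : FF n ⊆ KK := by
  rintro z ⟨a, b, h1, h2, _⟩
  exact ⟨⟨a, h1.symm⟩, ⟨b, h2.symm⟩⟩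

theorem FF_compact (n : ℕ) : IsCompact (FF n) := by
  have h1 : IsClosed {p : (ℕ → Fin 41) × (ℕ → Fin 41) | ∀ m ≥ n, ¬ (p.1 m = 20 ∧ p.2 m = 20)} := by
    have h2 : {p : (ℕ → Fin 41) × (ℕ → Fin 41) | ∀ m ≥ n, ¬ (p.1 m = 20 ∧ p.2 m = 20)}
        = ⋂ m ∈ {m | n ≤ m}, (fun p : (ℕ → Fin 41) × (ℕ → Fin 41) => (p.1 m, p.2 m)) ⁻¹' {ce}ᶜ := by
      ext p
      simp only [mem_ofPred_eq, mem_iInter, mem_preimage, mem_compl_iff, mem_singleton_iff, Prod.mk.injEq, ge_iff_le]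
    rw [h2]
    refine isClosed_biInter fun m _ => ?_
    apply (isClosed_discrete _).preimage
    fun_prop
  have h3 : Continuous (fun p : (ℕ → Fin 41) × (ℕ → Fin 41) => (⟨cx p.1, cx p.2⟩ : ℂ)) := by
    have : (fun p : (ℕ → Fin 41) × (ℕ → Fin 41) => (⟨cx p.1, cx p.2⟩ : ℂ))
        = fun p => ((cx p.1 : ℝ) : ℂ) + ((cx p.2 : ℝ) : ℂ) * Complex.I := by
      funext p
      apply Complex.ext <;> simp
    rw [this]
    have c1 := cx_continuous
    fun_prop
  have h4 : FF n = (fun p : (ℕ → Fin 41) × (ℕ → Fin 41) => (⟨cx p.1, cx p.2⟩ : ℂ)) ''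
      {p : (ℕ → Fin 41) × (ℕ → Fin 41) | ∀ m ≥ n, ¬ (p.1 m = 20 ∧ p.2 m = 20)} := by
    ext z
    constructor
    · rintro ⟨a, b, e1, e2, h⟩
      exact ⟨(a, b), h, Complex.ext e1.symm e2.symm⟩
    · rintro ⟨⟨a, b⟩, h, rfl⟩
      exact ⟨a, b, rfl, rfl, h⟩
  rw [h4]
  exact h1.isCompact.image h3

theorem FF_zero_mem (n : ℕ) : (0 : ℂ) ∈ FF n := by
  refine ⟨fun _ => 0, fun _ => 0, by simp [cx], by simp [cx], fun m _ h => ?_⟩
  have h1 : (0 : Fin 41) = 20 := h.1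
  exact absurd h1 (by decide)

theorem fm_code {z : ℂ} {a b : ℕ → Fin 41} (h1 : z.re = cx a) (h2 : z.im = cx b) :
    z = fm (a 0, b 0) ⟨cx (fun k => a (k + 1)), cx (fun k => b (k + 1))⟩ := by
  apply Complex.ext
  · rw [fm_re, h1, cx_cons]
  · rw [fm_im, h2, cx_cons]

theorem fm_code' {z : ℂ} {a b : ℕ → Fin 41} (h1 : z.re = cx a) (h2 : z.im = cx b) (d : DD) :
    (fm d z).re = cx (fun k => Nat.casesOn k d.1 a) ∧ (fm d z).im = cx (fun k => Nat.casesOn k d.2 b) := by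
  constructor
  · rw [fm_re, h1, cx_cons (fun k => Nat.casesOn k d.1 a)]; rfl
  · rw [fm_im, h2, cx_cons (fun k => Nat.casesOn k d.2 b)]; rfl

theorem FF_zero : FF 0 = ⋃ d ∈ (Finset.univ.erase ce : Finset DD), fm d '' FF 0 := by
  ext z
  simp only [mem_iUnion, Finset.mem_erase, Finset.mem_univ, and_true]
  constructor
  · rintro ⟨a, b, h1, h2, h3⟩
    refine ⟨(a 0, b 0), ?_, _, ⟨fun k => a (k + 1), fun k => b (k + 1), rfl, rfl, fun m _ => h3 (m + 1) (Nat.zero_le _)⟩,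
      (fm_code h1 h2).symm⟩
    intro h
    rw [Prod.mk.injEq] at h
    exact h3 0 le_rfl h
  · rintro ⟨d, hd, w, ⟨a, b, h1, h2, h3⟩, rfl⟩
    obtain ⟨e1, e2⟩ := fm_code' h1 h2 d
    refine ⟨_, _, e1, e2, fun m _ => ?_⟩
    cases m with
    | zero => exact fun h => hd (Prod.ext h.1 h.2)
    | succ m => exact h3 m (Nat.zero_le _)

theorem FF_succ (n : ℕ) : FF (n + 1) = ⋃ d ∈ (Finset.univ : Finset DD), fm d '' FF n := by
  ext z
  simp only [mem_iUnion, Finset.mem_univ, exists_const]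
  constructor
  · rintro ⟨a, b, h1, h2, h3⟩
    exact ⟨(a 0, b 0), _, ⟨fun k => a (k + 1), fun k => b (k + 1), rfl, rfl, fun m hm => h3 (m + 1) (by omega)⟩,
      (fm_code h1 h2).symm⟩
  · rintro ⟨d, w, ⟨a, b, h1, h2, h3⟩, rfl⟩
    obtain ⟨e1, e2⟩ := fm_code' h1 h2 d
    refine ⟨_, _, e1, e2, fun m hm => ?_⟩
    cases m with
    | zero => omega
    | succ m => exact h3 m (by omega)

/-- radial projection of a copy of K. -/
theorem radial {q : ℂ} {L : ℝ} (hL : 0 < L) :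
    ENNReal.ofReal (1 / 3 * (3 * L)) ≤ volume ((fun k => dist k (q - ⟨L, L⟩)) '' ((fun z => q + ((L : ℝ) : ℂ) * z) '' KK)) := by
  have h1 : Icc (3 / 2 * L) (5 / 2 * L) ⊆ (fun k => dist k (q - ⟨L, L⟩)) '' ((fun z => q + ((L : ℝ) : ℂ) * z) '' KK) := by
    intro r hr
    have hr0 : 0 < r := lt_of_lt_of_le (by positivity) hr.1
    obtain ⟨s, hs, t, ht, hst⟩ := hit (A := L) (B := L) (L := L) (r := r) hL hL hL (by linarith) (by linarith)
      (by nlinarith [hr.1]) (by nlinarith [hr.2])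
    refine ⟨_, ⟨⟨s, t⟩, ⟨hs, ht⟩, rfl⟩, ?_⟩
    simp only [dist_eq_norm]
    have h2 : q + ((L : ℝ) : ℂ) * (⟨s, t⟩ : ℂ) - (q - ⟨L, L⟩) = ⟨L + L * s, L + L * t⟩ := by
      apply Complex.ext <;> simp <;> ring
    rw [h2]
    have h3 : ‖(⟨L + L * s, L + L * t⟩ : ℂ)‖ ^ 2 = r ^ 2 := by
      rw [← Complex.normSq_eq_norm_sq, Complex.normSq_mk, ← hst]; ring
    exact (sq_eq_sq₀ (norm_nonneg _) hr0.le).1 h3
  refine le_trans ?_ (measure_mono h1)
  rw [Real.volume_Icc]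
  apply ENNReal.ofReal_le_ofReal
  linarith

/-- G is continuous off the obstacle. -/
theorem cont_of_lip {K : Set ℂ} (hK : IsClosed K) {G : ℂ → ℝ} {ρ : ℝ}
    (h : ∀ d > 0, ∀ x x', (∀ k ∈ K, d ≤ dist x k) → (∀ k ∈ K, d ≤ dist x' k) →
        |G x - G x'| ≤ ((2 * ρ) / d ^ 2 + (2 * ρ) ^ 2 / d ^ 3) * dist x x') : ContinuousOn G Kᶜ := by
  intro x₀ hx₀
  apply ContinuousAt.continuousWithinAt
  obtain ⟨e, he, hb⟩ := exists_ball_sub hK.isOpen_compl hx₀
  have hd : ∀ x ∈ ball x₀ (e / 2), ∀ k ∈ K, e / 2 ≤ dist x k := by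
    intro x hx k hk
    by_contra hcon
    push Not at hcon
    have h1 : k ∈ closedBall x₀ e := by
      rw [mem_closedBall]
      rw [mem_ball] at hx
      have := dist_triangle_left k x₀ x
      linarith
    exact hb h1 hk
  apply continuousAt_of_locally_lipschitz (show 0 < e / 2 by positivity) ((2 * ρ) / (e / 2) ^ 2 + (2 * ρ) ^ 2 / (e / 2) ^ 3)
  intro x hx
  rw [Real.dist_eq]
  exact h (e / 2) (by positivity) x x₀ (hd x hx) (hd x₀ (mem_ball_self (by positivity)))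

theorem KK_dense : Dense KKᶜ := by
  have h1 : Dense (Complex.re ⁻¹' CCᶜ) := by
    rw [Metric.dense_iff]
    intro z ε hε
    obtain ⟨x', hx'C, hx'⟩ := CC_dense_compl.exists_dist_lt z.re hε
    rw [Real.dist_eq] at hx'
    refine ⟨⟨x', z.im⟩, ?_, hx'C⟩
    rw [mem_ball, dist_eq_norm]
    have : (⟨x', z.im⟩ : ℂ) - z = ((x' - z.re : ℝ) : ℂ) := by
      apply Complex.ext <;> simp
    rw [this, Complex.norm_real, Real.norm_eq_abs, abs_sub_comm]
    exact hx'
  exact Dense.mono (s₁ := Complex.re ⁻¹' CCᶜ) (fun z hz h => hz h.1) h1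

/-- a starting function. -/
theorem start {T U : Set ℂ} (hT : IsClosed T) {q : ℂ} {L : ℝ} (hL : 0 < L)
    (hqT : ∀ z ∈ KK, q + ((L : ℝ) : ℂ) * z ∈ T) (hw : q - ⟨L, L⟩ ∉ T) (hU : ball (q - ⟨L, L⟩) (6 * L) ⊆ U) :
    ∃ v, Cls U T v ∧ 0 < v (q - ⟨L, L⟩) := by
  have hsub : (fun z => q + ((L : ℝ) : ℂ) * z) '' KK ⊆ T ∩ closedBall (q - ⟨L, L⟩) (3 * L) := by
    rintro _ ⟨z, hz, rfl⟩
    refine ⟨hqT z hz, ?_⟩
    rw [mem_closedBall, dist_eq_norm]
    have h2 : q + ((L : ℝ) : ℂ) * z - (q - ⟨L, L⟩) = ⟨L + L * z.re, L + L * z.im⟩ := by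
      apply Complex.ext <;> simp <;> ring
    rw [h2]
    have h3 : ‖(⟨L + L * z.re, L + L * z.im⟩ : ℂ)‖ ^ 2 ≤ (3 * L) ^ 2 := by
      rw [← Complex.normSq_eq_norm_sq, Complex.normSq_mk]
      have h4 := CC_sub hz.1
      have h5 := CC_sub hz.2
      have h6 : L * z.re ≤ L := by nlinarith
      have h7 : L * z.im ≤ L := by nlinarith
      have h8 : 0 ≤ L * z.re := mul_nonneg hL.le h4.1
      have h9 : 0 ≤ L * z.im := mul_nonneg hL.le h5.1
      nlinarith
    exact (sq_le_sq₀ (norm_nonneg _) (by positivity)).1 h3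
  have hproj : ENNReal.ofReal (1 / 3 * (3 * L)) ≤ volume ((fun k => dist k (q - ⟨L, L⟩)) '' (T ∩ closedBall (q - ⟨L, L⟩) (3 * L))) :=
    (radial (q := q) hL).trans (measure_mono (image_mono hsub))
  obtain ⟨G, hG0, hG1, hG2, hG3, hG4, hG5⟩ := exists_G hT (w := q - ⟨L, L⟩) (z := q - ⟨L, L⟩) (ρ := 3 * L) (σ := 1) (κ := 1 / 3)
    (by positivity) one_pos le_rfl (by norm_num) hproj
  refine ⟨G, ⟨hG0, hG1, ?_, cont_of_lip hT hG5, hG4⟩, ?_⟩
  · intro x hx
    apply hG2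
    by_contra hcon
    push Not at hcon
    apply hx
    apply hU
    rw [mem_ball]
    linarith
  · refine lt_of_lt_of_le ?_ (hG3 hw)
    have : 0 < Real.log (1 + 1) := Real.log_pos (by norm_num)
    positivity

theorem isOpen_box (l u : ℝ) : IsOpen {z : ℂ | (l < z.re ∧ z.re < u) ∧ (l < z.im ∧ z.im < u)} := by
  have h1 : Continuous Complex.re := Complex.continuous_re
  have h2 : Continuous Complex.im := Complex.continuous_im
  exact ((isOpen_lt continuous_const h1).inter (isOpen_lt h1 continuous_const)).inter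
      ((isOpen_lt continuous_const h2).inter (isOpen_lt h2 continuous_const))

theorem isClosed_box (l u : ℝ) : IsClosed {z : ℂ | (l ≤ z.re ∧ z.re ≤ u) ∧ (l ≤ z.im ∧ z.im ≤ u)} := by
  have h1 : Continuous Complex.re := Complex.continuous_re
  have h2 : Continuous Complex.im := Complex.continuous_im
  exact ((isClosed_le continuous_const h1).inter (isClosed_le h1 continuous_const)).inter
      ((isClosed_le continuous_const h2).inter (isClosed_le h2 continuous_const))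

theorem isCompact_box (l u : ℝ) : IsCompact {z : ℂ | (l ≤ z.re ∧ z.re ≤ u) ∧ (l ≤ z.im ∧ z.im ≤ u)} := by
  apply Metric.isCompact_of_isClosed_isBounded (isClosed_box l u)
  rw [Metric.isBounded_iff_subset_closedBall 0]
  refine ⟨(|l| + |u|) + (|l| + |u|), ?_⟩
  rintro z ⟨⟨h1, h2⟩, h3, h4⟩
  rw [mem_closedBall, dist_zero_right]
  have h5 : |z.re| ≤ |l| + |u| := by
    rw [abs_le]
    have := neg_abs_le l
    have := le_abs_self u
    have := abs_nonneg u
    have := abs_nonneg l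
    constructor <;> linarith
  have h6 : |z.im| ≤ |l| + |u| := by
    rw [abs_le]
    have := neg_abs_le l
    have := le_abs_self u
    have := abs_nonneg u
    have := abs_nonneg l
    constructor <;> linarith
  exact (Complex.norm_le_abs_re_add_abs_im z).trans (add_le_add h5 h6)

/-- base data. -/
theorem base_data : ∃ c₀ > 0, c₀ < 1 ∧ Dat (FF 0) 2 c₀ := by
  classical
  set T : Set ℂ := fm ce '' KK with hT
  set A : Set ℂ := ⋃ d ∈ (Finset.univ.erase ce : Finset DD), fm d '' KK with hA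
  have hKc : IsCompact KK := (isCompact_box 0 1).of_isClosed_subset KK_closed (fun z hz =>
    ⟨CC_sub hz.1, CC_sub hz.2⟩)
  have hTcl : IsClosed T := (hKc.image (fm_continuous ce)).isClosed
  have hAcl : IsClosed A := by
    apply isClosed_biUnion_finset
    intro d _
    exact (hKc.image (fm_continuous d)).isClosed
  have hTK : T ⊆ KK := by rintro _ ⟨z, hz, rfl⟩; exact KK_fm hz _
  have hAK : A ⊆ KK := by
    intro x hx
    simp only [hA, mem_iUnion] at hx
    obtain ⟨d, _, z, hz, rfl⟩ := hx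
    exact KK_fm hz _
  have hATd : ∀ x ∈ A, ∀ y ∈ Sb, x ≠ fm ce y := by
    intro x hx y hy h
    simp only [hA, mem_iUnion] at hx
    obtain ⟨d, hd, z, hz, rfl⟩ := hx
    have := sep hy hz h.symm
    rw [← this] at hd
    simp at hd
  set U : Set ℂ := Sb \ A with hU
  have hUo : IsOpen U := (isOpen_box _ _).sdiff hAcl
  have hUc : IsPreconnected U := conn CC_dense_compl hAcl (fun z hz => hAK hz) (by norm_num)
  have hTd : Dense Tᶜ := KK_dense.mono (compl_subset_compl.2 hTK)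
  -- starting point: q = corner of the central square, L = 1/51^2
  have hce20 : (((20 : Fin 41) : ℕ) : ℝ) = 20 := by norm_num
  set L : ℝ := (1 / 51) ^ 2 with hL
  have hL0 : 0 < L := by positivity
  set q : ℂ := cn ce with hq
  have hqre : q.re = 5 / 204 * 20 := by simp only [hq, cn, hce20]
  have hqim : q.im = 5 / 204 * 20 := by simp only [hq, cn, hce20]
  have hqT : ∀ z ∈ KK, q + ((L : ℝ) : ℂ) * z ∈ T := by
    intro z hz
    refine ⟨fm (0, 0) z, KK_fm hz _, ?_⟩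
    have h0 : cn (0, 0) = 0 := by
      apply Complex.ext <;> simp [cn]
    simp only [fm, h0, zero_add, hL, hq]
    push_cast
    ring
  have hw : q - ⟨L, L⟩ ∉ T := by
    rintro ⟨z, hz, h⟩
    have h1 := congrArg Complex.re h
    rw [fm_re, hce20, Complex.sub_re, hqre] at h1
    have := (CC_sub hz.1).1
    simp only at h1
    linarith
  have hball : ∀ x ∈ ball (q - ⟨L, L⟩) (6 * L), gm ce x ∈ Sb := by
    intro x hx
    rw [mem_ball, dist_eq_norm] at hx
    have h1 := (Complex.abs_re_le_norm (x - (q - ⟨L, L⟩))).trans_lt hx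
    have h2 := (Complex.abs_im_le_norm (x - (q - ⟨L, L⟩))).trans_lt hx
    rw [abs_lt] at h1 h2
    simp only [Complex.sub_re, Complex.sub_im, hqre, hqim] at h1 h2
    have e1 : (gm ce x).re = 51 * (x.re - 5 / 204 * 20) := by
      simp only [gm, Complex.re_ofReal_mul, Complex.sub_re, cn, hce20]
    have e2 : (gm ce x).im = 51 * (x.im - 5 / 204 * 20) := by
      simp only [gm, Complex.im_ofReal_mul, Complex.sub_im, cn, hce20]
    have hLv : L = 1 / 2601 := by rw [hL]; norm_num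
    rw [hLv] at h1 h2
    refine ⟨⟨?_, ?_⟩, ?_, ?_⟩
    · rw [e1]; linarith [h1.1]
    · rw [e1]; linarith [h1.2]
    · rw [e2]; linarith [h2.1]
    · rw [e2]; linarith [h2.2]
  have hballU : ball (q - ⟨L, L⟩) (6 * L) ⊆ U := by
    intro x hx
    have h1 := hball x hx
    have h2 : fm ce (gm ce x) = x := fm_gm ce x
    refine ⟨?_, fun hxA => hATd x hxA _ h1 h2.symm⟩
    rw [← h2]; exact fm_Sb h1 ce
  obtain ⟨v₀, hv₀, hpos⟩ := start hTcl hL0 hqT hw hballU
  have hchain := chain hUo hUc hTcl hTd hv₀ (hballU (mem_ball_self (by positivity))) hw hpos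
  -- the ring
  set V₀ : Set ℂ := {z : ℂ | (-(1 / 10) < z.re ∧ z.re < 11 / 10) ∧ (-(1 / 10) < z.im ∧ z.im < 11 / 10)} with hV₀
  have hV₀o : IsOpen V₀ := isOpen_box _ _
  have hcl : closure V₀ ⊆ {z : ℂ | (-(1 / 10) ≤ z.re ∧ z.re ≤ 11 / 10) ∧ (-(1 / 10) ≤ z.im ∧ z.im ≤ 11 / 10)} := by
    apply closure_minimal _ (isClosed_box _ _)
    rintro z ⟨⟨h1, h2⟩, h3, h4⟩
    exact ⟨⟨h1.le, h2.le⟩, h3.le, h4.le⟩
  have hKV : KK ⊆ V₀ := by
    intro z hz
    have h1 := CC_sub hz.1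
    have h2 := CC_sub hz.2
    refine ⟨⟨?_, ?_⟩, ?_, ?_⟩ <;> linarith
  have hfrc : IsCompact (frontier V₀) :=
    (isCompact_box _ _).of_isClosed_subset isClosed_frontier (frontier_subset_closure.trans hcl)
  have hfrV : ∀ x ∈ frontier V₀, x ∉ V₀ := by
    intro x hx
    rw [hV₀o.frontier_eq] at hx; exact hx.2
  have hfrU : frontier V₀ ⊆ U := by
    intro x hx
    refine ⟨?_, fun hxA => hfrV x hx (hKV (hAK hxA))⟩
    obtain ⟨⟨h1, h2⟩, h3, h4⟩ := hcl (frontier_subset_closure hx)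
    refine ⟨⟨?_, ?_⟩, ?_, ?_⟩ <;> linarith
  have hfrT : Disjoint (frontier V₀) T := by
    rw [Set.disjoint_left]
    intro x hx hxT
    exact hfrV x hx (hKV (hTK hxT))
  obtain ⟨v, hv, c, hc, hcv⟩ := chain_compact hTcl hv₀ hchain hfrc hfrU hfrT
  refine ⟨min c (1 / 2), lt_min hc (by norm_num), lt_of_le_of_lt (min_le_right _ _) (by norm_num), V₀, v, hV₀o,
    (FF_sub 0).trans hKV, ?_, ⟨?_, ?_, ?_, ?_⟩, ?_, hv.nonneg, ?_, ?_⟩
  · intro x hx
    rw [mem_thickening_iff]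
    refine ⟨0, FF_zero_mem 0, ?_⟩
    obtain ⟨⟨h1, h2⟩, h3, h4⟩ := hcl hx
    rw [dist_zero_right]
    have h5 : ‖x‖ ^ 2 < 2 ^ 2 := by
      rw [← Complex.normSq_eq_norm_sq, Complex.normSq_apply]
      nlinarith
    exact (sq_lt_sq₀ (norm_nonneg _) (by norm_num)).1 h5
  · exact hv.cont.mono (compl_subset_compl.2 hTK)
  · exact fun x _ => hv.nonneg x
  · exact fun x hx => hv.le_one x (fun h => hx (hTK h))
  · exact fun x hx => hv.mean x (fun h => hx (hTK h))
  · exact fun x hx => hv.zero x (fun h => hx h.1)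
  · exact fun x hx _ => (min_le_left _ _).trans (hcv x hx)
  · intro ζ hζ
    have hζA : ζ ∈ A := by
      rw [FF_zero] at hζ
      simp only [mem_iUnion] at hζ
      obtain ⟨d, hd, w, hw', rfl⟩ := hζ
      exact mem_biUnion (x := d) hd ⟨w, FF_sub 0 hw', rfl⟩
    have hζT : ζ ∉ T := by
      rintro ⟨y, hy, h⟩
      exact hATd ζ hζA y (KK_sub_Sb hy) h.symm
    have h1 : ContinuousAt v ζ := hv.cont.continuousAt (hTcl.isOpen_compl.mem_nhds hζT)
    have h2 : v ζ = 0 := hv.zero ζ (fun h => h.2 hζA)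
    have h3 := h1.tendsto
    rw [h2] at h3
    exact h3.mono_left nhdsWithin_le_nhds

theorem dat_mono {F : Set ℂ} {η η' c₀ : ℝ} (h : Dat F η c₀) (hη : η ≤ η') : Dat F η' c₀ := by
  obtain ⟨V, v, h1, h2, h3, h4⟩ := h
  exact ⟨V, v, h1, h2, h3.trans (thickening_mono hη F), h4⟩

theorem dat_zero {c₀ : ℝ} (h : Dat (FF 0) 2 c₀) (m : ℕ) : Dat (FF 0) ((1 / 51) ^ m * 2) c₀ := by
  induction m with
  | zero => simpa using h
  | succ m ih =>
    have := ih.step (FF_sub 0) (Finset.univ.erase ce : Finset DD) ⟨(0, 0), by simp⟩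
    rw [← FF_zero] at this
    rw [pow_succ, mul_comm _ (1 / 51 : ℝ), mul_assoc]
    exact this

theorem dat_all {c₀ : ℝ} (h : Dat (FF 0) 2 c₀) (n : ℕ) : ∀ η > 0, Dat (FF n) η c₀ := by
  induction n with
  | zero =>
    intro η hη
    obtain ⟨m, hm⟩ := exists_pow_lt_of_lt_one (show 0 < η / 2 by positivity) (show (1 / 51 : ℝ) < 1 by norm_num)
    exact dat_mono (dat_zero h m) (by linarith)
  | succ n ih =>
    intro η hη
    have := (ih (51 * η) (by positivity)).step (FF_sub n) (Finset.univ : Finset DD) Finset.univ_nonempty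
    rw [← FF_succ] at this
    convert this using 1
    ring

end Pool.Agent.H32R3.AD
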