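import Mathlib
import Pool.Agent.H32R3.AD.Base

set_option maxHeartbeats 4000000

namespace Pool.Agent.H32R3.AD

open MeasureTheory Filter Topology Set Metric Real
open scoped ENNReal

/-- the closed central square -/
def QQ : Set ℂ := {y | (100 / 204 ≤ y.re ∧ y.re ≤ 104 / 204) ∧ (100 / 204 ≤ y.im ∧ y.im ≤ 104 / 204)}

def Hit (q : ℤ) : Prop := ∀ y ∈ QQ, ∀ r : ℝ, 25 / 204 ≤ r → r ≤ 100 / 204 →
  ∃ ψ : ℝ, q * (π / 2) + 3 / 10 ≤ ψ ∧ ψ ≤ (q + 1) * (π / 2) - 3 / 10 ∧ y + r * Complex.exp (ψ * Complex.I) ∈ KK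

theorem angle_of {X Y r : ℝ} (hX : 0 < X) (hY : 0 < Y) (h1 : X ≤ 3 * Y) (h2 : Y ≤ 3 * X) (hr : 0 < r)
    (h : X ^ 2 + Y ^ 2 = r ^ 2) :
    ∃ ψ : ℝ, 3 / 10 ≤ ψ ∧ ψ ≤ π / 2 - 3 / 10 ∧ (r : ℂ) * Complex.exp (ψ * Complex.I) = ⟨X, Y⟩ := by
  set w : ℂ := ⟨X, Y⟩ with hw
  have hn : ‖w‖ = r := by
    have : ‖w‖ ^ 2 = r ^ 2 := by
      rw [← Complex.normSq_eq_norm_sq, Complex.normSq_apply, ← h]; ring
    exact (sq_eq_sq₀ (norm_nonneg _) hr.le).1 this
  have hw0 : w ≠ 0 := by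
    intro h0
    rw [h0, norm_zero] at hn
    linarith
  have hsin : Real.sin w.arg = Y / r := by rw [Complex.sin_arg, hn]
  have hcos : Real.cos w.arg = X / r := by rw [Complex.cos_arg hw0, hn]
  have hs : 3 / 10 ≤ Real.sin w.arg := by
    rw [hsin, le_div_iff₀ hr]
    nlinarith
  have hc : 3 / 10 ≤ Real.cos w.arg := by
    rw [hcos, le_div_iff₀ hr]
    nlinarith
  have h0 : 0 ≤ w.arg := by
    rw [Complex.arg_nonneg_iff]; exact hY.le
  have h90 : w.arg ≤ π / 2 := by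
    have := Complex.abs_arg_le_pi_div_two_iff.2 (show 0 ≤ w.re from hX.le)
    exact (abs_le.1 this).2
  refine ⟨w.arg, hs.trans (Real.sin_le h0), ?_, ?_⟩
  · have h3 : Real.sin (π / 2 - w.arg) ≤ π / 2 - w.arg := Real.sin_le (by linarith)
    rw [Real.sin_pi_div_two_sub] at h3
    linarith
  · rw [← hn]
    exact Complex.norm_mul_exp_arg_mul_I w

theorem hit_zero : Hit 0 := by
  rintro y ⟨⟨h1, h2⟩, h3, h4⟩ r hr1 hr2
  have hr0 : 0 < r := by linarith
  set A : ℝ := 100 / 204 - y.re with hA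
  set B : ℝ := 100 / 204 - y.im with hB
  obtain ⟨i, j, a1, a2, a3, a4, a5, a6, a7⟩ := stair (A := A) (B := B) (L := 1) (r := r) one_pos 3 17
    (by
      intro i hi _
      have : (3 : ℝ) ≤ i := by exact_mod_cast hi
      linarith)
    (by
      intro i hi _
      have : (3 : ℝ) ≤ i := by exact_mod_cast hi
      linarith)
    (by
      push_cast
      nlinarith)
    (by
      push_cast
      nlinarith)
  have hi3 : (3 : ℝ) ≤ i := by exact_mod_cast a1
  have hj3 : (3 : ℝ) ≤ j := by exact_mod_cast a3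
  have hij : (j : ℝ) ≤ i ∧ (i : ℝ) ≤ j + 1 := by
    rcases a5 with h | h
    · rw [h]; constructor <;> linarith
    · rw [h]; push_cast; constructor <;> linarith
  obtain ⟨hij1, hij2⟩ := hij
  obtain ⟨s, hs, t, ht, hst⟩ := hit (A := A + 5 / 204 * 1 * i) (B := B + 5 / 204 * 1 * j) (L := 1 / 51) (r := r)
    (by norm_num) (by linarith) (by linarith) (by linarith) (by linarith) a6 (by
      rw [show (1 : ℝ) / 51 * 1 = 1 / 51 by norm_num] at a7
      exact a7)
  have hs' := CC_sub hs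
  have ht' := CC_sub ht
  obtain ⟨ψ, p1, p2, p3⟩ := angle_of (X := A + 5 / 204 * 1 * i + 1 / 51 * s) (Y := B + 5 / 204 * 1 * j + 1 / 51 * t)
    (r := r) (by linarith) (by linarith) (by linarith) (by linarith) hr0 hst
  refine ⟨ψ, by push_cast; linarith, by push_cast; linarith, ?_⟩
  rw [p3]
  have hi' : 20 + i < 41 := by omega
  have hj' : 20 + j < 41 := by omega
  constructor
  · have := CC_cons hs ⟨20 + i, hi'⟩
    convert this using 1
    simp only [Complex.add_re, hA]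
    push_cast
    ring
  · have := CC_cons ht ⟨20 + j, hj'⟩
    convert this using 1
    simp only [Complex.add_im, hB]
    push_cast
    ring

theorem hit_succ {q : ℤ} (h : Hit q) : Hit (q + 1) := by
  rintro y ⟨⟨h1, h2⟩, h3, h4⟩ r hr1 hr2
  obtain ⟨ψ, p1, p2, p3⟩ := h ⟨y.im, 1 - y.re⟩ ⟨⟨h3, h4⟩, by simp only; linarith, by simp only; linarith⟩ r hr1 hr2
  refine ⟨ψ + π / 2, by push_cast; linarith, by push_cast; linarith, ?_⟩
  have e : Complex.exp (((ψ + π / 2 : ℝ) : ℂ) * Complex.I) = Complex.I * Complex.exp (ψ * Complex.I) := by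
    push_cast
    rw [add_mul, Complex.exp_add, Complex.exp_pi_div_two_mul_I, mul_comm]
  rw [e]
  obtain ⟨k1, k2⟩ := p3
  constructor
  · have := CC_symm k2
    convert this using 1
    simp
    ring
  · convert k1 using 1
    simp

theorem hit_pred {q : ℤ} (h : Hit q) : Hit (q - 1) := by
  rintro y ⟨⟨h1, h2⟩, h3, h4⟩ r hr1 hr2
  obtain ⟨ψ, p1, p2, p3⟩ := h ⟨1 - y.im, y.re⟩ ⟨⟨by simp only; linarith, by simp only; linarith⟩, h1, h2⟩ r hr1 hr2
  refine ⟨ψ - π / 2, by push_cast; linarith, by push_cast; linarith, ?_⟩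
  have e : Complex.exp (((ψ - π / 2 : ℝ) : ℂ) * Complex.I) = - Complex.I * Complex.exp (ψ * Complex.I) := by
    push_cast
    rw [sub_mul, Complex.exp_sub, Complex.exp_pi_div_two_mul_I, div_eq_mul_inv, Complex.inv_I, mul_comm]
  rw [e]
  obtain ⟨k1, k2⟩ := p3
  constructor
  · convert k2 using 1
    simp
  · have := CC_symm k1
    convert this using 1
    simp
    ring

theorem hit_all (q : ℤ) : Hit q := by
  induction q using Int.induction_on with
  | zero => exact hit_zero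
  | succ i ih => exact hit_succ ih
  | pred i ih => exact hit_pred ih

theorem blocked {y : ℂ} (hy : y ∈ QQ) {r : ℝ} (hr1 : 25 / 204 ≤ r) (hr2 : r ≤ 100 / 204) {φ₁ φ₂ : ℝ}
    (h : π - 6 / 10 < φ₂ - φ₁) : ∃ ψ, φ₁ < ψ ∧ ψ < φ₂ ∧ y + r * Complex.exp (ψ * Complex.I) ∈ KK := by
  have hpi := pi_pos
  set q : ℤ := ⌊(φ₁ - 3 / 10) / (π / 2)⌋ + 1 with hq
  obtain ⟨ψ, p1, p2, p3⟩ := hit_all q y hy r hr1 hr2
  have hf1 : (⌊(φ₁ - 3 / 10) / (π / 2)⌋ : ℝ) ≤ (φ₁ - 3 / 10) / (π / 2) := Int.floor_le _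
  have hf2 : (φ₁ - 3 / 10) / (π / 2) < ⌊(φ₁ - 3 / 10) / (π / 2)⌋ + 1 := Int.lt_floor_add_one _
  rw [le_div_iff₀ (by positivity)] at hf1
  rw [div_lt_iff₀ (by positivity)] at hf2
  have hqr : (q : ℝ) = ⌊(φ₁ - 3 / 10) / (π / 2)⌋ + 1 := by rw [hq]; push_cast; ring
  rw [hqr] at p1 p2
  refine ⟨ψ, by linarith, by linarith, p3⟩

/-- a point with infinitely many central digits. -/
theorem bad_scale {z : ℂ} {a b : ℕ → Fin 41} (h1 : z.re = cx a) (h2 : z.im = cx b) {m : ℕ}
    (ha : a m = 20) (hb : b m = 20) {r : ℝ} (hr1 : 25 / 204 * (1 / 51) ^ m ≤ r) (hr2 : r ≤ 100 / 204 * (1 / 51) ^ m)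
    {φ₁ φ₂ : ℝ} (h : π - 6 / 10 < φ₂ - φ₁) :
    ∃ ψ, φ₁ < ψ ∧ ψ < φ₂ ∧ z + r * Complex.exp (ψ * Complex.I) ∈ KK := by
  obtain ⟨X, hX1, hX2⟩ := cx_level m a
  obtain ⟨Y, hY1, hY2⟩ := cx_level m b
  have hp : (0 : ℝ) < (1 / 51) ^ m := by positivity
  have e20 : (((20 : Fin 41) : ℕ) : ℝ) = 20 := by norm_num
  have q1 : 100 / 204 ≤ cx (fun k => a (k + m)) ∧ cx (fun k => a (k + m)) ≤ 104 / 204 := by
    rw [cx_cons]
    simp only [zero_add, ha, e20]
    have := cx_nonneg (fun k => a (k + 1 + m))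
    have := cx_le_one (fun k => a (k + 1 + m))
    constructor <;> linarith
  have q2 : 100 / 204 ≤ cx (fun k => b (k + m)) ∧ cx (fun k => b (k + m)) ≤ 104 / 204 := by
    rw [cx_cons]
    simp only [zero_add, hb, e20]
    have := cx_nonneg (fun k => b (k + 1 + m))
    have := cx_le_one (fun k => b (k + 1 + m))
    constructor <;> linarith
  obtain ⟨ψ, p1, p2, p3⟩ := blocked (y := ⟨cx (fun k => a (k + m)), cx (fun k => b (k + m))⟩) ⟨q1, q2⟩
    (r := r / (1 / 51) ^ m) (by rw [le_div_iff₀ hp]; exact hr1) (by rw [div_le_iff₀ hp]; exact hr2) h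
  refine ⟨ψ, p1, p2, ?_⟩
  obtain ⟨k1, k2⟩ := p3
  constructor
  · have := hX2 _ k1
    convert this using 1
    simp only [Complex.add_re, Complex.re_ofReal_mul, h1, hX1]
    field_simp
    ring
  · have := hY2 _ k2
    convert this using 1
    simp only [Complex.add_im, Complex.im_ofReal_mul, h2, hY1]
    field_simp
    ring

/-- estimate of the mean. -/
theorem mean_small {R : ℝ} (hR : 0 < R) {f : ℝ → ℝ} (h1 : ∀ r, 0 < r → r ≤ R → f r ≤ 2 * π)
    (h2 : ∀ r, R / 4 ≤ r → r ≤ R → f r ≤ π - 6 / 10) :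
    1 / (π * R ^ 2) * ∫ r in (0)..R, f r * r ≤ 9 / 20 := by
  have hpi := pi_pos
  by_cases hint : IntervalIntegrable (fun r => f r * r) volume 0 R
  · have hi1 : IntervalIntegrable (fun r => f r * r) volume 0 (R / 4) := by
      apply hint.mono_set
      rw [uIcc_of_le (by linarith), uIcc_of_le hR.le]
      exact Icc_subset_Icc_right (by linarith)
    have hi2 : IntervalIntegrable (fun r => f r * r) volume (R / 4) R := by
      apply hint.mono_set
      rw [uIcc_of_le (by linarith), uIcc_of_le hR.le]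
      exact Icc_subset_Icc_left (by linarith)
    rw [← intervalIntegral.integral_add_adjacent_intervals hi1 hi2]
    have b1 : ∫ r in (0)..(R / 4), f r * r ≤ ∫ r in (0)..(R / 4), (2 * π) * r := by
      apply intervalIntegral.integral_mono_on (by linarith) hi1
      · apply Continuous.intervalIntegrable; fun_prop
      · intro r hr
        rcases eq_or_lt_of_le hr.1 with h | h
        · rw [← h]; simp
        · exact mul_le_mul_of_nonneg_right (h1 r h (by linarith [hr.2])) h.le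
    have b2 : ∫ r in (R / 4)..R, f r * r ≤ ∫ r in (R / 4)..R, (π - 6 / 10) * r := by
      apply intervalIntegral.integral_mono_on (by linarith) hi2
      · apply Continuous.intervalIntegrable; fun_prop
      · intro r hr
        exact mul_le_mul_of_nonneg_right (h2 r hr.1 hr.2) (by linarith [hr.1])
    rw [intervalIntegral.integral_const_mul, integral_id] at b1 b2
    have hpi2 : π < 3.15 := Real.pi_lt_d2
    rw [one_div, inv_mul_le_iff₀ (by positivity)]
    nlinarith [mul_pos hR hR]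
  · rw [intervalIntegral.integral_undef hint]
    norm_num

end Pool.Agent.H32R3.AD
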