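import Mathlib
import Pool.Agent.H32R3.AD.Iter
import Pool.Agent.H32R3.AD.ExG

set_option maxHeartbeats 4000000

namespace Pool.Agent.H32R3.AD

open MeasureTheory Filter Topology Set Metric Real
open scoped ENNReal

/-- the escape property of a set F of boundary points. -/
def Escape (Ω F : Set ℂ) (σ κ ρ₀ : ℝ) : Prop :=
  ∀ w ∈ Ω, infDist w F < ρ₀ → ∃ ρ > 0, ∃ z : ℂ, (∀ ζ ∈ F, (1 + 2 * σ) * ρ ≤ dist ζ w) ∧
    ENNReal.ofReal (κ * ρ) ≤ volume ((fun k => dist k z) '' (Ωᶜ ∩ closedBall w ρ))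

theorem exists_v {Ω : Set ℂ} (hΩ : IsOpen Ω) {F : Set ℂ} (hFne : F.Nonempty)
    {σ κ ρ₀ : ℝ} (hσ : 0 < σ) (hσ1 : σ ≤ 1) (hκ : 0 < κ) (hesc : Escape Ω F σ κ ρ₀)
    {η : ℝ} (hη : 0 < η) (hη1 : η < ρ₀) :
    ∃ v, Sub Ω v ∧ (∀ x ∈ Ω, infDist x F = η → κ / 8 * Real.log (1 + σ) ≤ v x) ∧
      (∀ x ∈ Ω, infDist x F < σ / (1 + 2 * σ) * η → v x = 0) := by
  set A : Set ℂ := {w | w ∈ Ω ∧ infDist w F = η} with hA
  have hΩc : IsClosed (Ωᶜ : Set ℂ) := hΩ.isClosed_compl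
  have h1 : ∀ w : A, ∃ ρ > 0, ρ ≤ η / (1 + 2 * σ) ∧ ∃ G : ℂ → ℝ, (∀ x, 0 ≤ G x) ∧ (∀ x ∉ Ωᶜ, G x ≤ 1) ∧
      (∀ x, (1 + σ) * ρ ≤ dist x w.1 → G x = 0) ∧
      (w.1 ∉ Ωᶜ → κ / 8 * Real.log (1 + σ) ≤ G w.1) ∧
      (∀ x ∉ Ωᶜ, ∃ δ > 0, ∀ r, 0 < r → r < δ → G x ≤ circleAverage G x r) ∧
      (∀ d > 0, ∀ x x', (∀ k ∈ Ωᶜ, d ≤ dist x k) → (∀ k ∈ Ωᶜ, d ≤ dist x' k) →
        |G x - G x'| ≤ ((2 * ρ) / d ^ 2 + (2 * ρ) ^ 2 / d ^ 3) * dist x x') := by
    rintro ⟨w, hw, hwF⟩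
    obtain ⟨ρ, hρ, z, h2, h3⟩ := hesc w hw (by rw [hwF]; exact hη1)
    refine ⟨ρ, hρ, ?_, exists_G hΩc hρ hσ hσ1 hκ h3⟩
    rw [le_div_iff₀ (by positivity), mul_comm, ← hwF]
    rw [Metric.le_infDist hFne]
    intro ζ hζ
    rw [dist_comm]
    exact h2 ζ hζ
  choose ρ hρ hρη G hG0 hG1 hG2 hG3 hG4 hG5 using h1
  have hρη' : ∀ w, ρ w ≤ η := fun w => (hρη w).trans (div_le_self hη.le (by linarith))
  have hG1' : ∀ w, ∀ x ∈ Ω, G w x ≤ 1 := fun w x hx => hG1 w x (by simpa using hx)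
  have hGlip : ∀ w, ∀ d > 0, ∀ x x', (∀ k ∈ Ωᶜ, d ≤ dist x k) → (∀ k ∈ Ωᶜ, d ≤ dist x' k) →
        |G w x - G w x'| ≤ ((2 * η) / d ^ 2 + (2 * η) ^ 2 / d ^ 3) * dist x x' := by
    intro w d hd x x' hx hx'
    refine (hG5 w d hd x x' hx hx').trans ?_
    have := hρη' w
    have := hρ w
    gcongr
  have hball : ∀ x₀ ∈ Ω, ∃ d > 0, closedBall x₀ (2 * d) ⊆ Ω ∧
      ∀ x ∈ ball x₀ d, ∀ k ∈ Ωᶜ, d ≤ dist x k := by
    intro x₀ hx₀
    obtain ⟨e, he, hb⟩ := exists_ball_sub hΩ hx₀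
    refine ⟨e / 2, by positivity, by rwa [mul_div_cancel₀ _ (by norm_num)], fun x hx k hk => ?_⟩
    by_contra hcon
    push Not at hcon
    apply hk
    apply hb
    rw [mem_closedBall]
    rw [mem_ball] at hx
    have := dist_triangle_left k x₀ x
    linarith
  have hGc : ∀ w, ContinuousOn (G w) Ω := by
    intro w x₀ hx₀
    apply ContinuousAt.continuousWithinAt
    obtain ⟨d, hd, _, hb⟩ := hball x₀ hx₀
    apply continuousAt_of_locally_lipschitz hd ((2 * η) / d ^ 2 + (2 * η) ^ 2 / d ^ 3)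
    intro x hx
    rw [Real.dist_eq]
    exact hGlip w d hd x x₀ (hb x hx) (hb x₀ (mem_ball_self hd))
  set v : ℂ → ℝ := fun x => ⨆ w : A, G w x with hv
  have hbdd : ∀ x ∈ Ω, BddAbove (range fun w : A => G w x) := by
    intro x hx
    refine ⟨1, ?_⟩
    rintro _ ⟨w, rfl⟩
    exact hG1' w x hx
  have hv0 : ∀ x, 0 ≤ v x := fun x => Real.iSup_nonneg (fun w => hG0 w x)
  have hv1 : ∀ x ∈ Ω, v x ≤ 1 := fun x hx => Real.iSup_le (fun w => hG1' w x hx) zero_le_one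
  have hvlip : ∀ d > 0, ∀ x ∈ Ω, ∀ x' ∈ Ω, (∀ k ∈ Ωᶜ, d ≤ dist x k) → (∀ k ∈ Ωᶜ, d ≤ dist x' k) →
        v x - v x' ≤ ((2 * η) / d ^ 2 + (2 * η) ^ 2 / d ^ 3) * dist x x' := by
    intro d hd x hx x' hx' hdx hdx'
    have h2 : v x ≤ v x' + ((2 * η) / d ^ 2 + (2 * η) ^ 2 / d ^ 3) * dist x x' := by
      apply Real.iSup_le
      · intro w
        have h3 := hGlip w d hd x x' hdx hdx'
        have h4 : G w x' ≤ v x' := le_ciSup (hbdd x' hx') w
        have := (abs_le.1 h3).2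
        linarith
      · have := hv0 x'
        positivity
    linarith
  have hvc : ContinuousOn v Ω := by
    intro x₀ hx₀
    apply ContinuousAt.continuousWithinAt
    obtain ⟨d, hd, hsub, hb⟩ := hball x₀ hx₀
    apply continuousAt_of_locally_lipschitz hd ((2 * η) / d ^ 2 + (2 * η) ^ 2 / d ^ 3)
    intro x hx
    have hxΩ : x ∈ Ω := hsub (by
      rw [mem_closedBall]; linarith)
    rw [Real.dist_eq, abs_le]
    have h2 := hvlip d hd x hxΩ x₀ hx₀ (hb x hx) (hb x₀ (mem_ball_self hd))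
    have h3 := hvlip d hd x₀ hx₀ x hxΩ (hb x₀ (mem_ball_self hd)) (hb x hx)
    rw [dist_comm x₀ x] at h3
    constructor <;> linarith
  refine ⟨v, ⟨hvc, fun x _ => hv0 x, hv1, ?_⟩, ?_, ?_⟩
  · intro x hx
    obtain ⟨e, he, hb⟩ := exists_ball_sub hΩ hx
    refine ⟨e, he, fun r hr hr' => ?_⟩
    have hsub : closedBall x r ⊆ Ω := (closedBall_subset_closedBall hr'.le).trans hb
    apply Real.iSup_le
    · intro w
      have h2 := local_to_global (Ω := Ω) (G w) (hGc w) (fun x' hx' => hG4 w x' (by simpa using hx')) x r hr hsub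
      refine h2.trans (circleAverage_mono (circInt (hGc w) hr hsub) (circInt hvc hr hsub) ?_)
      intro y hy
      rw [abs_of_pos hr] at hy
      exact le_ciSup (hbdd y (hsub (sphere_subset_closedBall hy))) w
    · exact circleAverage_nonneg_of_nonneg (fun y _ => hv0 y)
  · intro x hx hxη
    exact (hG3 ⟨x, hx, hxη⟩ (by simpa using hx)).trans (le_ciSup (hbdd x hx) ⟨x, hx, hxη⟩)
  · intro x hx hxη
    have h2 : ∀ w : A, G w x = 0 := by
      intro w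
      apply hG2
      have h3 : infDist w.1 F ≤ infDist x F + dist w.1 x := infDist_le_infDist_add_dist
      rw [w.2.2, dist_comm] at h3
      have h4 := hρη w
      have h5 : (1 + σ) * ρ w ≤ (1 + σ) * (η / (1 + 2 * σ)) := by gcongr
      have h6 : (1 + σ) * (η / (1 + 2 * σ)) = η - σ / (1 + 2 * σ) * η := by
        field_simp
        ring
      linarith
    simp only [hv, h2]
    exact Real.iSup_const_zero

theorem null_of_escape {Ω : Set ℂ} (hΩ : IsOpen Ω) {F : Set ℂ} (hF : IsCompact F) (hFΩ : Disjoint F Ω)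
    {σ κ ρ₀ : ℝ} (hσ : 0 < σ) (hσ1 : σ ≤ 1) (hκ : 0 < κ) (hκ1 : κ ≤ 1) (hρ₀ : 0 < ρ₀)
    (hesc : Escape Ω F σ κ ρ₀) :
    ∀ z₀ ∈ Ω, ∀ ε : ℝ, 0 < ε → ∃ s, Good Ω F s ∧ s z₀ ≤ ε := by
  intro z₀ hz₀ ε hε
  rcases F.eq_empty_or_nonempty with hFe | hFne
  · refine ⟨fun _ => 0, ⟨continuousOn_const, fun _ _ => le_rfl, fun _ _ => zero_le_one, ?_, ?_⟩, hε.le⟩
    · intro x hx
      exact ⟨1, one_pos, fun r _ _ => (circleAverage_const 0 x r).le⟩
    · intro ζ hζ; rw [hFe] at hζ; exact absurd hζ (notMem_empty _)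
  set c₀ : ℝ := κ / 8 * Real.log (1 + σ) with hc₀
  have hlog : 0 < Real.log (1 + σ) := Real.log_pos (by linarith)
  have hc : 0 < c₀ := by positivity
  have hlog1 : Real.log (1 + σ) ≤ 1 := by
    have := Real.log_le_sub_one_of_pos (show 0 < 1 + σ by linarith)
    linarith
  have hc1 : c₀ < 1 := by
    rw [hc₀]
    nlinarith
  have H : ∀ η > 0, ∃ V : Set ℂ, ∃ v : ℂ → ℝ, IsOpen V ∧ F ⊆ V ∧ closure V ⊆ thickening η F ∧
      Sub Ω v ∧ (∀ x ∈ frontier V, x ∈ Ω → c₀ ≤ v x) ∧ ∀ ζ ∈ F, Tendsto v (𝓝[Ω] ζ) (𝓝 0) := by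
    intro η hη
    set η' : ℝ := min η ρ₀ / 2 with hη'
    have hm : 0 < min η ρ₀ := lt_min hη hρ₀
    have hη'0 : 0 < η' := by positivity
    have hη'1 : η' < η := by
      have := min_le_left η ρ₀; rw [hη']; linarith
    have hη'2 : η' < ρ₀ := by
      have := min_le_right η ρ₀; rw [hη']; linarith
    obtain ⟨v, hv, hv1, hv2⟩ := exists_v hΩ hFne hσ hσ1 hκ hesc hη'0 hη'2
    have hcont : Continuous (fun x => infDist x F) := continuous_infDist_pt F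
    refine ⟨{x | infDist x F < η'}, v, isOpen_lt hcont continuous_const, ?_, ?_, hv, ?_, ?_⟩
    · intro x hx
      have : infDist x F = 0 := infDist_zero_of_mem hx
      show infDist x F < η'
      rw [this]; exact hη'0
    · intro x hx
      have h1 : x ∈ {x | infDist x F ≤ η'} := by
        have h2 : closure {x | infDist x F < η'} ⊆ {x | infDist x F ≤ η'} :=
          closure_lt_subset_le hcont continuous_const
        exact h2 hx
      rw [mem_thickening_iff_infDist_lt hFne]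
      exact lt_of_le_of_lt h1 hη'1
    · intro x hx hxΩ
      have h1 : x ∈ {x | infDist x F = η'} := frontier_lt_subset_eq hcont continuous_const hx
      exact hv1 x hxΩ h1
    · intro ζ hζ
      have h1 : ∀ᶠ x in 𝓝[Ω] ζ, v x = 0 := by
        have h2 : ∀ᶠ x in 𝓝 ζ, infDist x F < σ / (1 + 2 * σ) * η' := by
          have h3 : infDist ζ F < σ / (1 + 2 * σ) * η' := by
            rw [infDist_zero_of_mem hζ]; positivity
          exact (hcont.tendsto ζ).eventually (gt_mem_nhds h3)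
        filter_upwards [mem_nhdsWithin_of_mem_nhds h2, self_mem_nhdsWithin] with x hx hxΩ
        exact hv2 x hxΩ hx
      exact tendsto_const_nhds.congr' (by filter_upwards [h1] with x hx using hx.symm)
  have hd : 0 < 1 - c₀ / 2 := by linarith
  have hq : (1 - c₀) / (1 - c₀ / 2) < 1 := by
    rw [div_lt_one hd]; linarith
  obtain ⟨n, hn⟩ := exists_pow_lt_of_lt_one hε hq
  obtain ⟨s, hs, hsz⟩ := iterate hΩ hF hFΩ hc hc1 H hz₀ n
  exact ⟨s, hs, hsz.trans hn.le⟩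

end Pool.Agent.H32R3.AD
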