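import Mathlib
import Pool.Agent.H32R3.AD.Esc

set_option maxHeartbeats 4000000

namespace Pool.Agent.H32R3.AD

open MeasureTheory Filter Topology Set Metric Real
open scoped ENNReal

/-- largest angular measure (capped at π) of a closed arc of the circle of radius r about z inside Ω. -/
noncomputable def theta (Ω : Set ℂ) (z : ℂ) (r : ℝ) : ℝ :=
  sSup {t : ℝ | 0 ≤ t ∧ t ≤ π ∧ ∃ a : ℝ, ∀ φ ∈ Icc a (a + t), circleMap z r φ ∈ Ω}

theorem theta_bdd (Ω : Set ℂ) (z : ℂ) (r : ℝ) :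
    BddAbove {t : ℝ | 0 ≤ t ∧ t ≤ π ∧ ∃ a : ℝ, ∀ φ ∈ Icc a (a + t), circleMap z r φ ∈ Ω} :=
  ⟨π, fun _ h => h.2.1⟩

theorem theta_nonneg (Ω : Set ℂ) (z : ℂ) (r : ℝ) : 0 ≤ theta Ω z r :=
  Real.sSup_nonneg (fun _ h => h.1)

theorem theta_le (Ω : Set ℂ) (z : ℂ) (r : ℝ) : theta Ω z r ≤ π :=
  Real.sSup_le (fun _ h => h.2.1) pi_pos.le

theorem le_theta {Ω : Set ℂ} {z : ℂ} {r t a : ℝ} (h0 : 0 ≤ t) (h1 : t ≤ π)
    (h : ∀ φ ∈ Icc a (a + t), circleMap z r φ ∈ Ω) : t ≤ theta Ω z r :=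
  le_csSup (theta_bdd Ω z r) ⟨h0, h1, a, h⟩

theorem exists_arc {Ω : Set ℂ} {z : ℂ} {r t : ℝ} (h0 : 0 ≤ t) (h : t < theta Ω z r) :
    ∃ a, ∀ φ ∈ Icc a (a + t), circleMap z r φ ∈ Ω := by
  have hne : {t : ℝ | 0 ≤ t ∧ t ≤ π ∧ ∃ a : ℝ, ∀ φ ∈ Icc a (a + t), circleMap z r φ ∈ Ω}.Nonempty := by
    by_contra hcon
    rw [Set.not_nonempty_iff_eq_empty] at hcon
    rw [theta, hcon, Real.sSup_empty] at h
    linarith
  obtain ⟨s, ⟨_, _, a, ha⟩, hs⟩ := exists_lt_of_lt_csSup hne h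
  exact ⟨a, fun φ hφ => ha φ ⟨hφ.1, by linarith [hφ.2]⟩⟩

theorem measurable_theta {Ω : Set ℂ} (hΩ : IsOpen Ω) (z : ℂ) : Measurable (theta Ω z) := by
  apply measurable_of_Ioi
  intro c
  by_cases hc : 0 ≤ c
  · have h1 : theta Ω z ⁻¹' Ioi c = ⋃ t ∈ Ioc c π, ⋃ a : ℝ, {r | ∀ φ ∈ Icc a (a + t), circleMap z r φ ∈ Ω} := by
      ext r
      simp only [mem_preimage, mem_Ioi, mem_iUnion, exists_prop]
      constructor
      · intro h
        have hne : {t : ℝ | 0 ≤ t ∧ t ≤ π ∧ ∃ a : ℝ, ∀ φ ∈ Icc a (a + t), circleMap z r φ ∈ Ω}.Nonempty := by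
          by_contra hcon
          rw [Set.not_nonempty_iff_eq_empty] at hcon
          rw [theta, hcon, Real.sSup_empty] at h
          linarith
        obtain ⟨s, ⟨h2, h3, a, ha⟩, hs⟩ := exists_lt_of_lt_csSup hne h
        exact ⟨s, ⟨hs, h3⟩, a, ha⟩
      · rintro ⟨t, ht, a, ha⟩
        exact ht.1.trans_le (le_theta (hc.trans ht.1.le) ht.2 ha)
    rw [h1]
    apply IsOpen.measurableSet
    refine isOpen_biUnion fun t _ => isOpen_iUnion fun a => ?_
    rw [isOpen_iff_mem_nhds]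
    intro r hr
    apply isCompact_Icc.eventually_forall_of_forall_eventually
    intro φ hφ
    have hcm : Continuous (fun p : ℝ × ℝ => circleMap z p.1 p.2) := by
      unfold circleMap; fun_prop
    exact (hcm.tendsto (r, φ)).eventually (hΩ.mem_nhds (hr φ hφ))
  · have : theta Ω z ⁻¹' Ioi c = univ := by
      ext r
      simp only [mem_preimage, mem_Ioi, mem_univ, iff_true]
      push Not at hc
      exact hc.trans_le (theta_nonneg Ω z r)
    rw [this]; exact MeasurableSet.univ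

theorem intInt_theta {Ω : Set ℂ} (hΩ : IsOpen Ω) (z : ℂ) (a b : ℝ) :
    IntervalIntegrable (fun r => theta Ω z r * r) volume a b := by
  have h1 : IntervalIntegrable (fun r => π * |r|) volume a b := by
    apply Continuous.intervalIntegrable; fun_prop
  apply h1.mono_fun
  · exact ((measurable_theta hΩ z).mul measurable_id).aestronglyMeasurable
  · refine ae_of_all _ fun r => ?_
    show ‖theta Ω z r * r‖ ≤ ‖π * |r|‖
    rw [norm_mul, norm_mul, Real.norm_of_nonneg (theta_nonneg Ω z r), Real.norm_of_nonneg pi_pos.le,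
      Real.norm_eq_abs, Real.norm_eq_abs, abs_abs]
    exact mul_le_mul_of_nonneg_right (theta_le Ω z r) (abs_nonneg _)

/-- geometry of the half circle inside a disc. -/
theorem arc_in_disc {Ω : Set ℂ} {z w : ℂ} {ρ e r : ℝ} (he : 0 < e) (he1 : e ≤ 1 / 8) (hρ : 0 < ρ)
    (hzw : dist z w ≤ (1 + e ^ 3) * ρ) (hr1 : e ^ 2 * ρ ≤ r) (hr2 : r ≤ e * ρ)
    (hrT : r ∉ (fun k => dist k z) '' (Ωᶜ ∩ closedBall w ρ)) : π * (1 - 4 * e) ≤ theta Ω z r := by
  have hr0 : 0 < r := lt_of_lt_of_le (by positivity) hr1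
  set φ₀ := (w - z).arg with hφ₀
  set h := ‖w - z‖ with hh
  have hh0 : 0 ≤ h := norm_nonneg _
  have hh1 : h ≤ (1 + e ^ 3) * ρ := by rwa [dist_comm, dist_eq_norm] at hzw
  have hD : (h : ℂ) * Complex.exp (φ₀ * Complex.I) = w - z := Complex.norm_mul_exp_arg_mul_I (w - z)
  apply le_theta (a := φ₀ - (π / 2 - 2 * π * e)) (by
    have := pi_pos
    apply mul_nonneg this.le; linarith) (by
    have := pi_pos
    nlinarith)
  intro φ hφ
  have hψ1 : |φ - φ₀| ≤ π / 2 - 2 * π * e := by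
    rw [abs_le]; constructor
    · linarith [hφ.1]
    · have := hφ.2; linarith
  have hcos : 4 * e < Real.cos (φ - φ₀) := by
    have h1 : 2 / π * (2 * π * e) < Real.sin (2 * π * e) := by
      apply Real.mul_lt_sin
      · have := pi_pos; positivity
      · have := pi_pos; nlinarith
    have h2 : 2 / π * (2 * π * e) = 4 * e := by
      have := pi_pos; field_simp; ring
    have h3 : Real.cos (π / 2 - 2 * π * e) ≤ Real.cos (|φ - φ₀|) := by
      apply Real.cos_le_cos_of_nonneg_of_le_pi (abs_nonneg _) _ hψ1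
      have := pi_pos; nlinarith
    rw [Real.cos_abs, Real.cos_pi_div_two_sub] at h3
    linarith
  by_contra hcon
  apply hrT
  refine ⟨circleMap z r φ, ⟨hcon, ?_⟩, ?_⟩
  · rw [mem_closedBall, dist_eq_norm]
    have h1 : circleMap z r φ - w = (r : ℂ) * Complex.exp (φ * Complex.I) - (h : ℂ) * Complex.exp (φ₀ * Complex.I) := by
      rw [hD, circleMap]; ring
    have h2 : ‖circleMap z r φ - w‖ ^ 2 = r ^ 2 + h ^ 2 - 2 * r * h * Real.cos (φ - φ₀) := by
      rw [h1, ← Complex.normSq_eq_norm_sq, Complex.normSq_apply]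
      simp only [Complex.sub_re, Complex.sub_im, Complex.mul_re, Complex.mul_im, Complex.ofReal_re,
        Complex.ofReal_im, Complex.exp_ofReal_mul_I_re, Complex.exp_ofReal_mul_I_im]
      rw [Real.cos_sub]
      have e1 := Real.sin_sq_add_cos_sq φ
      have e2 := Real.sin_sq_add_cos_sq φ₀
      linear_combination (r ^ 2) * e1 + (h ^ 2) * e2
    have h3 : ‖circleMap z r φ - w‖ ^ 2 ≤ ρ ^ 2 := by
      rw [h2]
      by_cases hc : h ≤ ρ / 2
      · have : 0 ≤ 2 * r * h * Real.cos (φ - φ₀) := by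
          have : 0 ≤ Real.cos (φ - φ₀) := by linarith
          positivity
        have h4 : r ^ 2 ≤ (ρ / 2) ^ 2 := by
          apply pow_le_pow_left₀ hr0.le
          nlinarith
        have h5 : h ^ 2 ≤ (ρ / 2) ^ 2 := pow_le_pow_left₀ hh0 hc 2
        nlinarith
      · push Not at hc
        have h4 : 2 * r * (ρ / 2) * (4 * e) ≤ 2 * r * h * Real.cos (φ - φ₀) := by
          have : 2 * r * (ρ / 2) ≤ 2 * r * h := by nlinarith
          apply mul_le_mul this hcos.le (by positivity) (by positivity)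
        have h5 : h ^ 2 ≤ ((1 + e ^ 3) * ρ) ^ 2 := pow_le_pow_left₀ hh0 hh1 2
        have h6 : (1 + e ^ 3) ^ 2 ≤ 1 + 3 * e ^ 3 := by
          have : e ^ 3 ≤ 1 := pow_le_one₀ he.le (by linarith)
          nlinarith [pow_pos he 3]
        have h7 : ((1 + e ^ 3) * ρ) ^ 2 ≤ (1 + 3 * e ^ 3) * ρ ^ 2 := by
          rw [mul_pow]; gcongr
        have h8 : r ^ 2 - 2 * r * (ρ / 2) * (4 * e) ≤ - (3 * e ^ 3 * ρ ^ 2) := by
          have h9 : r ^ 2 ≤ r * (e * ρ) := by nlinarith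
          have h10 : (e ^ 2 * ρ) * (3 * e * ρ) ≤ r * (3 * e * ρ) := by
            apply mul_le_mul_of_nonneg_right hr1 (by positivity)
          nlinarith
        nlinarith
    exact (sq_le_sq₀ (norm_nonneg _) hρ.le).1 h3
  · simp only [dist_eq_norm, circleMap, add_sub_cancel_left, norm_mul, Complex.norm_real,
      Complex.norm_exp_ofReal_mul_I, mul_one, Real.norm_of_nonneg hr0.le]

/-- the average is large at a point close to a nearly empty disc. -/
theorem avg_large {Ω : Set ℂ} (hΩ : IsOpen Ω) {z w : ℂ} {ρ e : ℝ} (he : 0 < e) (he1 : e ≤ 1 / 8) (hρ : 0 < ρ)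
    (hzw : dist z w ≤ (1 + e ^ 3) * ρ)
    (hempty : volume ((fun k => dist k z) '' (Ωᶜ ∩ closedBall w ρ)) < ENNReal.ofReal (e ^ 2 * ρ)) :
    1 / 2 - 7 * e / 2 ≤ 1 / (π * (e * ρ) ^ 2) * ∫ r in (0)..(e * ρ), theta Ω z r * r := by
  set T : Set ℝ := (fun k => dist k z) '' (Ωᶜ ∩ closedBall w ρ) with hT
  have hTc : IsCompact T := ((isCompact_closedBall w ρ).inter_left hΩ.isClosed_compl).image (by fun_prop)
  have hTm : MeasurableSet T := hTc.isClosed.measurableSet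
  set R := e * ρ with hR
  have hR0 : 0 < R := by positivity
  set S : Set ℝ := Icc (e ^ 2 * ρ) R \ T with hS
  have hSm : MeasurableSet S := measurableSet_Icc.diff hTm
  have he2R : e ^ 2 * ρ ≤ R := by rw [hR]; nlinarith
  have he2 : 0 < e ^ 2 * ρ := by positivity
  have hint := intInt_theta hΩ z 0 R
  rw [intervalIntegrable_iff_integrableOn_Ioc_of_le hR0.le] at hint
  have hSsub : S ⊆ Ioc 0 R := fun r hr => ⟨he2.trans_le hr.1.1, hr.1.2⟩
  have hidint : IntegrableOn (fun r : ℝ => r) (Icc (e ^ 2 * ρ) R) := by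
    apply Continuous.integrableOn_Icc; fun_prop
  have h1 : ∫ r in S, (π * (1 - 4 * e)) * r ≤ ∫ r in Ioc 0 R, theta Ω z r * r := by
    calc ∫ r in S, (π * (1 - 4 * e)) * r ≤ ∫ r in S, theta Ω z r * r := by
          apply setIntegral_mono_on _ (hint.mono_set hSsub) hSm
          · intro r hr
            apply mul_le_mul_of_nonneg_right _ (he2.le.trans hr.1.1)
            exact arc_in_disc he he1 hρ hzw hr.1.1 hr.1.2 hr.2
          · exact (hidint.mono_set diff_subset).const_mul _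
      _ ≤ _ := by
          apply setIntegral_mono_set hint
          · rw [EventuallyLE, ae_restrict_iff' measurableSet_Ioc]
            exact ae_of_all _ fun r hr => mul_nonneg (theta_nonneg Ω z r) hr.1.le
          · exact ae_of_all _ hSsub
  have h2 : ∫ r in Icc (e ^ 2 * ρ) R, r = (R ^ 2 - (e ^ 2 * ρ) ^ 2) / 2 := by
    rw [integral_Icc_eq_integral_Ioc, ← intervalIntegral.integral_of_le he2R, integral_id]
  have h3 : ∫ r in Icc (e ^ 2 * ρ) R, r = (∫ r in Icc (e ^ 2 * ρ) R ∩ T, r) + ∫ r in S, r := by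
    rw [hS]
    exact (integral_inter_add_diff hTm hidint).symm
  have h4 : ∫ r in Icc (e ^ 2 * ρ) R ∩ T, r ≤ R * (e ^ 2 * ρ) := by
    have hfin : volume (Icc (e ^ 2 * ρ) R ∩ T) < ⊤ := lt_of_le_of_lt (measure_mono inter_subset_right) hTc.measure_lt_top
    have h5 : ∫ r in Icc (e ^ 2 * ρ) R ∩ T, r ≤ ∫ _ in Icc (e ^ 2 * ρ) R ∩ T, R := by
      apply setIntegral_mono_on (hidint.mono_set inter_subset_left) _ (measurableSet_Icc.inter hTm)
      · intro r hr; exact hr.1.2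
      · exact integrableOn_const hfin.ne
    have h6 : volume.real (Icc (e ^ 2 * ρ) R ∩ T) ≤ e ^ 2 * ρ := by
      rw [measureReal_def]
      apply ENNReal.toReal_le_of_le_ofReal he2.le
      exact (measure_mono inter_subset_right).trans hempty.le
    rw [setIntegral_const, smul_eq_mul] at h5
    nlinarith
  have h5 : (R ^ 2 - (e ^ 2 * ρ) ^ 2) / 2 - R * (e ^ 2 * ρ) ≤ ∫ r in S, r := by linarith
  rw [intervalIntegral.integral_of_le hR0.le]
  have h6 : (π * (1 - 4 * e)) * ((R ^ 2 - (e ^ 2 * ρ) ^ 2) / 2 - R * (e ^ 2 * ρ)) ≤ ∫ r in Ioc 0 R, theta Ω z r * r := by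
    refine le_trans ?_ h1
    rw [integral_const_mul]
    apply mul_le_mul_of_nonneg_left h5
    have := pi_pos
    apply mul_nonneg this.le; linarith
  have h7 : 1 / (π * R ^ 2) * ((π * (1 - 4 * e)) * ((R ^ 2 - (e ^ 2 * ρ) ^ 2) / 2 - R * (e ^ 2 * ρ)))
      = (1 - 4 * e) * ((1 - e ^ 2) / 2 - e) := by
    have := pi_pos
    rw [hR]
    field_simp
  calc 1 / 2 - 7 * e / 2 ≤ (1 - 4 * e) * ((1 - e ^ 2) / 2 - e) := by nlinarith [pow_pos he 3, pow_pos he 2]
    _ = _ := h7.symm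
    _ ≤ _ := by
      apply mul_le_mul_of_nonneg_left h6
      have := pi_pos
      positivity

/-- the escape property for a set of points with small averages. -/
theorem escape_of_avg {Ω : Set ℂ} (hΩ : IsOpen Ω) {F F' : Set ℂ} {e R₀ : ℝ} (he : 0 < e) (he1 : e ≤ 1 / 8)
    (hR₀ : 0 < R₀) (hF : ∀ z ∈ F, ∀ R, 0 < R → R < R₀ →
      1 / (π * R ^ 2) * (∫ r in (0)..R, theta Ω z r * r) < 1 / 2 - 7 * e / 2)
    (hF' : F' ⊆ closure F) (hne : F'.Nonempty) : Escape Ω F' (e ^ 3 / 4) (e ^ 2) R₀ := by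
  intro w hw hwF
  have he3 : 0 < e ^ 3 := by positivity
  have he31 : e ^ 3 ≤ 1 := pow_le_one₀ he.le (by linarith)
  let Em : ℝ → Prop := fun ρ => ∀ z, volume ((fun k => dist k z) '' (Ωᶜ ∩ closedBall w ρ)) < ENNReal.ofReal (e ^ 2 * ρ)
  let S : Set ℝ := {ρ | 0 < ρ ∧ ρ ≤ R₀ ∧ Em ρ}
  have hSne : S.Nonempty := by
    obtain ⟨d, hd, hb⟩ := exists_ball_sub hΩ hw
    refine ⟨min d R₀, lt_min hd hR₀, min_le_right _ _, fun z => ?_⟩
    have : Ωᶜ ∩ closedBall w (min d R₀) = ∅ := by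
      rw [Set.eq_empty_iff_forall_notMem]
      rintro k ⟨hk1, hk2⟩
      exact hk1 (hb (closedBall_subset_closedBall (min_le_left _ _) hk2))
    rw [this, image_empty, measure_empty, ENNReal.ofReal_pos]
    have : 0 < min d R₀ := lt_min hd hR₀
    positivity
  have hSfar : ∀ ρ ∈ S, ∀ ζ ∈ F', (1 + e ^ 3) * ρ ≤ dist ζ w := by
    rintro ρ ⟨hρ, hρR, hE⟩ ζ hζ
    have h1 : F ⊆ {ζ | (1 + e ^ 3) * ρ ≤ dist ζ w} := by
      intro z hz
      by_contra hcon
      simp only [mem_setOf_eq, not_le] at hcon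
      have h2 := avg_large hΩ he he1 hρ hcon.le (hE z)
      have h3 := hF z hz (e * ρ) (by positivity) (by nlinarith)
      linarith
    have h2 : IsClosed {ζ | (1 + e ^ 3) * ρ ≤ dist ζ w} := isClosed_le continuous_const (by fun_prop)
    exact (closure_minimal h1 h2) (hF' hζ)
  have hSb : BddAbove S := ⟨R₀, fun ρ h => h.2.1⟩
  have hsup : 0 < sSup S := by
    obtain ⟨ρ, hρ⟩ := hSne
    exact lt_of_lt_of_le hρ.1 (le_csSup hSb hρ)
  obtain ⟨ρ₁, hρ₁, hlt⟩ := exists_lt_of_lt_csSup hSne (show sSup S / (1 + e ^ 3 / 4) < sSup S from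
    div_lt_self hsup (by linarith))
  rw [div_lt_iff₀ (by positivity)] at hlt
  have hρ₁0 := hρ₁.1
  have hnot : ρ₁ * (1 + e ^ 3 / 4) ∉ S := fun h => absurd (le_csSup hSb h) (not_le.2 hlt)
  have hle : (1 + e ^ 3) * ρ₁ ≤ infDist w F' := by
    rw [Metric.le_infDist hne]
    intro ζ hζ
    rw [dist_comm]
    exact hSfar ρ₁ hρ₁ ζ hζ
  have hleR : ρ₁ * (1 + e ^ 3 / 4) ≤ R₀ := by nlinarith
  have hnE : ¬ Em (ρ₁ * (1 + e ^ 3 / 4)) := by
    intro h
    exact hnot ⟨by positivity, hleR, h⟩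
  simp only [Em, not_forall, not_lt] at hnE
  obtain ⟨z, hz⟩ := hnE
  refine ⟨ρ₁ * (1 + e ^ 3 / 4), by positivity, z, fun ζ hζ => ?_, hz⟩
  refine le_trans ?_ (hSfar ρ₁ hρ₁ ζ hζ)
  have : (1 + 2 * (e ^ 3 / 4)) * (1 + e ^ 3 / 4) ≤ 1 + e ^ 3 := by nlinarith
  nlinarith

end Pool.Agent.H32R3.AD
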