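import Mathlib
import Pool.Agent.H32R3.AD.Iter

set_option maxHeartbeats 4000000

namespace Pool.Agent.H32R3.AD

open MeasureTheory Filter Topology Set Metric Real
open scoped ENNReal

theorem NonnegSuperharmonicOn.add {Ω : Set ℂ} {s t : ℂ → ℝ≥0∞} (hs : NonnegSuperharmonicOn Ω s)
    (ht : NonnegSuperharmonicOn Ω t) : NonnegSuperharmonicOn Ω (fun x => s x + t x) := by
  refine ⟨hs.1.add ht.1, fun z r hr hB => ?_⟩
  have hsph : ∀ θ, circleMap z r θ ∈ Ω := fun θ =>
    hB (sphere_subset_closedBall (circleMap_mem_sphere z hr.le θ))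
  have hm : Measurable (fun θ => s (circleMap z r θ)) := by
    apply LowerSemicontinuous.measurable
    rw [← lowerSemicontinuousOn_univ_iff]
    exact hs.1.comp (continuous_circleMap z r).continuousOn (fun θ _ => hsph θ)
  rw [lintegral_add_left hm, mul_add]
  exact add_le_add (hs.2 z r hr hB) (ht.2 z r hr hB)

/-- minimum principle. -/
theorem min_principle {Ω : Set ℂ} (hΩ : IsOpen Ω) {s : ℂ → ℝ≥0∞} (hs : NonnegSuperharmonicOn Ω s)
    {G : ℂ → ℝ} {w : ℂ} {R : ℝ} (hG0 : ∀ x, 0 ≤ G x) (hG1 : ∀ x ∈ Ω, G x ≤ 1)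
    (hGR : ∀ x, R ≤ dist x w → G x = 0) (hGc : ContinuousOn G Ω)
    (hGm : ∀ x ∈ Ω, ∃ ρ > 0, ∀ r, 0 < r → r < ρ → G x ≤ circleAverage G x r)
    (hb : ∀ ζ ∈ closedBall w R, ζ ∉ Ω → 1 ≤ liminf s (𝓝[Ω] ζ))
    {x₀ : ℂ} (hx₀ : x₀ ∈ Ω) : ENNReal.ofReal (G x₀) ≤ s x₀ := by
  by_contra hcon
  push Not at hcon
  have hpos : 0 < G x₀ := by
    by_contra h
    push Not at h
    rw [ENNReal.ofReal_of_nonpos h] at hcon
    exact absurd hcon (not_lt.2 zero_le)
  have hx₀R : dist x₀ w < R := by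
    by_contra h
    push Not at h
    rw [hGR x₀ h] at hpos; exact lt_irrefl _ hpos
  have hR : 0 < R := dist_nonneg.trans_lt hx₀R
  -- real truncation
  classical
  set S : ℂ → ℝ := fun x => (min (s x) 2).toReal with hS
  have hSfin : ∀ x, min (s x) 2 ≠ ⊤ := fun x => ne_top_of_le_ne_top (by simp) (min_le_right _ _)
  have hSlt : ∀ x, ∀ a : ℝ, 0 ≤ a → a < S x → ENNReal.ofReal a < s x := by
    intro x a ha h
    have h1 : ENNReal.ofReal a < min (s x) 2 := (ENNReal.ofReal_lt_iff_lt_toReal ha (hSfin x)).2 h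
    exact h1.trans_le (min_le_left _ _)
  have hltS : ∀ x, ∀ a : ℝ, a < 2 → ENNReal.ofReal a < s x → 0 ≤ a → a < S x := by
    intro x a ha h ha0
    apply (ENNReal.ofReal_lt_iff_lt_toReal ha0 (hSfin x)).1
    apply lt_min h
    rw [show (2 : ℝ≥0∞) = ENNReal.ofReal 2 by simp]
    exact (ENNReal.ofReal_lt_ofReal_iff (by norm_num)).2 ha
  -- choose δ
  set gap : ℝ := G x₀ - S x₀ with hgap
  have hgap0 : 0 < gap := by
    have h1 : S x₀ < G x₀ := by
      have h2 : min (s x₀) 2 ≤ s x₀ := min_le_left _ _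
      have h3 : min (s x₀) 2 < ENNReal.ofReal (G x₀) := h2.trans_lt hcon
      exact (ENNReal.lt_ofReal_iff_toReal_lt (hSfin x₀)).1 h3
    linarith
  set δ : ℝ := gap / (2 * R ^ 2) with hδ
  have hδ0 : 0 < δ := by positivity
  set f : ℂ → ℝ := fun x => if x ∈ Ω then S x - G x + δ * (R ^ 2 - ‖x - w‖ ^ 2) else 0 with hf
  have hqc : Continuous (fun x : ℂ => δ * (R ^ 2 - ‖x - w‖ ^ 2)) := by fun_prop
  have hfl : LowerSemicontinuousOn f (closedBall w R) := by
    intro ζ hζ y hy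
    by_cases hζΩ : ζ ∈ Ω
    · -- inside
      have hSl : ∀ a, a < S ζ → ∀ᶠ x in 𝓝 ζ, a < S x := by
        intro a ha
        by_cases ha0 : a < 0
        · exact Eventually.of_forall fun x => ha0.trans_le ENNReal.toReal_nonneg
        · push Not at ha0
          have h1 := hSlt ζ a ha0 ha
          have ha2 : a < 2 := by
            refine ha.trans_le ?_
            have : S ζ ≤ (2 : ℝ≥0∞).toReal := ENNReal.toReal_mono (by simp) (min_le_right _ _)
            simpa using this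
          have h2 := hs.1 ζ hζΩ _ h1
          rw [hΩ.nhdsWithin_eq hζΩ] at h2
          filter_upwards [h2] with x hx using hltS x a ha2 hx ha0
      have hGc' : ContinuousAt (fun x => - G x + δ * (R ^ 2 - ‖x - w‖ ^ 2)) ζ :=
        (hGc.continuousAt (hΩ.mem_nhds hζΩ)).neg.add hqc.continuousAt
      simp only [hf, if_pos hζΩ] at hy
      obtain ⟨e, he1, he2⟩ := exists_between (show y < S ζ + (- G ζ + δ * (R ^ 2 - ‖ζ - w‖ ^ 2)) by linarith)
      have g1 := hSl (S ζ - (e - y) / 2 - (S ζ + (- G ζ + δ * (R ^ 2 - ‖ζ - w‖ ^ 2)) - e) / 2) (by linarith)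
      have g2 := hGc'.eventually (lt_mem_nhds (show (- G ζ + δ * (R ^ 2 - ‖ζ - w‖ ^ 2)) - (e - y) / 2 < - G ζ + δ * (R ^ 2 - ‖ζ - w‖ ^ 2) by linarith))
      apply mem_nhdsWithin_of_mem_nhds
      filter_upwards [g1, g2, hΩ.mem_nhds hζΩ] with x hx1 hx2 hx3
      show y < f x
      simp only [hf, if_pos hx3]
      linarith
    · -- boundary point
      simp only [hf, if_neg hζΩ] at hy
      have hlim := hb ζ hζ hζΩ
      obtain ⟨y', hy1, hy2⟩ := exists_between hy
      have g1 : ∀ᶠ x in 𝓝[Ω] ζ, ENNReal.ofReal (1 + y') < s x := by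
        refine eventually_lt_of_lt_liminf (lt_of_lt_of_le ?_ hlim)
        rw [show (1 : ℝ≥0∞) = ENNReal.ofReal 1 by simp]
        exact (ENNReal.ofReal_lt_ofReal_iff (by norm_num)).2 (by linarith)
      rw [eventually_nhdsWithin_iff] at g1
      have g2 : ∀ᶠ x in 𝓝[closedBall w R] ζ, x ∈ closedBall w R := self_mem_nhdsWithin
      filter_upwards [mem_nhdsWithin_of_mem_nhds g1, g2] with x hx1 hx2
      show y < f x
      by_cases hxΩ : x ∈ Ω
      · simp only [hf, if_pos hxΩ]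
        have h3 := hx1 hxΩ
        have h4 : 0 ≤ δ * (R ^ 2 - ‖x - w‖ ^ 2) := by
          rw [mem_closedBall, dist_eq_norm] at hx2
          apply mul_nonneg hδ0.le
          nlinarith [norm_nonneg (x - w)]
        have h5 : 1 + y' ≤ S x := by
          by_cases h6 : 0 ≤ 1 + y'
          · exact (hltS x (1 + y') (by linarith) h3 h6).le
          · push Not at h6
            exact h6.le.trans ENNReal.toReal_nonneg
        have h6 := hG1 x hxΩ
        linarith
      · simp only [hf, if_neg hxΩ]; exact hy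
  obtain ⟨x₁, hx₁, hmin⟩ := hfl.exists_isMinOn ⟨w, mem_closedBall_self hR.le⟩ (isCompact_closedBall w R)
  have hfx₀ : f x₀ < 0 := by
    simp only [hf, if_pos hx₀]
    have h1 : δ * (R ^ 2 - ‖x₀ - w‖ ^ 2) ≤ gap / 2 := by
      have : δ * (R ^ 2 - ‖x₀ - w‖ ^ 2) ≤ δ * R ^ 2 := by
        apply mul_le_mul_of_nonneg_left _ hδ0.le
        have := sq_nonneg ‖x₀ - w‖
        linarith
      have h2 : δ * R ^ 2 = gap / 2 := by rw [hδ]; field_simp
      linarith
    linarith
  have hx₀B : x₀ ∈ closedBall w R := mem_closedBall.2 hx₀R.le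
  have hfx₁ : f x₁ < 0 := lt_of_le_of_lt (hmin hx₀B) hfx₀
  have hx₁Ω : x₁ ∈ Ω := by
    by_contra h
    simp only [hf, if_neg h] at hfx₁
    exact lt_irrefl _ hfx₁
  have hfx₁' : f x₁ = S x₁ - G x₁ + δ * (R ^ 2 - ‖x₁ - w‖ ^ 2) := by simp only [hf, if_pos hx₁Ω]
  have hx₁R : dist x₁ w < R := by
    rcases lt_or_eq_of_le (mem_closedBall.1 hx₁) with h | h
    · exact h
    · exfalso
      rw [hfx₁', hGR x₁ h.ge] at hfx₁
      rw [dist_eq_norm] at h
      rw [h] at hfx₁
      have : 0 ≤ S x₁ := ENNReal.toReal_nonneg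
      linarith
  -- s x₁ finite and equal to S x₁
  have hS1 : S x₁ < 1 := by
    have h1 : 0 ≤ δ * (R ^ 2 - ‖x₁ - w‖ ^ 2) := by
      rw [dist_eq_norm] at hx₁R
      apply mul_nonneg hδ0.le
      nlinarith [norm_nonneg (x₁ - w)]
    have := hG1 x₁ hx₁Ω
    linarith
  have hs1 : s x₁ = ENNReal.ofReal (S x₁) := by
    have h1 : min (s x₁) 2 < 2 := by
      rw [show (2 : ℝ≥0∞) = ENNReal.ofReal 2 by simp]
      apply (ENNReal.lt_ofReal_iff_toReal_lt (by
        rw [show ENNReal.ofReal 2 = (2 : ℝ≥0∞) by simp]; exact hSfin x₁)).2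
      have : (min (s x₁) (ENNReal.ofReal 2)).toReal = S x₁ := by
        rw [show ENNReal.ofReal 2 = (2 : ℝ≥0∞) by simp]
      rw [this]; linarith
    have h2 : min (s x₁) 2 = s x₁ := by
      rcases min_choice (s x₁) 2 with h | h
      · exact h
      · rw [h] at h1; exact absurd h1 (lt_irrefl _)
    rw [hS]
    simp only [h2]
    rw [ENNReal.ofReal_toReal]
    rw [← h2]; exact hSfin x₁
  obtain ⟨ρ₁, hρ₁, hbΩ⟩ := exists_ball_sub hΩ hx₁Ω
  obtain ⟨ρ₂, hρ₂, hm⟩ := hGm x₁ hx₁Ω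
  obtain ⟨r, hr0, hr1, hr2, hr3⟩ : ∃ r, 0 < r ∧ r < ρ₁ ∧ r < ρ₂ ∧ r < R - dist x₁ w := by
    have h0 : 0 < min (min ρ₁ ρ₂) (R - dist x₁ w) := lt_min (lt_min hρ₁ hρ₂) (by linarith)
    have e1 := min_le_left (min ρ₁ ρ₂) (R - dist x₁ w)
    have e2 := min_le_right (min ρ₁ ρ₂) (R - dist x₁ w)
    have e3 := min_le_left ρ₁ ρ₂
    have e4 := min_le_right ρ₁ ρ₂
    exact ⟨min (min ρ₁ ρ₂) (R - dist x₁ w) / 2, by positivity, by linarith, by linarith, by linarith⟩
  have hsub : closedBall x₁ r ⊆ Ω := (closedBall_subset_closedBall hr1.le).trans hbΩ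
  have hsph : ∀ θ, circleMap x₁ r θ ∈ sphere x₁ r := fun θ => circleMap_mem_sphere x₁ hr0.le θ
  have hsphΩ : ∀ θ, circleMap x₁ r θ ∈ Ω := fun θ => hsub (sphere_subset_closedBall (hsph θ))
  have hcirc : ∀ θ, circleMap x₁ r θ ∈ closedBall w R := by
    intro θ
    rw [mem_closedBall]
    have h1 := hsph θ
    rw [mem_sphere] at h1
    have := dist_triangle (circleMap x₁ r θ) x₁ w
    linarith
  -- lower bound for s on the circle
  set m := f x₁ with hm_def
  set H : ℂ → ℝ := fun y => m + G y - δ * (R ^ 2 - ‖y - w‖ ^ 2) with hH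
  have hHc : ContinuousOn H Ω := (continuousOn_const.add hGc).sub hqc.continuousOn
  have hge : ∀ θ, ENNReal.ofReal (H (circleMap x₁ r θ)) ≤ s (circleMap x₁ r θ) := by
    intro θ
    have h1 : m ≤ f (circleMap x₁ r θ) := hmin (hcirc θ)
    simp only [hf, if_pos (hsphΩ θ)] at h1
    have h2 : H (circleMap x₁ r θ) ≤ S (circleMap x₁ r θ) := by simp only [hH]; linarith
    refine (ENNReal.ofReal_le_ofReal h2).trans ?_
    rw [hS]
    simp only
    rw [ENNReal.ofReal_toReal (hSfin _)]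
    exact min_le_left _ _
  have hmean := hs.2 x₁ r hr0 hsub
  have h1 : ∫⁻ θ in Ioc 0 (2 * π), ENNReal.ofReal (H (circleMap x₁ r θ)) ≤ ENNReal.ofReal (2 * π) * s x₁ :=
    (lintegral_mono hge).trans hmean
  have hHcm : Continuous (fun θ => H (circleMap x₁ r θ)) :=
    hHc.comp_continuous (continuous_circleMap x₁ r) hsphΩ
  have hHint : IntegrableOn (fun θ => H (circleMap x₁ r θ)) (Ioc 0 (2 * π)) :=
    (hHcm.intervalIntegrable 0 (2 * π)).1
  have h2 : ENNReal.ofReal (∫ θ in Ioc 0 (2 * π), H (circleMap x₁ r θ))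
      ≤ ∫⁻ θ in Ioc 0 (2 * π), ENNReal.ofReal (H (circleMap x₁ r θ)) := by
    have h3 : ∫ θ in Ioc 0 (2 * π), H (circleMap x₁ r θ) ≤ ∫ θ in Ioc 0 (2 * π), max (H (circleMap x₁ r θ)) 0 := by
      apply setIntegral_mono hHint
      · exact hHint.pos_part
      · intro θ; exact le_max_left _ _
    have h4 : ∫⁻ θ in Ioc 0 (2 * π), ENNReal.ofReal (H (circleMap x₁ r θ))
        = ENNReal.ofReal (∫ θ in Ioc 0 (2 * π), max (H (circleMap x₁ r θ)) 0) := by
      rw [ofReal_integral_eq_lintegral_ofReal hHint.pos_part (ae_of_all _ fun θ => le_max_right _ _)]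
      apply lintegral_congr
      intro θ
      rw [ENNReal.ofReal_max, ENNReal.ofReal_zero, max_eq_left zero_le]
    rw [h4]
    exact ENNReal.ofReal_le_ofReal h3
  have h3 : ENNReal.ofReal (∫ θ in Ioc 0 (2 * π), H (circleMap x₁ r θ)) ≤ ENNReal.ofReal ((2 * π) * S x₁) := by
    rw [ENNReal.ofReal_mul (by positivity), ← hs1]
    exact h2.trans h1
  have hSnn : 0 ≤ S x₁ := ENNReal.toReal_nonneg
  have h4 : ∫ θ in Ioc 0 (2 * π), H (circleMap x₁ r θ) ≤ (2 * π) * S x₁ :=
    (ENNReal.ofReal_le_ofReal_iff (by positivity)).1 h3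
  have h5 : circleAverage H x₁ r ≤ S x₁ := by
    rw [circleAverage_def, intervalIntegral.integral_of_le (by positivity), smul_eq_mul, inv_mul_le_iff₀ (by positivity)]
    exact h4
  -- compute the average of H from below
  have hGI : CircleIntegrable G x₁ r := circInt hGc hr0 hsub
  have hNI : CircleIntegrable (fun y : ℂ => ‖y - w‖ ^ 2) x₁ r := by
    apply Continuous.continuousOn _ |>.circleIntegrable'
    fun_prop
  have h6 : circleAverage H x₁ r = m - δ * R ^ 2 + circleAverage G x₁ r + δ * (‖x₁ - w‖ ^ 2 + r ^ 2) := by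
    have e1 : H = fun y => (m - δ * R ^ 2) + (G y + δ * ‖y - w‖ ^ 2) := by
      funext y; simp only [hH]; ring
    have hNI' : CircleIntegrable (fun y : ℂ => δ * ‖y - w‖ ^ 2) x₁ r := by
      apply Continuous.continuousOn _ |>.circleIntegrable'
      fun_prop
    have a1 := circleAverage_fun_smul (c := x₁) (R := r) (f := fun y : ℂ => ‖y - w‖ ^ 2) (a := δ)
    simp only [smul_eq_mul] at a1
    rw [avg_normSq] at a1
    have a2 := circleAverage_fun_add (f₁ := G) (f₂ := fun y : ℂ => δ * ‖y - w‖ ^ 2) hGI hNI'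
    have a3 := circleAverage_fun_add (c := x₁) (R := r) (f₁ := fun _ => (m - δ * R ^ 2)) (f₂ := fun y => G y + δ * ‖y - w‖ ^ 2)
      (continuous_const.continuousOn.circleIntegrable') (hGI.add hNI')
    rw [e1, a3, a2, a1, circleAverage_const]
    ring
  have h7 := hm r hr0 hr2
  have h8 : 0 < δ * r ^ 2 := by positivity
  rw [h6] at h5
  nlinarith

end Pool.Agent.H32R3.AD
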